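import Pool.Agent.Lib.H54J.J8

/-! # The pair inequality with constants `(kappa_w, kappa_r) = (5/4, 1/2)` and its sum -/

namespace Pool.Agent.H54J

open Matrix Pool.Agent.H25A Pool.Agent.H16T
open scoped ComplexOrder

variable {ι : Type*} [Fintype ι] [DecidableEq ι] {n : ℕ}

theorem zz_bound {a b X F F' : Matrix ι ι ℂ} (ha : a.IsHermitian) (hb : b.IsHermitian)
    (hX : X.IsHermitian) (hF : F = ((2⁻¹ : ℝ) : ℂ) • (1 + b))
    (hF' : F' = ((2⁻¹ : ℝ) : ℂ) • (1 - b)) (h1 : F.PosSemidef) (h0 : F'.PosSemidef) :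
    -rtr ((a * X - X * a) * b * (a * b * X - X * b * a)) -
        rtr ((a * X - X * a) * (a * b * X - X * b * a) * b) +
        rtr ((a * X - X * a) * (a * X - X * a)) +
        rtr ((a * X - X * a) * b * (a * X - X * a) * b) ≤ zz X F a + zz X F' a := by
  have hw : (a * X - X * a)ᴴ = -(a * X - X * a) := by
    rw [Matrix.conjTranspose_sub, Matrix.conjTranspose_mul, Matrix.conjTranspose_mul, ha.eq, hX.eq]
    abel
  have hz : (a * b * X - X * b * a)ᴴ = -(a * b * X - X * b * a) := by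
    simp only [Matrix.conjTranspose_sub, Matrix.conjTranspose_mul, ha.eq, hb.eq, hX.eq,
      Matrix.mul_assoc]
    abel
  have key := zz_aux hb hw hz hF hF' h1 h0
  have e1 : a * F * X - X * F * a =
      ((2⁻¹ : ℝ) : ℂ) • ((a * X - X * a) + (a * b * X - X * b * a)) := by
    rw [hF]
    simp only [Matrix.mul_smul, Matrix.smul_mul, Matrix.mul_add, Matrix.add_mul, Matrix.mul_one,
      smul_add, smul_sub]
    abel
  have e0 : a * F' * X - X * F' * a =
      ((2⁻¹ : ℝ) : ℂ) • ((a * X - X * a) - (a * b * X - X * b * a)) := by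
    rw [hF']
    simp only [Matrix.mul_smul, Matrix.smul_mul, Matrix.mul_sub, Matrix.sub_mul, Matrix.mul_one,
      smul_sub]
    abel
  unfold zz
  rw [e1, e0]
  exact key

/-- The polynomial inequality. -/
theorem hf_ineq2 {a b X E E' F F' : Matrix ι ι ℂ} (ha : a.IsHermitian) (hb : b.IsHermitian)
    (hX : X.IsHermitian) (hal : (1 - a * a).PosSemidef) (hbe : (1 - b * b).PosSemidef)
    (hF : F = ((2⁻¹ : ℝ) : ℂ) • (1 + b)) (hF' : F' = ((2⁻¹ : ℝ) : ℂ) • (1 - b))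
    (hE : E = ((2⁻¹ : ℝ) : ℂ) • (1 + a)) (hE' : E' = ((2⁻¹ : ℝ) : ℂ) • (1 - a))
    (hF1 : F.PosSemidef) (hF0 : F'.PosSemidef) (hE1 : E.PosSemidef) (hE0 : E'.PosSemidef) :
    2 * (hf X b a + hf X a b) ≤ xx X (a * b - b * a) + nsq (a * X - X * a) +
      nsq (b * X - X * b) + (1 / 2) * rtr (X * X * ((1 - a * a) + (1 - b * b))) +
      (1 / 2) * (zz X F a + zz X F' a) + (1 / 2) * (zz X E b + zz X E' b) := by
  rw [hf_identity2 ha hb hX]
  have h1 := zz_bound ha hb hX hF hF' hF1 hF0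
  have h2 := zz_bound hb ha hX hE hE' hE1 hE0
  have hw : ∀ {c : Matrix ι ι ℂ}, c.IsHermitian → (c * X - X * c)ᴴ = -(c * X - X * c) := by
    intro c hc
    rw [Matrix.conjTranspose_sub, Matrix.conjTranspose_mul, Matrix.conjTranspose_mul, hc.eq, hX.eq]
    abel
  have h3 : rtr ((1 - b * b) * (a * X - X * a) * (a * X - X * a)) ≤ 0 := by
    have h4 := rtr_mul_nonneg hbe (Matrix.posSemidef_conjTranspose_mul_self (a * X - X * a))
    rw [hw ha, Matrix.neg_mul, Matrix.mul_neg, rtr_neg, ← Matrix.mul_assoc] at h4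
    linarith
  have h5 : rtr ((1 - a * a) * (b * X - X * b) * (b * X - X * b)) ≤ 0 := by
    have h4 := rtr_mul_nonneg hal (Matrix.posSemidef_conjTranspose_mul_self (b * X - X * b))
    rw [hw hb, Matrix.neg_mul, Matrix.mul_neg, rtr_neg, ← Matrix.mul_assoc] at h4
    linarith
  have h6 : 0 ≤ rtr ((1 - a * a) * X * (1 - b * b) * X) := by
    have h7 := rtr_mul_nonneg hal (hbe.mul_mul_conjTranspose_same X)
    rw [hX.eq] at h7
    have h8 : (1 - a * a) * X * (1 - b * b) * X = (1 - a * a) * (X * (1 - b * b) * X) := by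
      simp only [Matrix.mul_assoc]
    rw [h8]
    exact h7
  linarith

theorem nu_eq {X F : Matrix ι ι ℂ} (hX : X.IsHermitian) (hF : F.IsHermitian) :
    rtr (X * X * F) - rtr (X * F * X * F) =
      rtr (X * X * (F - F * F)) + (1 / 2) * nsq (F * X - X * F) := by
  rw [nsq_comm_eq hF hX, Matrix.mul_sub, rtr_sub]
  have h1 : rtr (F * F * (X * X)) = rtr (X * X * (F * F)) := rtr_mul_comm _ _
  have h2 : rtr (F * X * F * X) = rtr (X * F * X * F) := by
    rw [rtr_mul_comm]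
    simp only [Matrix.mul_assoc]
  rw [h1, h2]
  ring

/-- Abstract form of the alpha trick: from two test inequalities with gains `g1`, `g2`. -/
theorem pair_core {X S E F : Matrix ι ι ℂ} (hS : S.PosDef) (hX : S * S = X)
    (hE0 : E.PosSemidef) (hF0 : F.PosSemidef)
    {N M : Matrix ι ι ℂ × Matrix ι ι ℂ}
    (hIN : IsInst X N) (hIM : IsInst X M) (G H s : HM ι)
    (hG : G.val = S * E * S) (hH : H.val = S * F * S)
    (hs : s = (2 : ℝ)⁻¹ • (bB N hIN.1 hIN.2.1 H + bB M hIM.1 hIM.2.1 G))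
    (c1 c2 : ℝ)
    (d1' : ∀ (σ : Matrix ι ι ℂ) (z : HM ι) (α : ℝ), σ.IsHermitian →
      z.val = S * E * S + (α : ℂ) • (S * σ * S) → inner ℝ z (bB M hIM.1 hIM.2.1 z) ≤ c1 +
        (α / 2) * rtr (X * σ * X * ((E + E - 1) - (F + F - 1) * (E + E - 1) * (F + F - 1))) +
        α ^ 2 * rtr (X * σ * X * σ))
    (d2' : ∀ (σ : Matrix ι ι ℂ) (z : HM ι) (α : ℝ), σ.IsHermitian →
      z.val = S * F * S + (α : ℂ) • (S * σ * S) → inner ℝ z (bB N hIN.1 hIN.2.1 z) ≤ c2 +
        (α / 2) * rtr (X * σ * X * ((F + F - 1) - (E + E - 1) * (F + F - 1) * (E + E - 1))) +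
        α ^ 2 * rtr (X * σ * X * σ)) :
    (1 / 2) * (inner ℝ G (bB M hIM.1 hIM.2.1 G) + inner ℝ H (bB N hIN.1 hIN.2.1 H)) +
      (1 / 2) * inner ℝ s s +
      (1 / 4) * (inner ℝ s (bB N hIN.1 hIN.2.1 s) + inner ℝ s (bB M hIM.1 hIM.2.1 s)) ≤
    (1 / 2) * (c1 + c2) + (5 / 256) * xx X (u8 (E + E - 1) (F + F - 1)) := by
  have hXp : X.PosDef := by
    rw [← hX]
    have hdet : IsUnit S.det := (Matrix.isUnit_iff_isUnit_det S).1 hS.isUnit
    have h1 : (S * S).PosSemidef := by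
      have := Matrix.posSemidef_conjTranspose_mul_self S
      rwa [hS.isHermitian.eq] at this
    rw [h1.posDef_iff_isUnit, Matrix.isUnit_iff_isUnit_det, Matrix.det_mul]
    exact hdet.mul hdet
  have hXh : X.IsHermitian := hXp.isHermitian
  have hdet : IsUnit S.det := (Matrix.isUnit_iff_isUnit_det S).1 hS.isUnit
  have hS1 : S⁻¹ * S = 1 := Matrix.nonsing_inv_mul S hdet
  have hS2 : S * S⁻¹ = 1 := Matrix.mul_nonsing_inv S hdet
  have hSh : (S⁻¹)ᴴ = S⁻¹ := by
    rw [Matrix.conjTranspose_nonsing_inv, hS.isHermitian.eq]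
  obtain ⟨σ, hσ⟩ : ∃ σ, σ = S⁻¹ * s.val * S⁻¹ := ⟨_, rfl⟩
  have hσh : σ.IsHermitian := by
    unfold Matrix.IsHermitian
    rw [hσ, Matrix.conjTranspose_mul, Matrix.conjTranspose_mul, hSh, s.herm.eq, Matrix.mul_assoc]
  have hsσ : s.val = S * σ * S := by
    rw [hσ]
    calc s.val = (S * S⁻¹) * s.val * (S⁻¹ * S) := by rw [hS1, hS2, Matrix.one_mul, Matrix.mul_one]
      _ = S * (S⁻¹ * s.val * S⁻¹) * S := by simp only [Matrix.mul_assoc]
  obtain ⟨α, hα⟩ : ∃ α : ℝ, α = 5 / 7 := ⟨_, rfl⟩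
  have d1 := d1' σ (G + α • s) α hσh (by rw [HM.val_add, HM.val_smul, hG, hsσ])
  have d2 := d2' σ (H + α • s) α hσh (by rw [HM.val_add, HM.val_smul, hH, hsσ])
  have symN : ∀ x y : HM ι, inner ℝ (bB N hIN.1 hIN.2.1 x) y =
      inner ℝ x (bB N hIN.1 hIN.2.1 y) := by
    intro x y
    simp only [HM.inner_eq, bB_val, Matrix.sub_mul, Matrix.mul_sub, rtr_sub, theta_symm]
  have symM : ∀ x y : HM ι, inner ℝ (bB M hIM.1 hIM.2.1 x) y =
      inner ℝ x (bB M hIM.1 hIM.2.1 y) := by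
    intro x y
    simp only [HM.inner_eq, bB_val, Matrix.sub_mul, Matrix.mul_sub, rtr_sub, theta_symm]
  have posN : 0 ≤ inner ℝ s (bB N hIN.1 hIN.2.1 s) := by
    simp only [HM.inner_eq, bB_val, Matrix.mul_sub, rtr_sub]
    have := theta_le hXp hIN s.herm
    linarith
  have posM : 0 ≤ inner ℝ s (bB M hIM.1 hIM.2.1 s) := by
    simp only [HM.inner_eq, bB_val, Matrix.mul_sub, rtr_sub]
    have := theta_le hXp hIM s.herm
    linarith
  have hss : inner ℝ s (bB N hIN.1 hIN.2.1 H) + inner ℝ s (bB M hIM.1 hIM.2.1 G) =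
      2 * inner ℝ s s := by
    have h1 : bB N hIN.1 hIN.2.1 H + bB M hIM.1 hIM.2.1 G = (2 : ℝ) • s := by
      rw [hs, smul_smul]
      norm_num
    rw [← inner_add_right, h1, inner_smul_right]
  have q1 : inner ℝ (G + α • s) (bB M hIM.1 hIM.2.1 (G + α • s)) =
      inner ℝ G (bB M hIM.1 hIM.2.1 G) + 2 * α * inner ℝ s (bB M hIM.1 hIM.2.1 G) +
        α ^ 2 * inner ℝ s (bB M hIM.1 hIM.2.1 s) := by
    have h1 : inner ℝ G (bB M hIM.1 hIM.2.1 s) = inner ℝ s (bB M hIM.1 hIM.2.1 G) := by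
      rw [← symM, real_inner_comm]
    rw [map_add, map_smul, inner_add_left, inner_add_right, inner_add_right, inner_smul_left,
      inner_smul_left, inner_smul_right, inner_smul_right, h1]
    simp only [conj_trivial]
    ring
  have q2 : inner ℝ (H + α • s) (bB N hIN.1 hIN.2.1 (H + α • s)) =
      inner ℝ H (bB N hIN.1 hIN.2.1 H) + 2 * α * inner ℝ s (bB N hIN.1 hIN.2.1 H) +
        α ^ 2 * inner ℝ s (bB N hIN.1 hIN.2.1 s) := by
    have h1 : inner ℝ H (bB N hIN.1 hIN.2.1 s) = inner ℝ s (bB N hIN.1 hIN.2.1 H) := by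
      rw [← symN, real_inner_comm]
    rw [map_add, map_smul, inner_add_left, inner_add_right, inner_add_right, inner_smul_left,
      inner_smul_left, inner_smul_right, inner_smul_right, h1]
    simp only [conj_trivial]
    ring
  rw [q1] at d1
  rw [q2] at d2
  obtain ⟨a, ha'⟩ : ∃ a, a = E + E - 1 := ⟨_, rfl⟩
  obtain ⟨b, hb'⟩ : ∃ b, b = F + F - 1 := ⟨_, rfl⟩
  have ha : a.IsHermitian := by
    rw [ha']
    exact (hE0.isHermitian.add hE0.isHermitian).sub Matrix.isHermitian_one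
  have hb : b.IsHermitian := by
    rw [hb']
    exact (hF0.isHermitian.add hF0.isHermitian).sub Matrix.isHermitian_one
  have hsn : inner ℝ s s = rtr (X * σ * X * σ) := by
    rw [HM.inner_eq, hsσ]
    exact rtr_conj_sq hX σ σ
  have hU : (u8 a b).IsHermitian := by
    unfold u8 Matrix.IsHermitian
    simp only [Matrix.conjTranspose_sub, Matrix.conjTranspose_add, Matrix.conjTranspose_mul,
      ha.eq, hb.eq, Matrix.mul_assoc]
  have h6 := psd_xx hXp.posSemidef hσh hU (7 / 32)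
  have h7 : rtr (X * σ * X * (a - b * a * b)) + rtr (X * σ * X * (b - a * b * a)) =
      rtr (X * σ * X * u8 a b) := by
    rw [← rtr_add, ← Matrix.mul_add]
    congr 2
    unfold u8
    abel
  rw [← ha', ← hb'] at d1 d2
  rw [← ha', ← hb']
  have h8 : 0 ≤ inner ℝ s s := real_inner_self_nonneg
  subst hα
  linarith [h6, h7, d1, d2, posN, posM, hss, hsn, h8]

/-- One direction with gain. -/
theorem one_dir2 {X S E F : Matrix ι ι ℂ} (hS : S.PosDef) (hX : S * S = X)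
    (hE0 : E.PosSemidef) (hE1 : (1 - E).PosSemidef) (h0 : F.PosSemidef)
    (h1 : (1 - F).PosSemidef) {N : Matrix ι ι ℂ × Matrix ι ι ℂ} (hN : CanInst X S F N)
    (hI : IsInst X N) :
    ∃ g : ℝ, (1 / 2) * (zz X F (E + E - 1) + zz X (1 - F) (E + E - 1)) - g ≤
        2 * (rtr (X * X * F) - rtr (X * F * X * F)) ∧
      ∀ (σ : Matrix ι ι ℂ) (z : HM ι) (α : ℝ), σ.IsHermitian →
      z.val = S * E * S + (α : ℂ) • (S * σ * S) → inner ℝ z (bB N hI.1 hI.2.1 z) ≤
        ((1 / 4) * hf X (F + F - 1) (E + E - 1) - (1 / 8) * g) +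
        (α / 2) * rtr (X * σ * X * ((E + E - 1) - (F + F - 1) * (E + E - 1) * (F + F - 1))) +
        α ^ 2 * rtr (X * σ * X * σ) := by
  have hXh : X.IsHermitian := by
    rw [← hX]
    unfold Matrix.IsHermitian
    rw [Matrix.conjTranspose_mul, hS.isHermitian.eq]
  have ha : (E + E - 1 : Matrix ι ι ℂ).IsHermitian :=
    (hE0.isHermitian.add hE0.isHermitian).sub Matrix.isHermitian_one
  have hb : (F + F - 1 : Matrix ι ι ℂ).IsHermitian :=
    (h0.isHermitian.add h0.isHermitian).sub Matrix.isHermitian_one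
  have hr : ∀ (r : ℝ) {A : Matrix ι ι ℂ}, A.IsHermitian → ((r : ℂ) • A).IsHermitian := by
    intro r A hA
    unfold Matrix.IsHermitian
    rw [Matrix.conjTranspose_smul, hA.eq, Complex.star_def, Complex.conj_ofReal]
  have hF : F = ((2⁻¹ : ℝ) : ℂ) • (1 + (F + F - 1)) := by
    rw [add_sub_cancel, half_add]
  have hF' : 1 - F = ((2⁻¹ : ℝ) : ℂ) • (1 - (F + F - 1)) := by
    have h3 : (1 : Matrix ι ι ℂ) - (F + F - 1) = (1 - F) + (1 - F) := by abel
    rw [h3, half_add]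
  obtain ⟨g, hg, ht⟩ := test_gain hS hX h0 h1 ha (effect_psd hE0 hE1) hN hI
  refine ⟨g, hg, ?_⟩
  intro σ z α hσ hz
  have key := test_poly ha hb hσ hXh α hF hF' (y := ((2⁻¹ : ℝ) : ℂ) • (E + E - 1) + (α : ℂ) • σ)
    (c := ((2⁻¹ : ℝ) : ℂ) • (E + E - 1)) rfl rfl
  have h5 := ht (((2⁻¹ : ℝ) : ℂ) • (E + E - 1) + (α : ℂ) • σ) (((2⁻¹ : ℝ) : ℂ) • (E + E - 1))
    (2⁻¹ : ℝ) z ((hr _ ha).add (hr _ hσ)) rfl (by
      have h4 : ((2⁻¹ : ℝ) : ℂ) • (E + E - 1) = E - ((2⁻¹ : ℝ) : ℂ) • 1 := by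
        rw [smul_sub, half_add]
      rw [hz, h4, ← hX]
      simp only [Matrix.mul_add, Matrix.add_mul, Matrix.mul_sub, Matrix.sub_mul, Matrix.mul_smul,
        Matrix.smul_mul, Matrix.mul_one]
      abel)
  rw [key] at h5
  linarith

/-- The pair inequality, constants `(5/4, 1/2)`. -/
theorem pair_ineq2 {X S E F : Matrix ι ι ℂ} (hS : S.PosDef) (hX : S * S = X)
    (hE0 : E.PosSemidef) (hE1 : (1 - E).PosSemidef) (hF0 : F.PosSemidef)
    (hF1 : (1 - F).PosSemidef) {N M : Matrix ι ι ℂ × Matrix ι ι ℂ} (hN : CanInst X S E N)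
    (hIN : IsInst X N) (hM : CanInst X S F M) (hIM : IsInst X M) (G H s : HM ι)
    (hG : G.val = S * E * S) (hH : H.val = S * F * S)
    (hs : s = (2 : ℝ)⁻¹ • (bB N hIN.1 hIN.2.1 H + bB M hIM.1 hIM.2.1 G)) :
    (1 / 2) * (inner ℝ G (bB M hIM.1 hIM.2.1 G) + inner ℝ H (bB N hIN.1 hIN.2.1 H)) +
      (1 / 2) * inner ℝ s s +
      (1 / 4) * (inner ℝ s (bB N hIN.1 hIN.2.1 s) + inner ℝ s (bB M hIM.1 hIM.2.1 s)) ≤
    xx X (E * F - F * E) + (5 / 256) * xx X (u8 (E + E - 1) (F + F - 1)) +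
      (5 / 16) * (nsq (E * X - X * E) + nsq (F * X - X * F)) +
      (1 / 4) * (rtr (X * X * (E - E * E)) + rtr (X * X * (F - F * F))) := by
  have hXh : X.IsHermitian := by
    rw [← hX]
    unfold Matrix.IsHermitian
    rw [Matrix.conjTranspose_mul, hS.isHermitian.eq]
  obtain ⟨g1, hg1, ht1⟩ := one_dir2 hS hX hE0 hE1 hF0 hF1 hM hIM
  obtain ⟨g2, hg2, ht2⟩ := one_dir2 hS hX hF0 hF1 hE0 hE1 hN hIN
  have core := pair_core hS hX hE0 hF0 hIN hIM G H s hG hH hs _ _ ht1 ht2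
  have n1 := nu_eq hXh hF0.isHermitian
  have n2 := nu_eq hXh hE0.isHermitian
  obtain ⟨a, ha'⟩ : ∃ a, a = E + E - 1 := ⟨_, rfl⟩
  obtain ⟨b, hb'⟩ : ∃ b, b = F + F - 1 := ⟨_, rfl⟩
  have ha : a.IsHermitian := by
    rw [ha']
    exact (hE0.isHermitian.add hE0.isHermitian).sub Matrix.isHermitian_one
  have hb : b.IsHermitian := by
    rw [hb']
    exact (hF0.isHermitian.add hF0.isHermitian).sub Matrix.isHermitian_one
  have hF : F = ((2⁻¹ : ℝ) : ℂ) • (1 + b) := by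
    rw [hb', add_sub_cancel, half_add]
  have hF' : 1 - F = ((2⁻¹ : ℝ) : ℂ) • (1 - b) := by
    have h3 : (1 : Matrix ι ι ℂ) - (F + F - 1) = (1 - F) + (1 - F) := by abel
    rw [hb', h3, half_add]
  have hE : E = ((2⁻¹ : ℝ) : ℂ) • (1 + a) := by
    rw [ha', add_sub_cancel, half_add]
  have hE' : 1 - E = ((2⁻¹ : ℝ) : ℂ) • (1 - a) := by
    have h3 : (1 : Matrix ι ι ℂ) - (E + E - 1) = (1 - E) + (1 - E) := by abel
    rw [ha', h3, half_add]
  have h5 := hf_ineq2 ha hb hXh (by rw [ha']; exact effect_psd hE0 hE1)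
    (by rw [hb']; exact effect_psd hF0 hF1) hF hF' hE hE' hF0 hF1 hE0 hE1
  have c1 : nsq (a * X - X * a) = 4 * nsq (E * X - X * E) := by
    have h : a * X - X * a = (2 : ℝ) • (E * X - X * E) := by
      rw [ha', two_smul]
      noncomm_ring
    rw [h, nsq_smul]
    norm_num
  have c2 : nsq (b * X - X * b) = 4 * nsq (F * X - X * F) := by
    have h : b * X - X * b = (2 : ℝ) • (F * X - X * F) := by
      rw [hb', two_smul]
      noncomm_ring
    rw [h, nsq_smul]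
    norm_num
  have c3 : xx X (a * b - b * a) = 16 * xx X (E * F - F * E) := by
    have h : a * b - b * a = (4 : ℝ) • (E * F - F * E) := by
      have h4 : (4 : ℝ) = 2 * 2 := by norm_num
      rw [ha', hb', h4, mul_smul, two_smul, two_smul]
      noncomm_ring
    rw [h, xx_smul]
    norm_num
  have c4 : rtr (X * X * ((1 - a * a) + (1 - b * b))) =
      4 * (rtr (X * X * (E - E * E)) + rtr (X * X * (F - F * F))) := by
    have h : (1 - a * a) + (1 - b * b) = ((4 : ℝ) : ℂ) • ((E - E * E) + (F - F * F)) := by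
      have h4 : ((4 : ℝ) : ℂ) = 2 * 2 := by norm_num
      rw [ha', hb', h4, mul_smul, two_smul, two_smul]
      noncomm_ring
    rw [h, Matrix.mul_smul, rtr_smul, Matrix.mul_add, rtr_add]
  rw [← ha', ← hb'] at core
  rw [← ha'] at hg1
  rw [← hb'] at hg2
  rw [← ha', ← hb']
  rw [c1, c2, c3, c4] at h5
  linarith

/-- The pair functional for the canonical instruments. -/
theorem LL_le2 {X S : Matrix ι ι ℂ} (hS : S.PosDef) (hX : S * S = X) (hXh : X.IsHermitian)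
    (E : Fin n → Matrix ι ι ℂ) (hE0 : ∀ l, (E l).PosSemidef) (hE1 : ∀ l, (1 - E l).PosSemidef)
    (N : Fin n → Matrix ι ι ℂ × Matrix ι ι ℂ) (hN : ∀ l, CanInst X S (E l) (N l))
    (hI : ∀ l, IsInst X (N l)) (l i : Fin n) (hli : l ≠ i) :
    LL (bb N hI) (gg hXh N hI) l i ≤
      (xx X (E l * E i - E i * E l) +
        (5 / 256) * xx X (u8 (E l + E l - 1) (E i + E i - 1))) +
      (((5 / 16) * nsq (E l * X - X * E l) + (1 / 4) * rtr (X * X * (E l - E l * E l))) +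
        ((5 / 16) * nsq (E i * X - X * E i) + (1 / 4) * rtr (X * X * (E i - E i * E i)))) := by
  have hg : ∀ j, (gg hXh N hI j).val = S * E j * S := fun j => canInst_gG hS hX (hN j)
  have h := pair_ineq2 hS hX (hE0 l) (hE1 l) (hE0 i) (hE1 i) (hN l) (hI l) (hN i) (hI i)
    (gg hXh N hI l) (gg hXh N hI i) (H54I.ss (bb N hI) (gg hXh N hI) l i) (hg l) (hg i)
    (by
      unfold H54I.ss
      rw [if_neg hli]
      rfl)
  have h' : LL (bb N hI) (gg hXh N hI) l i ≤ _ := h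
  linarith

/-- `W + S/2` for the canonical instruments, constants `(5/4, 1/2)`. -/
theorem WS_le2 {X S : Matrix ι ι ℂ} (hS : S.PosDef) (hX : S * S = X) (hXh : X.IsHermitian)
    (E : Fin n → Matrix ι ι ℂ) (hE0 : ∀ l, (E l).PosSemidef) (hE1 : ∀ l, (1 - E l).PosSemidef)
    (N : Fin n → Matrix ι ι ℂ × Matrix ι ι ℂ) (hN : ∀ l, CanInst X S (E l) (N l))
    (hI : ∀ l, IsInst X (N l)) :
    H54I.WW (bb N hI) (gg hXh N hI) + (1 / 2) * H54I.SS (bb N hI) (gg hXh N hI) ≤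
      (∑ l, ∑ i ∈ Finset.univ.erase l, (xx X (E l * E i - E i * E l) +
        (5 / 256) * xx X (u8 (E l + E l - 1) (E i + E i - 1)))) +
      2 * ((n : ℝ) - 1) * ∑ l, ((5 / 16) * nsq (E l * X - X * E l) +
        (1 / 4) * rtr (X * X * (E l - E l * E l))) := by
  have h1 := WW_SS_le (bb N hI) (gg hXh N hI) _ (LL_le2 hS hX hXh E hE0 hE1 N hN hI)
  have h2 := sum_offdiag_add (fun l : Fin n => (5 / 16) * nsq (E l * X - X * E l) +
        (1 / 4) * rtr (X * X * (E l - E l * E l)))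
  rw [Fintype.card_fin] at h2
  rw [← h2]
  refine h1.trans (le_of_eq ?_)
  rw [← Finset.sum_add_distrib]
  refine Finset.sum_congr rfl fun l _ => ?_
  rw [← Finset.sum_add_distrib]

end Pool.Agent.H54J
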