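import Pool.Agent.Lib.H25A.B1
import Pool.Agent.Lib.H25A.B1b

/-! # The one-effect trace inequality (two-effect inequality of MP_afe93a_an)

For `Y ≥ 0` with `Y Y = X F X`, `F ≥ 0`, and Hermitian `y`, `a`:
`2 tr X y X F a F - tr X X F a F a F ≤ tr y Y y Y`. -/

namespace Pool.Agent.H54J

open Matrix Pool.Agent.H25A
open scoped ComplexOrder

variable {ι : Type*} [Fintype ι] [DecidableEq ι]

/-- Pseudo-inverse of a Hermitian matrix. -/
theorem exists_pinv {Y : Matrix ι ι ℂ} (hY : Y.IsHermitian) :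
    ∃ Z : Matrix ι ι ℂ, Z.IsHermitian ∧ Y * Z = Z * Y ∧ Y * Z * Y = Y ∧ Z * Y * Z = Z := by
  classical
  set U : Matrix ι ι ℂ := (hY.eigenvectorUnitary : Matrix ι ι ℂ) with hU
  have hUU : star U * U = 1 := Unitary.coe_star_mul_self hY.eigenvectorUnitary
  set d : ι → ℂ := fun i => ((hY.eigenvalues i : ℝ) : ℂ) with hd
  have hYs : Y = U * diagonal d * star U := by
    have h := hY.spectral_theorem
    rw [Unitary.conjStarAlgAut_apply] at h
    exact h
  have key : ∀ D E : Matrix ι ι ℂ, (U * D * star U) * (U * E * star U) = U * (D * E) * star U := by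
    intro D E
    calc (U * D * star U) * (U * E * star U) = U * D * (star U * U) * E * star U := by
          simp only [Matrix.mul_assoc]
      _ = U * (D * E) * star U := by
          rw [hUU, Matrix.mul_one]
          simp only [Matrix.mul_assoc]
  refine ⟨U * diagonal (fun i => (d i)⁻¹) * star U, ?_, ?_, ?_, ?_⟩
  · unfold Matrix.IsHermitian
    rw [Matrix.conjTranspose_mul, Matrix.conjTranspose_mul, Matrix.diagonal_conjTranspose,
      Matrix.star_eq_conjTranspose, Matrix.conjTranspose_conjTranspose]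
    have : star (fun i => (d i)⁻¹) = fun i => (d i)⁻¹ := by
      funext i
      simp [hd]
    rw [this]
    simp only [Matrix.mul_assoc]
  · rw [hYs, key, key, Matrix.diagonal_mul_diagonal, Matrix.diagonal_mul_diagonal]
    simp only [mul_comm]
  · rw [hYs, key, key, Matrix.diagonal_mul_diagonal, Matrix.diagonal_mul_diagonal]
    congr 3
    funext i
    by_cases h : d i = 0
    · simp [h]
    · field_simp
  · rw [hYs, key, key, Matrix.diagonal_mul_diagonal, Matrix.diagonal_mul_diagonal]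
    congr 3
    funext i
    by_cases h : d i = 0
    · simp [h]
    · field_simp

omit [DecidableEq ι] in
theorem eq_zero_of_conj_mul {A : Matrix ι ι ℂ} (h : Aᴴ * A = 0) : A = 0 := by
  exact Matrix.conjTranspose_mul_self_eq_zero.mp h

/-- If `N^* N = P` with `P P = P` and `N P = N` then `1 - N N^* ≥ 0`. -/
theorem psd_one_sub {N P : Matrix ι ι ℂ} (h1 : Nᴴ * N = P) (h2 : N * P = N) :
    (1 - N * Nᴴ).PosSemidef := by
  have h3 : (1 - N * Nᴴ) = (1 - N * Nᴴ)ᴴ * (1 - N * Nᴴ) := by
    have h4 : (N * Nᴴ) * (N * Nᴴ) = N * Nᴴ := by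
      calc (N * Nᴴ) * (N * Nᴴ) = N * (Nᴴ * N) * Nᴴ := by simp only [Matrix.mul_assoc]
        _ = N * Nᴴ := by rw [h1, h2]
    have h5 : (1 - N * Nᴴ)ᴴ = 1 - N * Nᴴ := by
      rw [Matrix.conjTranspose_sub, Matrix.conjTranspose_one, Matrix.conjTranspose_mul,
        Matrix.conjTranspose_conjTranspose]
    rw [h5, Matrix.sub_mul, Matrix.mul_sub, Matrix.mul_sub, h4]
    simp
  rw [h3]
  exact Matrix.posSemidef_conjTranspose_mul_self _

theorem J1 {X F Y y a : Matrix ι ι ℂ} (hX : X.IsHermitian) (hF : F.PosSemidef)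
    (hY : Y.PosSemidef) (hYY : Y * Y = X * F * X) (hy : y.IsHermitian) (ha : a.IsHermitian) :
    2 * rtr (X * y * X * (F * a * F)) - rtr (X * X * (F * a * F * a * F)) ≤
      rtr (y * Y * y * Y) := by
  obtain ⟨Z, hZ, hc, hYZY, hZYZ⟩ := exists_pinv hY.isHermitian
  obtain ⟨R, hR⟩ := b1_sqrt hF
  have hFh : Fᴴ = F := hF.isHermitian.eq
  have hXh : Xᴴ = X := hX.eq
  have hah : aᴴ = a := ha.eq
  have hZh : Zᴴ = Z := hZ.eq
  have hYh : Yᴴ = Y := hY.isHermitian.eq
  obtain ⟨P, hP⟩ : ∃ P, P = Y * Z := ⟨_, rfl⟩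
  have hPP : P * P = P := by
    rw [hP]
    calc Y * Z * (Y * Z) = Y * (Z * Y * Z) := by simp only [Matrix.mul_assoc]
      _ = Y * Z := by rw [hZYZ]
  have hPh : Pᴴ = P := by
    rw [hP, Matrix.conjTranspose_mul, hZh, hYh, ← hc]
  -- `F X P = F X`
  have hRX : R * X * P = R * X := by
    have h1 : (R * X * (1 - P))ᴴ * (R * X * (1 - P)) = 0 := by
      have h2 : (R * X * (1 - P))ᴴ * (R * X * (1 - P)) = (1 - P) * (X * (Rᴴ * R) * X) * (1 - P) := by
        rw [Matrix.conjTranspose_mul, Matrix.conjTranspose_mul, Matrix.conjTranspose_sub,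
          Matrix.conjTranspose_one, hPh, hXh]
        simp only [Matrix.mul_assoc]
      rw [h2, ← hR, ← hYY]
      have h3 : Y * (1 - P) = 0 := by
        have h4 : Y * P = Y := by
          rw [hP, hc, ← Matrix.mul_assoc]
          exact hYZY
        rw [Matrix.mul_sub, Matrix.mul_one, h4, sub_self]
      rw [Matrix.mul_assoc (1 - P), Matrix.mul_assoc Y Y, h3, Matrix.mul_zero, Matrix.mul_zero]
    have h5 := eq_zero_of_conj_mul h1
    rw [Matrix.mul_sub, Matrix.mul_one, sub_eq_zero] at h5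
    exact h5.symm
  have hFX : F * X * P = F * X := by
    rw [hR, Matrix.mul_assoc Rᴴ, Matrix.mul_assoc Rᴴ, hRX]
  obtain ⟨M, hM⟩ : ∃ M, M = X * F * a * F * X := ⟨_, rfl⟩
  have hMh : Mᴴ = M := by
    rw [hM]
    simp only [Matrix.conjTranspose_mul, hXh, hFh, hah, Matrix.mul_assoc]
  have hMP : M * P = M := by
    rw [hM]
    calc X * F * a * F * X * P = X * F * a * (F * X * P) := by simp only [Matrix.mul_assoc]
      _ = X * F * a * F * X := by rw [hFX]; simp only [Matrix.mul_assoc]
  have hPM : P * M = M := by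
    have h := congrArg Matrix.conjTranspose hMP
    rwa [Matrix.conjTranspose_mul, hMh, hPh] at h
  obtain ⟨w, hw⟩ : ∃ w, w = Z * M * Z := ⟨_, rfl⟩
  have hwh : wᴴ = w := by
    rw [hw, Matrix.conjTranspose_mul, Matrix.conjTranspose_mul, hMh, hZh, Matrix.mul_assoc]
  have hYwY : Y * w * Y = M := by
    rw [hw]
    calc Y * (Z * M * Z) * Y = (Y * Z) * M * (Z * Y) := by simp only [Matrix.mul_assoc]
      _ = M := by rw [← hc, ← hP, hPM, hMP]
  -- step 1
  have s1 : 0 ≤ rtr ((y - w) * Y * (y - w) * Y) := by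
    have h := hY.mul_mul_conjTranspose_same (y - w)
    have h2 := rtr_mul_nonneg h hY
    rw [Matrix.conjTranspose_sub, hy.eq, hwh] at h2
    exact h2
  have e1 : rtr ((y - w) * Y * (y - w) * Y) =
      rtr (y * Y * y * Y) - 2 * rtr (y * M) + rtr (w * M) := by
    have h1 : rtr (y * Y * w * Y) = rtr (y * M) := by
      rw [← hYwY]
      simp only [Matrix.mul_assoc]
    have h2 : rtr (w * Y * y * Y) = rtr (y * M) := by
      have h3 : w * Y * y * Y = (w * Y) * (y * Y) := by simp only [Matrix.mul_assoc]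
      rw [h3, rtr_mul_comm, ← h1]
      simp only [Matrix.mul_assoc]
    have h4 : rtr (w * Y * w * Y) = rtr (w * M) := by
      rw [← hYwY]
      simp only [Matrix.mul_assoc]
    have h5 : (y - w) * Y * (y - w) * Y =
        y * Y * y * Y - y * Y * w * Y - w * Y * y * Y + w * Y * w * Y := by
      simp only [Matrix.sub_mul, Matrix.mul_sub]
      abel
    rw [h5, rtr_add, rtr_sub, rtr_sub, h1, h2, h4]
    ring
  -- step 2
  have s2 : rtr (w * M) ≤ rtr (M * Z * Z * M) := by
    have h1 := rtr_conjTranspose_mul_self_nonneg (M * Z - Z * M)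
    have h2 : (M * Z - Z * M)ᴴ * (M * Z - Z * M) =
        Z * M * M * Z - Z * M * Z * M - M * Z * M * Z + M * Z * Z * M := by
      rw [Matrix.conjTranspose_sub, Matrix.conjTranspose_mul, Matrix.conjTranspose_mul, hMh, hZh]
      simp only [Matrix.sub_mul, Matrix.mul_sub, Matrix.mul_assoc]
      abel
    have h3 : rtr (Z * M * M * Z) = rtr (M * Z * Z * M) := by
      have h4 : Z * M * M * Z = (Z * M) * (M * Z) := by simp only [Matrix.mul_assoc]
      rw [h4, rtr_mul_comm]
      simp only [Matrix.mul_assoc]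
    have h5 : rtr (M * Z * M * Z) = rtr (Z * M * Z * M) := by
      have h4 : M * Z * M * Z = M * (Z * M * Z) := by simp only [Matrix.mul_assoc]
      rw [h4, rtr_mul_comm]
    rw [h2, rtr_add, rtr_sub, rtr_sub, h3, h5] at h1
    rw [hw]
    linarith
  -- step 3
  have s3 : rtr (M * Z * Z * M) ≤ rtr (X * X * (F * a * F * a * F)) := by
    have hN1 : (R * X * Z)ᴴ * (R * X * Z) = P := by
      rw [Matrix.conjTranspose_mul, Matrix.conjTranspose_mul, hXh, hZh]
      calc Z * (X * Rᴴ) * (R * X * Z) = Z * (X * (Rᴴ * R) * X) * Z := by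
            simp only [Matrix.mul_assoc]
        _ = Z * Y * (Y * Z) := by
            rw [← hR, ← hYY]
            simp only [Matrix.mul_assoc]
        _ = P := by rw [← hc, ← hP, hPP]
    have hN2 : (R * X * Z) * P = R * X * Z := by
      have h1 : Z * P = P * Z := by
        rw [hP, ← Matrix.mul_assoc, ← hc]
      rw [Matrix.mul_assoc (R * X), h1, ← Matrix.mul_assoc, hRX]
    have h1 := psd_one_sub hN1 hN2
    have h2 := h1.conjTranspose_mul_mul_same R
    -- `F - F X Z Z X F ≥ 0`
    have h3 : Rᴴ * (1 - R * X * Z * (R * X * Z)ᴴ) * R = F - F * X * Z * Z * X * F := by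
      rw [Matrix.conjTranspose_mul, Matrix.conjTranspose_mul, hXh, hZh, Matrix.mul_sub,
        Matrix.sub_mul, Matrix.mul_one, ← hR]
      congr 1
      calc Rᴴ * (R * X * Z * (Z * (X * Rᴴ))) * R = (Rᴴ * R) * X * Z * Z * X * (Rᴴ * R) := by
            simp only [Matrix.mul_assoc]
        _ = F * X * Z * Z * X * F := by rw [← hR]
    rw [h3] at h2
    have h4 := h2.mul_mul_conjTranspose_same (X * F * a)
    have h5 := h4.trace_nonneg
    have h6 : 0 ≤ rtr (X * F * a * (F - F * X * Z * Z * X * F) * (X * F * a)ᴴ) :=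
      (Complex.nonneg_iff.mp h5).1
    have h7 : X * F * a * (F - F * X * Z * Z * X * F) * (X * F * a)ᴴ =
        X * (F * a * F * a * F) * X - M * Z * Z * M := by
      rw [Matrix.conjTranspose_mul, Matrix.conjTranspose_mul, hXh, hFh, hah, hM]
      simp only [Matrix.sub_mul, Matrix.mul_sub, Matrix.mul_assoc]
    rw [h7, rtr_sub] at h6
    have h8 : rtr (X * (F * a * F * a * F) * X) = rtr (X * X * (F * a * F * a * F)) := by
      rw [rtr_mul_comm, Matrix.mul_assoc X X]
    linarith
  have e2 : rtr (X * y * X * (F * a * F)) = rtr (y * M) := by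
    have h1 : X * y * X * (F * a * F) = X * (y * X * (F * a * F)) := by
      simp only [Matrix.mul_assoc]
    rw [h1, rtr_mul_comm, hM]
    simp only [Matrix.mul_assoc]
  rw [e2]
  linarith

end Pool.Agent.H54J
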