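import Pool.Agent.Lib.H54J.J9

/-! # The pair inequality with parameters

For every `t ≥ 1` the constants are `(kappa_w, kappa_r) = (t + 1/(4t), 1/4 + 1/(4t))`, and for every
`α` with `1/2 ≤ α^2`, `α^2 ≤ m (2 α - 1/2 - α^2)` the constant in front of the hopping term is `m`
(`m = 49/40` for `α = 7/10`... see `WS_le3`). -/

namespace Pool.Agent.H54J

open Matrix Pool.Agent.H25A Pool.Agent.H16T
open scoped ComplexOrder

variable {ι : Type*} [Fintype ι] [DecidableEq ι] {n : ℕ}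

/-- `tt = tr τ^* F τ F`, `τ = a (2 - F) X - X (2 - F) a = 2 w - z`. -/
noncomputable def tt (X F a : Matrix ι ι ℂ) : ℝ :=
  rtr (((a * X - X * a) + (a * X - X * a) - (a * F * X - X * F * a))ᴴ * F *
    ((a * X - X * a) + (a * X - X * a) - (a * F * X - X * F * a)) * F)

set_option linter.unusedSimpArgs false in
theorem zt_aux {b w z F F' : Matrix ι ι ℂ} (hb : b.IsHermitian) (hw : wᴴ = -w) (hz : zᴴ = -z)
    (hF : F = ((2⁻¹ : ℝ) : ℂ) • (1 + b)) (hF' : F' = ((2⁻¹ : ℝ) : ℂ) • (1 - b)) :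
    -rtr (w * b * z) - rtr (w * z * b) + rtr (w * w) + rtr (w * b * w * b) =
      (rtr ((((2⁻¹ : ℝ) : ℂ) • (w + z))ᴴ * F * (((2⁻¹ : ℝ) : ℂ) • (w + z)) * F) -
      rtr ((((2⁻¹ : ℝ) : ℂ) • (((3 : ℝ) : ℂ) • w - z))ᴴ * F *
        (((2⁻¹ : ℝ) : ℂ) • (((3 : ℝ) : ℂ) • w - z)) * F)) +
      (rtr ((((2⁻¹ : ℝ) : ℂ) • (w - z))ᴴ * F' * (((2⁻¹ : ℝ) : ℂ) • (w - z)) * F') -
      rtr ((((2⁻¹ : ℝ) : ℂ) • (((3 : ℝ) : ℂ) • w + z))ᴴ * F' *
        (((2⁻¹ : ℝ) : ℂ) • (((3 : ℝ) : ℂ) • w + z)) * F')) := by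
  have s1 : rtr (w * (b * w)) = rtr (b * (w * w)) := by
    have h := rtr_mul_comm (w) (b * w)
    simpa only [Matrix.mul_assoc] using h
  have s2 : rtr (w * (b * (w * b))) = rtr (b * (w * (b * w))) := by
    have h := rtr_mul_comm (w) (b * w * b)
    simpa only [Matrix.mul_assoc] using h
  have s3 : rtr (w * (b * z)) = rtr (b * (w * z)) := by
    have h1 := rtr_conjTranspose (w * (b * z))
    simp only [Matrix.conjTranspose_mul, hb.eq, hw, hz, Matrix.mul_assoc, Matrix.neg_mul, Matrix.mul_neg, neg_neg, rtr_neg] at h1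
    have h := rtr_mul_comm (z) (b * w)
    simp only [Matrix.mul_assoc] at h
    linarith
  have s4 : rtr (w * (b * (z * b))) = rtr (b * (w * (b * z))) := by
    have h := rtr_mul_comm (w * b * z) (b)
    simpa only [Matrix.mul_assoc] using h
  have s5 : rtr (w * (w * b)) = rtr (b * (w * w)) := by
    have h := rtr_mul_comm (w * w) (b)
    simpa only [Matrix.mul_assoc] using h
  have s6 : rtr (w * (z * b)) = rtr (b * (w * z)) := by
    have h := rtr_mul_comm (w * z) (b)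
    simpa only [Matrix.mul_assoc] using h
  have s7 : rtr (z * (b * w)) = rtr (b * (w * z)) := by
    have h := rtr_mul_comm (z) (b * w)
    simpa only [Matrix.mul_assoc] using h
  have s8 : rtr (z * (b * (w * b))) = rtr (b * (w * (b * z))) := by
    have h := rtr_mul_comm (z) (b * w * b)
    simpa only [Matrix.mul_assoc] using h
  have s9 : rtr (z * (b * z)) = rtr (b * (z * z)) := by
    have h := rtr_mul_comm (z) (b * z)
    simpa only [Matrix.mul_assoc] using h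
  have s10 : rtr (z * (b * (z * b))) = rtr (b * (z * (b * z))) := by
    have h := rtr_mul_comm (z) (b * z * b)
    simpa only [Matrix.mul_assoc] using h
  have s11 : rtr (z * w) = rtr (w * z) := by
    have h := rtr_mul_comm (z) (w)
    simpa only [Matrix.mul_assoc] using h
  have s12 : rtr (z * (w * b)) = rtr (b * (w * z)) := by
    have h1 := rtr_conjTranspose (z * (w * b))
    simp only [Matrix.conjTranspose_mul, hb.eq, hw, hz, Matrix.mul_assoc, Matrix.neg_mul, Matrix.mul_neg, neg_neg, rtr_neg] at h1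
    linarith
  have s13 : rtr (z * (z * b)) = rtr (b * (z * z)) := by
    have h := rtr_mul_comm (z * z) (b)
    simpa only [Matrix.mul_assoc] using h
  subst hF hF'
  simp only [Matrix.conjTranspose_add, Matrix.conjTranspose_sub, Matrix.conjTranspose_smul, hw, hz,
    Complex.star_def, Complex.conj_ofReal]
  simp only [Matrix.mul_add, Matrix.add_mul, Matrix.mul_sub, Matrix.sub_mul, Matrix.mul_one,
    Matrix.one_mul, Matrix.mul_assoc, Matrix.neg_mul, Matrix.mul_neg, Matrix.smul_mul,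
    Matrix.mul_smul, smul_add, smul_sub, smul_neg, neg_neg, rtr_add, rtr_sub, rtr_neg, rtr_smul,
    sub_neg_eq_add]
  simp only [s1, s2, s3, s4, s5, s6, s7, s8, s9, s10, s11, s12, s13]
  ring

theorem zt_eq {a b X F F' : Matrix ι ι ℂ} (ha : a.IsHermitian) (hb : b.IsHermitian)
    (hX : X.IsHermitian) (hF : F = ((2⁻¹ : ℝ) : ℂ) • (1 + b))
    (hF' : F' = ((2⁻¹ : ℝ) : ℂ) • (1 - b)) :
    -rtr ((a * X - X * a) * b * (a * b * X - X * b * a)) -
        rtr ((a * X - X * a) * (a * b * X - X * b * a) * b) +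
        rtr ((a * X - X * a) * (a * X - X * a)) +
        rtr ((a * X - X * a) * b * (a * X - X * a) * b) =
      (zz X F a - tt X F a) + (zz X F' a - tt X F' a) := by
  have hw : (a * X - X * a)ᴴ = -(a * X - X * a) := by
    rw [Matrix.conjTranspose_sub, Matrix.conjTranspose_mul, Matrix.conjTranspose_mul, ha.eq, hX.eq]
    abel
  have hz : (a * b * X - X * b * a)ᴴ = -(a * b * X - X * b * a) := by
    simp only [Matrix.conjTranspose_sub, Matrix.conjTranspose_mul, ha.eq, hb.eq, hX.eq,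
      Matrix.mul_assoc]
    abel
  have key := zt_aux hb hw hz hF hF'
  have e1 : a * F * X - X * F * a =
      ((2⁻¹ : ℝ) : ℂ) • ((a * X - X * a) + (a * b * X - X * b * a)) := by
    rw [hF]
    simp only [Matrix.mul_smul, Matrix.smul_mul, Matrix.mul_add, Matrix.add_mul, Matrix.mul_one,
      smul_add, smul_sub]
    abel
  have e0 : a * F' * X - X * F' * a =
      ((2⁻¹ : ℝ) : ℂ) • ((a * X - X * a) - (a * b * X - X * b * a)) := by
    rw [hF']
    simp only [Matrix.mul_smul, Matrix.smul_mul, Matrix.mul_sub, Matrix.sub_mul, Matrix.mul_one,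
      smul_sub]
    abel
  have e3 : ∀ w : Matrix ι ι ℂ, w + w = ((2⁻¹ : ℝ) : ℂ) • (((3 : ℝ) : ℂ) • w + w) := by
    intro w
    rw [smul_add, smul_smul, ← add_smul, ← two_smul ℂ w]
    norm_num
  have e2 : (a * X - X * a) + (a * X - X * a) - (a * F * X - X * F * a) =
      ((2⁻¹ : ℝ) : ℂ) • (((3 : ℝ) : ℂ) • (a * X - X * a) - (a * b * X - X * b * a)) := by
    rw [e1, e3 (a * X - X * a), ← smul_sub]
    congr 1
    abel
  have e4 : (a * X - X * a) + (a * X - X * a) - (a * F' * X - X * F' * a) =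
      ((2⁻¹ : ℝ) : ℂ) • (((3 : ℝ) : ℂ) • (a * X - X * a) + (a * b * X - X * b * a)) := by
    rw [e0, e3 (a * X - X * a), ← smul_sub]
    congr 1
    abel
  unfold zz tt
  rw [e2, e4, e1, e0]
  exact key

/-- The polynomial inequality. -/
theorem hf_ineq3 {a b X E E' F F' : Matrix ι ι ℂ} (ha : a.IsHermitian) (hb : b.IsHermitian)
    (hX : X.IsHermitian) (hal : (1 - a * a).PosSemidef) (hbe : (1 - b * b).PosSemidef)
    (hF : F = ((2⁻¹ : ℝ) : ℂ) • (1 + b)) (hF' : F' = ((2⁻¹ : ℝ) : ℂ) • (1 - b))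
    (hE : E = ((2⁻¹ : ℝ) : ℂ) • (1 + a)) (hE' : E' = ((2⁻¹ : ℝ) : ℂ) • (1 - a)) :
    2 * (hf X b a + hf X a b) ≤ xx X (a * b - b * a) + nsq (a * X - X * a) +
      nsq (b * X - X * b) + (1 / 2) * rtr (X * X * ((1 - a * a) + (1 - b * b))) +
      (1 / 2) * ((zz X F a - tt X F a) + (zz X F' a - tt X F' a)) +
      (1 / 2) * ((zz X E b - tt X E b) + (zz X E' b - tt X E' b)) := by
  rw [hf_identity2 ha hb hX]
  have h1 := zt_eq ha hb hX hF hF'
  have h2 := zt_eq hb ha hX hE hE'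
  have hw : ∀ {c : Matrix ι ι ℂ}, c.IsHermitian → (c * X - X * c)ᴴ = -(c * X - X * c) := by
    intro c hc
    rw [Matrix.conjTranspose_sub, Matrix.conjTranspose_mul, Matrix.conjTranspose_mul, hc.eq, hX.eq]
    abel
  have h3 : rtr ((1 - b * b) * (a * X - X * a) * (a * X - X * a)) ≤ 0 := by
    have h4 := rtr_mul_nonneg hbe (Matrix.posSemidef_conjTranspose_mul_self (a * X - X * a))
    rw [hw ha, Matrix.neg_mul, Matrix.mul_neg, rtr_neg, ← Matrix.mul_assoc] at h4
    linarith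
  have h5 : rtr ((1 - a * a) * (b * X - X * b) * (b * X - X * b)) ≤ 0 := by
    have h4 := rtr_mul_nonneg hal (Matrix.posSemidef_conjTranspose_mul_self (b * X - X * b))
    rw [hw hb, Matrix.neg_mul, Matrix.mul_neg, rtr_neg, ← Matrix.mul_assoc] at h4
    linarith
  have h6 : 0 ≤ rtr ((1 - a * a) * X * (1 - b * b) * X) := by
    have h7 := rtr_mul_nonneg hal (hbe.mul_mul_conjTranspose_same X)
    rw [hX.eq] at h7
    have h8 : (1 - a * a) * X * (1 - b * b) * X = (1 - a * a) * (X * (1 - b * b) * X) := by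
      simp only [Matrix.mul_assoc]
    rw [h8]
    exact h7
  linarith

theorem nsq_combo (u v : Matrix ι ι ℂ) (s : ℝ) :
    nsq (u + (s : ℂ) • v) = nsq u + 2 * s * rtr (uᴴ * v) + s ^ 2 * nsq v := by
  unfold nsq
  rw [Matrix.conjTranspose_add, Matrix.conjTranspose_smul, Complex.star_def, Complex.conj_ofReal]
  simp only [Matrix.add_mul, Matrix.mul_add, Matrix.smul_mul, Matrix.mul_smul, smul_add, rtr_add,
    rtr_smul]
  have h : rtr (vᴴ * u) = rtr (uᴴ * v) := by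
    rw [← rtr_conjTranspose (uᴴ * v), Matrix.conjTranspose_mul, Matrix.conjTranspose_conjTranspose]
  rw [h]
  ring

/-- Conjugation by `R`. -/
theorem nsq_conj {R F W : Matrix ι ι ℂ} (hR : Rᴴ = R) (hRR : R * R = F) :
    nsq (R * W * R) = rtr (Wᴴ * F * W * F) := by
  unfold nsq
  rw [Matrix.conjTranspose_mul, Matrix.conjTranspose_mul, hR]
  have h3 : R * (Wᴴ * R) * (R * W * R) = R * (Wᴴ * (R * R) * W * R) := by
    simp only [Matrix.mul_assoc]
  rw [h3, rtr_mul_comm R, hRR]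
  have h4 : Wᴴ * F * W * R * R = Wᴴ * F * W * F := by
    rw [Matrix.mul_assoc _ R R, hRR]
  rw [h4]

/-- Gain of one outcome, with the parameter `t`. -/
theorem gain_outcome3 {X F R a S : Matrix ι ι ℂ} (hX : X.PosSemidef) (hR : R.PosSemidef)
    (hRR : R * R = F) (hF1 : (1 - F).PosSemidef) (ha : a.IsHermitian)
    (ha1 : (1 - a * a).PosSemidef) (hS : S.PosSemidef) (hSS : S * S = R * X * X * R)
    (t : ℝ) (ht : 0 < t) :
    (1 / 2) * (zz X F a - tt X F a) - nsq (R * a * R * S - S * (R * a * R)) ≤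
      (2 / t) * rtr ((S - R * X * R) * (S - R * X * R)) +
        (t - 1) * rtr ((a * X - X * a)ᴴ * F * (a * X - X * a) * F) := by
  have hRh : Rᴴ = R := hR.isHermitian.eq
  have hXh : Xᴴ = X := hX.isHermitian.eq
  obtain ⟨D, hD⟩ : ∃ D, D = R * X * R := ⟨_, rfl⟩
  obtain ⟨p, hp⟩ : ∃ p, p = R * a * R := ⟨_, rfl⟩
  obtain ⟨e, he⟩ : ∃ e, e = S - D := ⟨_, rfl⟩
  have hDp : D.PosSemidef := by
    have h := hX.mul_mul_conjTranspose_same R
    rw [hRh] at h
    rw [hD]
    exact h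
  have hph : p.IsHermitian := by
    unfold Matrix.IsHermitian
    rw [hp, Matrix.conjTranspose_mul, Matrix.conjTranspose_mul, hRh, ha.eq, Matrix.mul_assoc]
  have hep : e.PosSemidef := by
    rw [he]
    refine sqrt_mono hS hDp ?_
    have h := hF1.mul_mul_conjTranspose_same (R * X)
    have h2 : R * X * (1 - F) * (R * X)ᴴ = S * S - D * D := by
      rw [Matrix.conjTranspose_mul, hRh, hXh, hSS, hD, ← hRR]
      simp only [Matrix.mul_sub, Matrix.sub_mul, Matrix.mul_one, Matrix.mul_assoc]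
    rw [h2] at h
    exact h
  -- `zz = |al|^2`, `tt = |al - 2 om|^2`
  obtain ⟨al, hal⟩ : ∃ al, al = R * (a * F * X - X * F * a) * R := ⟨_, rfl⟩
  obtain ⟨om, hom⟩ : ∃ om, om = R * (a * X - X * a) * R := ⟨_, rfl⟩
  have z1 : zz X F a = nsq al := by
    rw [hal, nsq_conj hRh hRR]
    rfl
  have z2 : tt X F a = nsq (al + ((-2 : ℝ) : ℂ) • om) := by
    have h : al + ((-2 : ℝ) : ℂ) • om = ((-1 : ℝ) : ℂ) •
        (R * ((a * X - X * a) + (a * X - X * a) - (a * F * X - X * F * a)) * R) := by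
      have h2 : ((-2 : ℝ) : ℂ) • om = -(om + om) := by
        rw [← two_smul ℂ om, ← neg_smul]
        norm_num
      rw [h2, hal, hom]
      simp only [Matrix.mul_sub, Matrix.sub_mul, Matrix.mul_add, Matrix.add_mul]
      have h3 : ∀ A : Matrix ι ι ℂ, ((-1 : ℝ) : ℂ) • A = -A := by
        intro A
        simp
      rw [h3]
      abel
    have h4 : ∀ A : Matrix ι ι ℂ, ((-1 : ℝ) : ℂ) • A = (-1 : ℝ) • A := by
      intro A
      ext i j
      simp [Matrix.smul_apply]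
    rw [h, h4, nsq_smul, nsq_conj hRh hRR]
    unfold tt
    norm_num
  have z3 : rtr ((a * X - X * a)ᴴ * F * (a * X - X * a) * F) = nsq om := by
    rw [hom, nsq_conj hRh hRR]
  obtain ⟨sg, hsg⟩ : ∃ sg, sg = p * S - S * p := ⟨_, rfl⟩
  obtain ⟨ep, hepd⟩ : ∃ ep, ep = p * e - e * p := ⟨_, rfl⟩
  have h2 : al = sg - ep := by
    have h3 : al = p * D - D * p := by
      rw [hal, hp, hD, ← hRR]
      simp only [Matrix.mul_sub, Matrix.sub_mul, Matrix.mul_assoc]
    rw [h3, hsg, hepd, he]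
    simp only [Matrix.mul_sub, Matrix.sub_mul]
    abel
  have k1 := nsq_combo al om (-2)
  have k2 := nsq_combo sg om (-1)
  have k3 := nsq_combo ep om t
  have k2' : 0 ≤ nsq (sg + ((-1 : ℝ) : ℂ) • om) := rtr_conjTranspose_mul_self_nonneg _
  have k3' : 0 ≤ nsq (ep + (t : ℂ) • om) := rtr_conjTranspose_mul_self_nonneg _
  have k4 : rtr (alᴴ * om) = rtr (sgᴴ * om) - rtr (epᴴ * om) := by
    rw [h2, Matrix.conjTranspose_sub, Matrix.sub_mul, rtr_sub]
  have h4 := nsq_comm_eq hph hep.isHermitian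
  have h5 : 0 ≤ rtr (p * e * p * e) := by
    have h6 := hep.mul_mul_conjTranspose_same p
    rw [hph.eq] at h6
    exact rtr_mul_nonneg h6 hep
  have h6 : (1 - p * p).PosSemidef := by
    have h7 : (1 - p * p) = (1 - F) + (R * (1 - a * a) * R + R * a * (1 - F) * (R * a)ᴴ) := by
      rw [Matrix.conjTranspose_mul, hRh, ha.eq, hp]
      have h8 : R * a * R * (R * a * R) = R * a * F * a * R := by
        rw [← hRR]
        simp only [Matrix.mul_assoc]
      have h9 : R * (1 - a * a) * R = F - R * a * a * R := by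
        rw [← hRR]
        simp only [Matrix.mul_sub, Matrix.sub_mul, Matrix.mul_one, Matrix.mul_assoc]
      have h10 : R * a * (1 - F) * (a * R) = R * a * a * R - R * a * F * a * R := by
        simp only [Matrix.mul_sub, Matrix.sub_mul, Matrix.mul_one, Matrix.mul_assoc]
      rw [h8, h9, h10]
      abel
    rw [h7]
    have h8 := ha1.mul_mul_conjTranspose_same R
    rw [hRh] at h8
    exact hF1.add (h8.add (hF1.mul_mul_conjTranspose_same (R * a)))
  have h7 : 0 ≤ rtr ((1 - p * p) * (e * e)) := by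
    have h8 : (e * e).PosSemidef := by
      have h9 := Matrix.posSemidef_conjTranspose_mul_self e
      rwa [hep.isHermitian.eq] at h9
    exact rtr_mul_nonneg h6 h8
  rw [Matrix.sub_mul, Matrix.one_mul, rtr_sub] at h7
  rw [← hepd] at h4
  rw [z1, z2, z3, ← hp, ← hsg, ← hD, ← he]
  have hep2 : nsq ep ≤ 2 * rtr (e * e) := by linarith
  have hdiv : nsq ep / t ≤ (2 / t) * rtr (e * e) := by
    rw [div_mul_eq_mul_div]
    exact div_le_div_of_nonneg_right hep2 ht.le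
  have h9 : -(2 * rtr (epᴴ * om)) ≤ nsq ep / t + t * nsq om := by
    have h10 : nsq ep / t + t * nsq om + 2 * rtr (epᴴ * om) =
        (nsq ep + 2 * t * rtr (epᴴ * om) + t ^ 2 * nsq om) / t := by
      field_simp
      ring
    have h11 : 0 ≤ (nsq ep + 2 * t * rtr (epᴴ * om) + t ^ 2 * nsq om) / t := by
      rw [← k3]
      exact div_nonneg k3' ht.le
    linarith
  rw [k2] at k2'
  rw [k1, k4]
  linarith

theorem ww_sum {X F a : Matrix ι ι ℂ} (h0 : F.PosSemidef) (h1 : (1 - F).PosSemidef) :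
    rtr ((a * X - X * a)ᴴ * F * (a * X - X * a) * F) +
      rtr ((a * X - X * a)ᴴ * (1 - F) * (a * X - X * a) * (1 - F)) ≤ nsq (a * X - X * a) := by
  obtain ⟨w, hw⟩ : ∃ w, w = a * X - X * a := ⟨_, rfl⟩
  rw [← hw]
  have k1 := rtr_mul_nonneg (h0.conjTranspose_mul_mul_same w) h1
  have k2 := rtr_mul_nonneg (h1.conjTranspose_mul_mul_same w) h0
  unfold nsq
  simp only [Matrix.mul_sub, Matrix.sub_mul, Matrix.mul_one, rtr_sub] at k1 k2 ⊢
  linarith

/-- The one-effect test inequality with gain. -/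
theorem test_gain3 {X S F a : Matrix ι ι ℂ} (hS : S.PosDef) (hX : S * S = X)
    (h0 : F.PosSemidef) (h1 : (1 - F).PosSemidef) (ha : a.IsHermitian)
    (ha1 : (1 - a * a).PosSemidef) {N : Matrix ι ι ℂ × Matrix ι ι ℂ}
    (hN : CanInst X S F N) (hI : IsInst X N) :
    ∃ g : ℝ, (∀ t : ℝ, 1 ≤ t →
        (1 / 2) * ((zz X F a - tt X F a) + (zz X (1 - F) a - tt X (1 - F) a)) - g ≤
        (2 / t) * (rtr (X * X * F) - rtr (X * F * X * F)) + (t - 1) * nsq (a * X - X * a)) ∧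
      ∀ (y c : Matrix ι ι ℂ) (t : ℝ) (z : HM ι), y.IsHermitian →
        c = ((2⁻¹ : ℝ) : ℂ) • a → z.val = S * y * S + (t : ℂ) • X →
        inner ℝ z (bB N hI.1 hI.2.1 z) ≤
          rtr (X * y * X * y) - 2 * rtr (X * y * X * (F * c * F + (1 - F) * c * (1 - F))) +
            rtr (X * X * (F * c * F * c * F + (1 - F) * c * (1 - F) * c * (1 - F))) -
            (1 / 8) * g := by
  have hXp : X.PosDef := by
    rw [← hX]
    have hdet : IsUnit S.det := (Matrix.isUnit_iff_isUnit_det S).1 hS.isUnit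
    have h1 : (S * S).PosSemidef := by
      have := Matrix.posSemidef_conjTranspose_mul_self S
      rwa [hS.isHermitian.eq] at this
    rw [h1.posDef_iff_isUnit, Matrix.isUnit_iff_isUnit_det, Matrix.det_mul]
    exact hdet.mul hdet
  have hXh : X.IsHermitian := hXp.isHermitian
  obtain ⟨Y1, Y0, hY1, hY0, e1, e0, rfl⟩ := hN
  obtain ⟨R1, hR1, hRR1, -⟩ := exists_sqrt h0
  obtain ⟨R0, hR0, hRR0, -⟩ := exists_sqrt h1
  obtain ⟨S1, hS1, hSS1, hB1, t1⟩ := polar_data hXh hR1 hRR1 hY1 e1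
  obtain ⟨S0, hS0, hSS0, hB0, t0⟩ := polar_data hXh hR0 hRR0 hY0 e0
  have hF1' : (1 - (1 - F)).PosSemidef := by
    rw [sub_sub_cancel]
    exact h0
  refine ⟨nsq (R1 * a * R1 * S1 - S1 * (R1 * a * R1)) +
    nsq (R0 * a * R0 * S0 - S0 * (R0 * a * R0)), ?_, ?_⟩
  · intro t ht
    have htp : 0 < t := by linarith
    have g1 := gain_outcome3 hXp.posSemidef hR1 hRR1 h1 ha ha1 hS1 hSS1 t htp
    have g0 := gain_outcome3 hXp.posSemidef hR0 hRR0 hF1' ha ha1 hS0 hSS0 t htp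
    have gw := ww_sum (X := X) (a := a) h0 h1
    have u1 := e_outcome hXp.posSemidef hR1 hRR1 hY1 hSS1 hB1
    have u0 := e_outcome hXp.posSemidef hR0 hRR0 hY0 hSS0 hB0
    -- `dist_F(F) ≥ 0`
    have hSFS : (S * F * S).IsHermitian := by
      unfold Matrix.IsHermitian
      rw [Matrix.conjTranspose_mul, Matrix.conjTranspose_mul, h0.isHermitian.eq,
        hS.isHermitian.eq, Matrix.mul_assoc]
    have v1 := theta_le hXp hI hSFS
    rw [rtr_theta_conj hS, rtr_conj_sq hX F F] at v1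
    have sw : ∀ A B : Matrix ι ι ℂ, rtr (A * B * A * B) = rtr (B * A * B * A) := by
      intro A B
      have h2 : A * B * A * B = A * (B * A * B) := by simp only [Matrix.mul_assoc]
      rw [h2, rtr_mul_comm]
    rw [sw F Y1, sw F Y0] at v1
    -- expansions for `1 - F`
    have w0 : rtr (Y0 * (1 - F) * Y0 * (1 - F)) =
        rtr (X * X * (1 - F)) - 2 * rtr (X * (1 - F) * X * F) + rtr (Y0 * F * Y0 * F) := by
      have h2 : Y0 * (1 - F) * Y0 * (1 - F) =
          Y0 * Y0 - Y0 * Y0 * F - Y0 * F * Y0 + Y0 * F * Y0 * F := by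
        simp only [Matrix.mul_sub, Matrix.sub_mul, Matrix.mul_one]
        abel
      have h3 : rtr (Y0 * F * Y0) = rtr (Y0 * Y0 * F) := by
        rw [Matrix.mul_assoc, rtr_mul_comm, Matrix.mul_assoc, rtr_mul_comm]
      have h4 : rtr (X * (1 - F) * X) = rtr (X * X * (1 - F)) := by
        rw [Matrix.mul_assoc, rtr_mul_comm, Matrix.mul_assoc, rtr_mul_comm]
      rw [h2, rtr_add, rtr_sub, rtr_sub, h3, e0, h4]
      ring
    have w1 : rtr (X * (1 - F) * X * F) = rtr (X * X * F) - rtr (X * F * X * F) := by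
      rw [← rtr_sub]
      congr 1
      simp only [Matrix.mul_sub, Matrix.sub_mul, Matrix.mul_one]
    have w2 : rtr (X * X * (1 - F)) = rtr (X * X) - rtr (X * X * F) := by
      rw [← rtr_sub, Matrix.mul_sub, Matrix.mul_one]
    have w3 : rtr (X * (1 - F) * X * (1 - F)) =
        rtr (X * X) - 2 * rtr (X * X * F) + rtr (X * F * X * F) := by
      have h2 : X * (1 - F) * X * (1 - F) = X * X - X * X * F - X * F * X + X * F * X * F := by
        simp only [Matrix.mul_sub, Matrix.sub_mul, Matrix.mul_one]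
        abel
      have h3 : rtr (X * F * X) = rtr (X * X * F) := by
        rw [Matrix.mul_assoc, rtr_mul_comm, Matrix.mul_assoc, rtr_mul_comm]
      rw [h2, rtr_add, rtr_sub, rtr_sub, h3]
      ring
    have hsum : rtr ((S1 - R1 * X * R1) * (S1 - R1 * X * R1)) +
        rtr ((S0 - R0 * X * R0) * (S0 - R0 * X * R0)) ≤
        rtr (X * X * F) - rtr (X * F * X * F) := by linarith
    have hsum2 := mul_le_mul_of_nonneg_left hsum (by positivity : (0 : ℝ) ≤ 2 / t)
    have hsum3 := mul_le_mul_of_nonneg_left gw (by linarith : (0 : ℝ) ≤ t - 1)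
    linarith
  · intro y c t z hy hc hz
    have hch : c.IsHermitian := by
      unfold Matrix.IsHermitian
      rw [hc, Matrix.conjTranspose_smul, ha.eq, Complex.star_def, Complex.conj_ofReal]
    have hNS : ∀ (R T : Matrix ι ι ℂ), nsq (R * c * R * T - T * (R * c * R)) =
        (1 / 4) * nsq (R * a * R * T - T * (R * a * R)) := by
      intro R T
      have h2 : R * c * R * T - T * (R * c * R) =
          (2⁻¹ : ℝ) • (R * a * R * T - T * (R * a * R)) := by
        have h3 : ∀ A : Matrix ι ι ℂ, (2⁻¹ : ℝ) • A = ((2⁻¹ : ℝ) : ℂ) • A := by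
          intro A
          ext i j
          simp [Matrix.smul_apply]
        rw [hc, h3]
        simp only [Matrix.mul_smul, Matrix.smul_mul, smul_sub]
      rw [h2, nsq_smul]
      norm_num
    have k1 := t1 y c hy hch
    have k0 := t0 y c hy hch
    rw [hNS] at k1 k0
    set N := (S⁻¹ * Y1 * S⁻¹, S⁻¹ * Y0 * S⁻¹) with hN
    have hB : (bB N hI.1 hI.2.1 z).val = S * y * S - theta N (S * y * S) := by
      rw [bB_val, hz, theta_add, theta_smul, hI.2.2]
      abel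
    have hXz : rtr (X * (S * y * S - theta N (S * y * S))) = 0 := by
      rw [Matrix.mul_sub, rtr_sub, ← theta_symm, hI.2.2, sub_self]
    have h2 : inner ℝ z (bB N hI.1 hI.2.1 z) =
        rtr (S * y * S * (S * y * S)) - rtr (S * y * S * theta N (S * y * S)) := by
      rw [HM.inner_eq, hB, hz, Matrix.add_mul, rtr_add, Matrix.smul_mul, rtr_smul, hXz, mul_zero,
        add_zero, Matrix.mul_sub, rtr_sub]
    have h4 := rtr_theta_conj (Y1 := Y1) (Y0 := Y0) (y := y) hS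
    rw [← hN] at h4
    rw [h2, rtr_conj_sq hX y y, h4, Matrix.mul_add, Matrix.mul_add, rtr_add, rtr_add]
    linarith

/-- Abstract form of the alpha trick: from two test inequalities with gains `g1`, `g2`. -/
theorem pair_core3 {X S E F : Matrix ι ι ℂ} (hS : S.PosDef) (hX : S * S = X)
    (hE0 : E.PosSemidef) (hF0 : F.PosSemidef)
    {N M : Matrix ι ι ℂ × Matrix ι ι ℂ}
    (hIN : IsInst X N) (hIM : IsInst X M) (G H s : HM ι)
    (hG : G.val = S * E * S) (hH : H.val = S * F * S)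
    (hs : s = (2 : ℝ)⁻¹ • (bB N hIN.1 hIN.2.1 H + bB M hIM.1 hIM.2.1 G))
    (c1 c2 : ℝ) (α m : ℝ) (hα0 : 0 < α) (hα1 : 1 / 2 ≤ α ^ 2) (hm : 0 < m)
    (hαm : α ^ 2 ≤ m * (2 * α - 1 / 2 - α ^ 2))
    (d1' : ∀ (σ : Matrix ι ι ℂ) (z : HM ι) (α : ℝ), σ.IsHermitian →
      z.val = S * E * S + (α : ℂ) • (S * σ * S) → inner ℝ z (bB M hIM.1 hIM.2.1 z) ≤ c1 +
        (α / 2) * rtr (X * σ * X * ((E + E - 1) - (F + F - 1) * (E + E - 1) * (F + F - 1))) +
        α ^ 2 * rtr (X * σ * X * σ))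
    (d2' : ∀ (σ : Matrix ι ι ℂ) (z : HM ι) (α : ℝ), σ.IsHermitian →
      z.val = S * F * S + (α : ℂ) • (S * σ * S) → inner ℝ z (bB N hIN.1 hIN.2.1 z) ≤ c2 +
        (α / 2) * rtr (X * σ * X * ((F + F - 1) - (E + E - 1) * (F + F - 1) * (E + E - 1))) +
        α ^ 2 * rtr (X * σ * X * σ)) :
    (1 / 2) * (inner ℝ G (bB M hIM.1 hIM.2.1 G) + inner ℝ H (bB N hIN.1 hIN.2.1 H)) +
      (1 / 2) * inner ℝ s s +
      (1 / 4) * (inner ℝ s (bB N hIN.1 hIN.2.1 s) + inner ℝ s (bB M hIM.1 hIM.2.1 s)) ≤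
    (1 / 2) * (c1 + c2) + (m / 64) * xx X (u8 (E + E - 1) (F + F - 1)) := by
  have hXp : X.PosDef := by
    rw [← hX]
    have hdet : IsUnit S.det := (Matrix.isUnit_iff_isUnit_det S).1 hS.isUnit
    have h1 : (S * S).PosSemidef := by
      have := Matrix.posSemidef_conjTranspose_mul_self S
      rwa [hS.isHermitian.eq] at this
    rw [h1.posDef_iff_isUnit, Matrix.isUnit_iff_isUnit_det, Matrix.det_mul]
    exact hdet.mul hdet
  have hXh : X.IsHermitian := hXp.isHermitian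
  have hdet : IsUnit S.det := (Matrix.isUnit_iff_isUnit_det S).1 hS.isUnit
  have hS1 : S⁻¹ * S = 1 := Matrix.nonsing_inv_mul S hdet
  have hS2 : S * S⁻¹ = 1 := Matrix.mul_nonsing_inv S hdet
  have hSh : (S⁻¹)ᴴ = S⁻¹ := by
    rw [Matrix.conjTranspose_nonsing_inv, hS.isHermitian.eq]
  obtain ⟨σ, hσ⟩ : ∃ σ, σ = S⁻¹ * s.val * S⁻¹ := ⟨_, rfl⟩
  have hσh : σ.IsHermitian := by
    unfold Matrix.IsHermitian
    rw [hσ, Matrix.conjTranspose_mul, Matrix.conjTranspose_mul, hSh, s.herm.eq, Matrix.mul_assoc]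
  have hsσ : s.val = S * σ * S := by
    rw [hσ]
    calc s.val = (S * S⁻¹) * s.val * (S⁻¹ * S) := by rw [hS1, hS2, Matrix.one_mul, Matrix.mul_one]
      _ = S * (S⁻¹ * s.val * S⁻¹) * S := by simp only [Matrix.mul_assoc]
  have d1 := d1' σ (G + α • s) α hσh (by rw [HM.val_add, HM.val_smul, hG, hsσ])
  have d2 := d2' σ (H + α • s) α hσh (by rw [HM.val_add, HM.val_smul, hH, hsσ])
  have symN : ∀ x y : HM ι, inner ℝ (bB N hIN.1 hIN.2.1 x) y =
      inner ℝ x (bB N hIN.1 hIN.2.1 y) := by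
    intro x y
    simp only [HM.inner_eq, bB_val, Matrix.sub_mul, Matrix.mul_sub, rtr_sub, theta_symm]
  have symM : ∀ x y : HM ι, inner ℝ (bB M hIM.1 hIM.2.1 x) y =
      inner ℝ x (bB M hIM.1 hIM.2.1 y) := by
    intro x y
    simp only [HM.inner_eq, bB_val, Matrix.sub_mul, Matrix.mul_sub, rtr_sub, theta_symm]
  have posN : 0 ≤ inner ℝ s (bB N hIN.1 hIN.2.1 s) := by
    simp only [HM.inner_eq, bB_val, Matrix.mul_sub, rtr_sub]
    have := theta_le hXp hIN s.herm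
    linarith
  have posM : 0 ≤ inner ℝ s (bB M hIM.1 hIM.2.1 s) := by
    simp only [HM.inner_eq, bB_val, Matrix.mul_sub, rtr_sub]
    have := theta_le hXp hIM s.herm
    linarith
  have hss : inner ℝ s (bB N hIN.1 hIN.2.1 H) + inner ℝ s (bB M hIM.1 hIM.2.1 G) =
      2 * inner ℝ s s := by
    have h1 : bB N hIN.1 hIN.2.1 H + bB M hIM.1 hIM.2.1 G = (2 : ℝ) • s := by
      rw [hs, smul_smul]
      norm_num
    rw [← inner_add_right, h1, inner_smul_right]
  have q1 : inner ℝ (G + α • s) (bB M hIM.1 hIM.2.1 (G + α • s)) =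
      inner ℝ G (bB M hIM.1 hIM.2.1 G) + 2 * α * inner ℝ s (bB M hIM.1 hIM.2.1 G) +
        α ^ 2 * inner ℝ s (bB M hIM.1 hIM.2.1 s) := by
    have h1 : inner ℝ G (bB M hIM.1 hIM.2.1 s) = inner ℝ s (bB M hIM.1 hIM.2.1 G) := by
      rw [← symM, real_inner_comm]
    rw [map_add, map_smul, inner_add_left, inner_add_right, inner_add_right, inner_smul_left,
      inner_smul_left, inner_smul_right, inner_smul_right, h1]
    simp only [conj_trivial]
    ring
  have q2 : inner ℝ (H + α • s) (bB N hIN.1 hIN.2.1 (H + α • s)) =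
      inner ℝ H (bB N hIN.1 hIN.2.1 H) + 2 * α * inner ℝ s (bB N hIN.1 hIN.2.1 H) +
        α ^ 2 * inner ℝ s (bB N hIN.1 hIN.2.1 s) := by
    have h1 : inner ℝ H (bB N hIN.1 hIN.2.1 s) = inner ℝ s (bB N hIN.1 hIN.2.1 H) := by
      rw [← symN, real_inner_comm]
    rw [map_add, map_smul, inner_add_left, inner_add_right, inner_add_right, inner_smul_left,
      inner_smul_left, inner_smul_right, inner_smul_right, h1]
    simp only [conj_trivial]
    ring
  rw [q1] at d1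
  rw [q2] at d2
  obtain ⟨a, ha'⟩ : ∃ a, a = E + E - 1 := ⟨_, rfl⟩
  obtain ⟨b, hb'⟩ : ∃ b, b = F + F - 1 := ⟨_, rfl⟩
  have ha : a.IsHermitian := by
    rw [ha']
    exact (hE0.isHermitian.add hE0.isHermitian).sub Matrix.isHermitian_one
  have hb : b.IsHermitian := by
    rw [hb']
    exact (hF0.isHermitian.add hF0.isHermitian).sub Matrix.isHermitian_one
  have hsn : inner ℝ s s = rtr (X * σ * X * σ) := by
    rw [HM.inner_eq, hsσ]
    exact rtr_conj_sq hX σ σ
  have hU : (u8 a b).IsHermitian := by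
    unfold u8 Matrix.IsHermitian
    simp only [Matrix.conjTranspose_sub, Matrix.conjTranspose_add, Matrix.conjTranspose_mul,
      ha.eq, hb.eq, Matrix.mul_assoc]
  have h6 := psd_xx hXp.posSemidef hσh hU (m / (8 * α))
  have h7 : rtr (X * σ * X * (a - b * a * b)) + rtr (X * σ * X * (b - a * b * a)) =
      rtr (X * σ * X * u8 a b) := by
    rw [← rtr_add, ← Matrix.mul_add]
    congr 2
    unfold u8
    abel
  rw [← ha', ← hb'] at d1 d2
  rw [← ha', ← hb']
  have h8 : 0 ≤ inner ℝ s s := real_inner_self_nonneg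
  -- scaled arithmetic-geometric mean
  have h9 : 0 ≤ (α ^ 2 / m) * rtr (X * σ * X * σ) - (α / 4) * rtr (X * σ * X * u8 a b) +
      (m / 64) * xx X (u8 a b) := by
    have h10 := mul_nonneg (by positivity : (0 : ℝ) ≤ α ^ 2 / m) h6
    have h11 : (α ^ 2 / m) * (rtr (X * σ * X * σ) - 2 * (m / (8 * α)) * rtr (X * σ * X * u8 a b) +
        (m / (8 * α)) ^ 2 * xx X (u8 a b)) = (α ^ 2 / m) * rtr (X * σ * X * σ) -
        (α / 4) * rtr (X * σ * X * u8 a b) + (m / 64) * xx X (u8 a b) := by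
      field_simp
      ring
    linarith
  have h12 : (α ^ 2 / m) * rtr (X * σ * X * σ) ≤
      (2 * α - 1 / 2 - α ^ 2) * rtr (X * σ * X * σ) := by
    refine mul_le_mul_of_nonneg_right ?_ (by rw [← hsn]; exact h8)
    rw [div_le_iff₀ hm]
    linarith
  have h13 : (1 / 4 : ℝ) * (inner ℝ s (bB N hIN.1 hIN.2.1 s) + inner ℝ s (bB M hIM.1 hIM.2.1 s)) ≤
      (α ^ 2 / 2) * (inner ℝ s (bB N hIN.1 hIN.2.1 s) + inner ℝ s (bB M hIM.1 hIM.2.1 s)) :=
    mul_le_mul_of_nonneg_right (by linarith) (by linarith)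
  have h14 : α * (inner ℝ s (bB N hIN.1 hIN.2.1 H) + inner ℝ s (bB M hIM.1 hIM.2.1 G)) =
      α * (2 * inner ℝ s s) := by rw [hss]
  rw [hsn] at h14 ⊢
  have h15 : (α / 4) * (rtr (X * σ * X * (a - b * a * b)) + rtr (X * σ * X * (b - a * b * a))) =
      (α / 4) * rtr (X * σ * X * u8 a b) := by rw [h7]
  linarith [d1, d2, h9, h12, h13, h14, h15]

/-- One direction with gain. -/
theorem one_dir3 {X S E F : Matrix ι ι ℂ} (hS : S.PosDef) (hX : S * S = X)
    (hE0 : E.PosSemidef) (hE1 : (1 - E).PosSemidef) (h0 : F.PosSemidef)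
    (h1 : (1 - F).PosSemidef) {N : Matrix ι ι ℂ × Matrix ι ι ℂ} (hN : CanInst X S F N)
    (hI : IsInst X N) :
    ∃ g : ℝ, (∀ t : ℝ, 1 ≤ t → (1 / 2) * ((zz X F (E + E - 1) - tt X F (E + E - 1)) +
        (zz X (1 - F) (E + E - 1) - tt X (1 - F) (E + E - 1))) - g ≤
        (2 / t) * (rtr (X * X * F) - rtr (X * F * X * F)) +
          (t - 1) * nsq ((E + E - 1) * X - X * (E + E - 1))) ∧
      ∀ (σ : Matrix ι ι ℂ) (z : HM ι) (α : ℝ), σ.IsHermitian →
      z.val = S * E * S + (α : ℂ) • (S * σ * S) → inner ℝ z (bB N hI.1 hI.2.1 z) ≤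
        ((1 / 4) * hf X (F + F - 1) (E + E - 1) - (1 / 8) * g) +
        (α / 2) * rtr (X * σ * X * ((E + E - 1) - (F + F - 1) * (E + E - 1) * (F + F - 1))) +
        α ^ 2 * rtr (X * σ * X * σ) := by
  have hXh : X.IsHermitian := by
    rw [← hX]
    unfold Matrix.IsHermitian
    rw [Matrix.conjTranspose_mul, hS.isHermitian.eq]
  have ha : (E + E - 1 : Matrix ι ι ℂ).IsHermitian :=
    (hE0.isHermitian.add hE0.isHermitian).sub Matrix.isHermitian_one
  have hb : (F + F - 1 : Matrix ι ι ℂ).IsHermitian :=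
    (h0.isHermitian.add h0.isHermitian).sub Matrix.isHermitian_one
  have hr : ∀ (r : ℝ) {A : Matrix ι ι ℂ}, A.IsHermitian → ((r : ℂ) • A).IsHermitian := by
    intro r A hA
    unfold Matrix.IsHermitian
    rw [Matrix.conjTranspose_smul, hA.eq, Complex.star_def, Complex.conj_ofReal]
  have hF : F = ((2⁻¹ : ℝ) : ℂ) • (1 + (F + F - 1)) := by
    rw [add_sub_cancel, half_add]
  have hF' : 1 - F = ((2⁻¹ : ℝ) : ℂ) • (1 - (F + F - 1)) := by
    have h3 : (1 : Matrix ι ι ℂ) - (F + F - 1) = (1 - F) + (1 - F) := by abel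
    rw [h3, half_add]
  obtain ⟨g, hg, ht⟩ := test_gain3 hS hX h0 h1 ha (effect_psd hE0 hE1) hN hI
  refine ⟨g, hg, ?_⟩
  intro σ z α hσ hz
  have key := test_poly ha hb hσ hXh α hF hF' (y := ((2⁻¹ : ℝ) : ℂ) • (E + E - 1) + (α : ℂ) • σ)
    (c := ((2⁻¹ : ℝ) : ℂ) • (E + E - 1)) rfl rfl
  have h5 := ht (((2⁻¹ : ℝ) : ℂ) • (E + E - 1) + (α : ℂ) • σ) (((2⁻¹ : ℝ) : ℂ) • (E + E - 1))
    (2⁻¹ : ℝ) z ((hr _ ha).add (hr _ hσ)) rfl (by
      have h4 : ((2⁻¹ : ℝ) : ℂ) • (E + E - 1) = E - ((2⁻¹ : ℝ) : ℂ) • 1 := by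
        rw [smul_sub, half_add]
      rw [hz, h4, ← hX]
      simp only [Matrix.mul_add, Matrix.add_mul, Matrix.mul_sub, Matrix.sub_mul, Matrix.mul_smul,
        Matrix.smul_mul, Matrix.mul_one]
      abel)
  rw [key] at h5
  linarith

/-- The pair inequality with parameters `t`, `α`, `m`. -/
theorem pair_ineq3 (t α m : ℝ) (ht : 1 ≤ t) (hα0 : 0 < α) (hα1 : 1 / 2 ≤ α ^ 2) (hm : 0 < m)
    (hαm : α ^ 2 ≤ m * (2 * α - 1 / 2 - α ^ 2)) {X S E F : Matrix ι ι ℂ} (hS : S.PosDef) (hX : S * S = X)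
    (hE0 : E.PosSemidef) (hE1 : (1 - E).PosSemidef) (hF0 : F.PosSemidef)
    (hF1 : (1 - F).PosSemidef) {N M : Matrix ι ι ℂ × Matrix ι ι ℂ} (hN : CanInst X S E N)
    (hIN : IsInst X N) (hM : CanInst X S F M) (hIM : IsInst X M) (G H s : HM ι)
    (hG : G.val = S * E * S) (hH : H.val = S * F * S)
    (hs : s = (2 : ℝ)⁻¹ • (bB N hIN.1 hIN.2.1 H + bB M hIM.1 hIM.2.1 G)) :
    (1 / 2) * (inner ℝ G (bB M hIM.1 hIM.2.1 G) + inner ℝ H (bB N hIN.1 hIN.2.1 H)) +
      (1 / 2) * inner ℝ s s +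
      (1 / 4) * (inner ℝ s (bB N hIN.1 hIN.2.1 s) + inner ℝ s (bB M hIM.1 hIM.2.1 s)) ≤
    xx X (E * F - F * E) + (m / 64) * xx X (u8 (E + E - 1) (F + F - 1)) +
      (t / 4 + 1 / (16 * t)) * (nsq (E * X - X * E) + nsq (F * X - X * F)) +
      (1 / 8 + 1 / (8 * t)) * (rtr (X * X * (E - E * E)) + rtr (X * X * (F - F * F))) := by
  have hXh : X.IsHermitian := by
    rw [← hX]
    unfold Matrix.IsHermitian
    rw [Matrix.conjTranspose_mul, hS.isHermitian.eq]
  obtain ⟨g1, hg1, ht1⟩ := one_dir3 hS hX hE0 hE1 hF0 hF1 hM hIM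
  obtain ⟨g2, hg2, ht2⟩ := one_dir3 hS hX hF0 hF1 hE0 hE1 hN hIN
  have core := pair_core3 hS hX hE0 hF0 hIN hIM G H s hG hH hs _ _ α m hα0 hα1 hm hαm ht1 ht2
  have n1 := nu_eq hXh hF0.isHermitian
  have n2 := nu_eq hXh hE0.isHermitian
  obtain ⟨a, ha'⟩ : ∃ a, a = E + E - 1 := ⟨_, rfl⟩
  obtain ⟨b, hb'⟩ : ∃ b, b = F + F - 1 := ⟨_, rfl⟩
  have ha : a.IsHermitian := by
    rw [ha']
    exact (hE0.isHermitian.add hE0.isHermitian).sub Matrix.isHermitian_one
  have hb : b.IsHermitian := by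
    rw [hb']
    exact (hF0.isHermitian.add hF0.isHermitian).sub Matrix.isHermitian_one
  have hF : F = ((2⁻¹ : ℝ) : ℂ) • (1 + b) := by
    rw [hb', add_sub_cancel, half_add]
  have hF' : 1 - F = ((2⁻¹ : ℝ) : ℂ) • (1 - b) := by
    have h3 : (1 : Matrix ι ι ℂ) - (F + F - 1) = (1 - F) + (1 - F) := by abel
    rw [hb', h3, half_add]
  have hE : E = ((2⁻¹ : ℝ) : ℂ) • (1 + a) := by
    rw [ha', add_sub_cancel, half_add]
  have hE' : 1 - E = ((2⁻¹ : ℝ) : ℂ) • (1 - a) := by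
    have h3 : (1 : Matrix ι ι ℂ) - (E + E - 1) = (1 - E) + (1 - E) := by abel
    rw [ha', h3, half_add]
  have h5 := hf_ineq3 ha hb hXh (by rw [ha']; exact effect_psd hE0 hE1)
    (by rw [hb']; exact effect_psd hF0 hF1) hF hF' hE hE'
  have htp : 0 < t := by linarith
  replace hg1 := hg1 t ht
  replace hg2 := hg2 t ht
  have c1 : nsq (a * X - X * a) = 4 * nsq (E * X - X * E) := by
    have h : a * X - X * a = (2 : ℝ) • (E * X - X * E) := by
      rw [ha', two_smul]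
      noncomm_ring
    rw [h, nsq_smul]
    norm_num
  have c2 : nsq (b * X - X * b) = 4 * nsq (F * X - X * F) := by
    have h : b * X - X * b = (2 : ℝ) • (F * X - X * F) := by
      rw [hb', two_smul]
      noncomm_ring
    rw [h, nsq_smul]
    norm_num
  have c3 : xx X (a * b - b * a) = 16 * xx X (E * F - F * E) := by
    have h : a * b - b * a = (4 : ℝ) • (E * F - F * E) := by
      have h4 : (4 : ℝ) = 2 * 2 := by norm_num
      rw [ha', hb', h4, mul_smul, two_smul, two_smul]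
      noncomm_ring
    rw [h, xx_smul]
    norm_num
  have c4 : rtr (X * X * ((1 - a * a) + (1 - b * b))) =
      4 * (rtr (X * X * (E - E * E)) + rtr (X * X * (F - F * F))) := by
    have h : (1 - a * a) + (1 - b * b) = ((4 : ℝ) : ℂ) • ((E - E * E) + (F - F * F)) := by
      have h4 : ((4 : ℝ) : ℂ) = 2 * 2 := by norm_num
      rw [ha', hb', h4, mul_smul, two_smul, two_smul]
      noncomm_ring
    rw [h, Matrix.mul_smul, rtr_smul, Matrix.mul_add, rtr_add]
  rw [← ha', ← hb'] at core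
  rw [← ha', c1, n1] at hg1
  rw [← hb', c2, n2] at hg2
  rw [← ha', ← hb']
  rw [c1, c2, c3, c4] at h5
  obtain ⟨r1, hr1⟩ : ∃ r, r = rtr (X * X * (E - E * E)) := ⟨_, rfl⟩
  obtain ⟨r2, hr2⟩ : ∃ r, r = rtr (X * X * (F - F * F)) := ⟨_, rfl⟩
  obtain ⟨w1, hw1⟩ : ∃ r, r = nsq (E * X - X * E) := ⟨_, rfl⟩
  obtain ⟨w2, hw2⟩ : ∃ r, r = nsq (F * X - X * F) := ⟨_, rfl⟩
  rw [← hr1, ← hw1] at hg2
  rw [← hr2, ← hw2] at hg1
  rw [← hw1] at hg1
  rw [← hw2] at hg2
  rw [← hr1, ← hr2, ← hw1, ← hw2] at h5 ⊢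
  have t1 : (2 / t) * (r2 + 1 / 2 * w2) = (2 / t) * r2 + (1 / t) * w2 := by ring
  have t2 : (2 / t) * (r1 + 1 / 2 * w1) = (2 / t) * r1 + (1 / t) * w1 := by ring
  have t3 : (1 / (16 * t)) = (1 / t) / 16 := by field_simp
  have t4 : (1 / (8 * t)) = (2 / t) / 16 := by field_simp; norm_num
  rw [t1] at hg1
  rw [t2] at hg2
  rw [t3, t4]
  linarith

/-- The pair functional for the canonical instruments. -/
theorem LL_le3 (t α m : ℝ) (ht : 1 ≤ t) (hα0 : 0 < α) (hα1 : 1 / 2 ≤ α ^ 2) (hm : 0 < m)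
    (hαm : α ^ 2 ≤ m * (2 * α - 1 / 2 - α ^ 2)) {X S : Matrix ι ι ℂ} (hS : S.PosDef) (hX : S * S = X) (hXh : X.IsHermitian)
    (E : Fin n → Matrix ι ι ℂ) (hE0 : ∀ l, (E l).PosSemidef) (hE1 : ∀ l, (1 - E l).PosSemidef)
    (N : Fin n → Matrix ι ι ℂ × Matrix ι ι ℂ) (hN : ∀ l, CanInst X S (E l) (N l))
    (hI : ∀ l, IsInst X (N l)) (l i : Fin n) (hli : l ≠ i) :
    LL (bb N hI) (gg hXh N hI) l i ≤
      (xx X (E l * E i - E i * E l) +
        (m / 64) * xx X (u8 (E l + E l - 1) (E i + E i - 1))) +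
      (((t / 4 + 1 / (16 * t)) * nsq (E l * X - X * E l) + (1 / 8 + 1 / (8 * t)) * rtr (X * X * (E l - E l * E l))) +
        ((t / 4 + 1 / (16 * t)) * nsq (E i * X - X * E i) + (1 / 8 + 1 / (8 * t)) * rtr (X * X * (E i - E i * E i)))) := by
  have hg : ∀ j, (gg hXh N hI j).val = S * E j * S := fun j => canInst_gG hS hX (hN j)
  have h := pair_ineq3 t α m ht hα0 hα1 hm hαm hS hX (hE0 l) (hE1 l) (hE0 i) (hE1 i) (hN l) (hI l) (hN i) (hI i)
    (gg hXh N hI l) (gg hXh N hI i) (H54I.ss (bb N hI) (gg hXh N hI) l i) (hg l) (hg i)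
    (by
      unfold H54I.ss
      rw [if_neg hli]
      rfl)
  have h' : LL (bb N hI) (gg hXh N hI) l i ≤ _ := h
  linarith

/-- `W + S/2` for the canonical instruments, with the parameters `t`, `α`, `m`. -/
theorem WS_le3 (t α m : ℝ) (ht : 1 ≤ t) (hα0 : 0 < α) (hα1 : 1 / 2 ≤ α ^ 2) (hm : 0 < m)
    (hαm : α ^ 2 ≤ m * (2 * α - 1 / 2 - α ^ 2)) {X S : Matrix ι ι ℂ} (hS : S.PosDef) (hX : S * S = X) (hXh : X.IsHermitian)
    (E : Fin n → Matrix ι ι ℂ) (hE0 : ∀ l, (E l).PosSemidef) (hE1 : ∀ l, (1 - E l).PosSemidef)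
    (N : Fin n → Matrix ι ι ℂ × Matrix ι ι ℂ) (hN : ∀ l, CanInst X S (E l) (N l))
    (hI : ∀ l, IsInst X (N l)) :
    H54I.WW (bb N hI) (gg hXh N hI) + (1 / 2) * H54I.SS (bb N hI) (gg hXh N hI) ≤
      (∑ l, ∑ i ∈ Finset.univ.erase l, (xx X (E l * E i - E i * E l) +
        (m / 64) * xx X (u8 (E l + E l - 1) (E i + E i - 1)))) +
      2 * ((n : ℝ) - 1) * ∑ l, ((t / 4 + 1 / (16 * t)) * nsq (E l * X - X * E l) +
        (1 / 8 + 1 / (8 * t)) * rtr (X * X * (E l - E l * E l))) := by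
  have h1 := WW_SS_le (bb N hI) (gg hXh N hI) _ (LL_le3 t α m ht hα0 hα1 hm hαm hS hX hXh E hE0 hE1 N hN hI)
  have h2 := sum_offdiag_add (fun l : Fin n => (t / 4 + 1 / (16 * t)) * nsq (E l * X - X * E l) +
        (1 / 8 + 1 / (8 * t)) * rtr (X * X * (E l - E l * E l)))
  rw [Fintype.card_fin] at h2
  rw [← h2]
  refine h1.trans (le_of_eq ?_)
  rw [← Finset.sum_add_distrib]
  refine Finset.sum_congr rfl fun l _ => ?_
  rw [← Finset.sum_add_distrib]

end Pool.Agent.H54J
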