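import Pool.Agent.Lib.H54J.J10

/-! # The sum over pairs in terms of the polynomial test functional (no gain term)

`WW + SS / 2 ≤ ∑_{l ≠ i} [ (1/8) (hf_b(a) + hf_a(b)) + (m/64) |a + b - a b a - b a b|_XX^2 ]`. -/

namespace Pool.Agent.H54J

open Matrix Pool.Agent.H25A Pool.Agent.H16T
open scoped ComplexOrder

variable {ι : Type*} [Fintype ι] [DecidableEq ι] {n : ℕ}

theorem pair_ineq4 (α m : ℝ) (hα0 : 0 < α) (hα1 : 1 / 2 ≤ α ^ 2) (hm : 0 < m)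
    (hαm : α ^ 2 ≤ m * (2 * α - 1 / 2 - α ^ 2)) {X S E F : Matrix ι ι ℂ} (hS : S.PosDef)
    (hX : S * S = X) (hE0 : E.PosSemidef) (hE1 : (1 - E).PosSemidef) (hF0 : F.PosSemidef)
    (hF1 : (1 - F).PosSemidef) {N M : Matrix ι ι ℂ × Matrix ι ι ℂ} (hN : CanInst X S E N)
    (hIN : IsInst X N) (hM : CanInst X S F M) (hIM : IsInst X M) (G H s : HM ι)
    (hG : G.val = S * E * S) (hH : H.val = S * F * S)
    (hs : s = (2 : ℝ)⁻¹ • (bB N hIN.1 hIN.2.1 H + bB M hIM.1 hIM.2.1 G)) :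
    (1 / 2) * (inner ℝ G (bB M hIM.1 hIM.2.1 G) + inner ℝ H (bB N hIN.1 hIN.2.1 H)) +
      (1 / 2) * inner ℝ s s +
      (1 / 4) * (inner ℝ s (bB N hIN.1 hIN.2.1 s) + inner ℝ s (bB M hIM.1 hIM.2.1 s)) ≤
    (1 / 8) * (hf X (F + F - 1) (E + E - 1) + hf X (E + E - 1) (F + F - 1)) +
      (m / 64) * xx X (u8 (E + E - 1) (F + F - 1)) := by
  have core := pair_core3 hS hX hE0 hF0 hIN hIM G H s hG hH hs
    ((1 / 4) * hf X (F + F - 1) (E + E - 1)) ((1 / 4) * hf X (E + E - 1) (F + F - 1))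
    α m hα0 hα1 hm hαm
    (fun σ z β hσ hz => one_dir hS hX hE0.isHermitian hF0 hF1 hM hIM β hσ z hz)
    (fun σ z β hσ hz => one_dir hS hX hF0.isHermitian hE0 hE1 hN hIN β hσ z hz)
  linarith

/-- The pair functional for the canonical instruments. -/
theorem LL_le4 (α m : ℝ) (hα0 : 0 < α) (hα1 : 1 / 2 ≤ α ^ 2) (hm : 0 < m)
    (hαm : α ^ 2 ≤ m * (2 * α - 1 / 2 - α ^ 2)) {X S : Matrix ι ι ℂ} (hS : S.PosDef)
    (hX : S * S = X) (hXh : X.IsHermitian)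
    (E : Fin n → Matrix ι ι ℂ) (hE0 : ∀ l, (E l).PosSemidef) (hE1 : ∀ l, (1 - E l).PosSemidef)
    (N : Fin n → Matrix ι ι ℂ × Matrix ι ι ℂ) (hN : ∀ l, CanInst X S (E l) (N l))
    (hI : ∀ l, IsInst X (N l)) (l i : Fin n) (hli : l ≠ i) :
    LL (bb N hI) (gg hXh N hI) l i ≤
      (1 / 8) * (hf X (E i + E i - 1) (E l + E l - 1) + hf X (E l + E l - 1) (E i + E i - 1)) +
        (m / 64) * xx X (u8 (E l + E l - 1) (E i + E i - 1)) := by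
  have hg : ∀ j, (gg hXh N hI j).val = S * E j * S := fun j => canInst_gG hS hX (hN j)
  exact pair_ineq4 α m hα0 hα1 hm hαm hS hX (hE0 l) (hE1 l) (hE0 i) (hE1 i) (hN l) (hI l)
    (hN i) (hI i) (gg hXh N hI l) (gg hXh N hI i) (H54I.ss (bb N hI) (gg hXh N hI) l i)
    (hg l) (hg i)
    (by
      unfold H54I.ss
      rw [if_neg hli]
      rfl)

/-- `W + S/2` for the canonical instruments, polynomial form. -/
theorem WS_le4 (α m : ℝ) (hα0 : 0 < α) (hα1 : 1 / 2 ≤ α ^ 2) (hm : 0 < m)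
    (hαm : α ^ 2 ≤ m * (2 * α - 1 / 2 - α ^ 2)) {X S : Matrix ι ι ℂ} (hS : S.PosDef)
    (hX : S * S = X) (hXh : X.IsHermitian)
    (E : Fin n → Matrix ι ι ℂ) (hE0 : ∀ l, (E l).PosSemidef) (hE1 : ∀ l, (1 - E l).PosSemidef)
    (N : Fin n → Matrix ι ι ℂ × Matrix ι ι ℂ) (hN : ∀ l, CanInst X S (E l) (N l))
    (hI : ∀ l, IsInst X (N l)) :
    H54I.WW (bb N hI) (gg hXh N hI) + (1 / 2) * H54I.SS (bb N hI) (gg hXh N hI) ≤
      ∑ l, ∑ i ∈ Finset.univ.erase l,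
        ((1 / 8) * (hf X (E i + E i - 1) (E l + E l - 1) + hf X (E l + E l - 1) (E i + E i - 1)) +
        (m / 64) * xx X (u8 (E l + E l - 1) (E i + E i - 1))) :=
  WW_SS_le (bb N hI) (gg hXh N hI) _ (LL_le4 α m hα0 hα1 hm hαm hS hX hXh E hE0 hE1 N hN hI)

end Pool.Agent.H54J
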