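import Pool.Agent.Lib.H54J.J1
import Pool.Agent.Lib.H16T.TA

/-! # The test inequality for the canonical instrument -/

namespace Pool.Agent.H54J

open Matrix Pool.Agent.H25A Pool.Agent.H16T
open scoped ComplexOrder

variable {ι : Type*} [Fintype ι] [DecidableEq ι]

theorem rtr_theta_conj {S Y1 Y0 y : Matrix ι ι ℂ} (hS : S.PosDef) :
    rtr (S * y * S * theta (S⁻¹ * Y1 * S⁻¹, S⁻¹ * Y0 * S⁻¹) (S * y * S)) =
      rtr (y * Y1 * y * Y1) + rtr (y * Y0 * y * Y0) := by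
  have hdet : IsUnit S.det := (Matrix.isUnit_iff_isUnit_det S).1 hS.isUnit
  have h1 : S⁻¹ * S = 1 := Matrix.nonsing_inv_mul S hdet
  have h2 : S * S⁻¹ = 1 := Matrix.mul_nonsing_inv S hdet
  have key : ∀ Y : Matrix ι ι ℂ, rtr (S * y * S * ((S⁻¹ * Y * S⁻¹) * (S * y * S) * (S⁻¹ * Y * S⁻¹)))
      = rtr (y * Y * y * Y) := by
    intro Y
    have h3 : S * y * S * ((S⁻¹ * Y * S⁻¹) * (S * y * S) * (S⁻¹ * Y * S⁻¹)) =
        S * (y * Y * y * Y * S⁻¹) := by
      calc S * y * S * ((S⁻¹ * Y * S⁻¹) * (S * y * S) * (S⁻¹ * Y * S⁻¹))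
          = S * y * (S * S⁻¹) * Y * (S⁻¹ * S) * y * (S * S⁻¹) * Y * S⁻¹ := by
            simp only [Matrix.mul_assoc]
        _ = S * (y * Y * y * Y * S⁻¹) := by
            rw [h1, h2]
            simp only [Matrix.mul_one, Matrix.mul_assoc]
    rw [h3, rtr_mul_comm, Matrix.mul_assoc, h1, Matrix.mul_one]
  unfold theta
  rw [Matrix.mul_add, rtr_add, key, key]

/-- The test inequality. -/
theorem test_ineq {X S F Y1 Y0 y a : Matrix ι ι ℂ} (hS : S.PosDef) (hX : S * S = X)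
    (h0 : F.PosSemidef) (h1 : (1 - F).PosSemidef)
    (hY1 : Y1.PosSemidef) (hY0 : Y0.PosSemidef) (e1 : Y1 * Y1 = X * F * X)
    (e0 : Y0 * Y0 = X * (1 - F) * X) (hy : y.IsHermitian) (ha : a.IsHermitian) (t : ℝ)
    (hN1 : (S⁻¹ * Y1 * S⁻¹).PosSemidef) (hN0 : (S⁻¹ * Y0 * S⁻¹).PosSemidef)
    (hT : theta (S⁻¹ * Y1 * S⁻¹, S⁻¹ * Y0 * S⁻¹) X = X)
    (z : HM ι) (hz : z.val = S * y * S + (t : ℂ) • X) :
    inner ℝ z (bB (S⁻¹ * Y1 * S⁻¹, S⁻¹ * Y0 * S⁻¹) hN1 hN0 z) ≤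
      rtr (X * y * X * y) - 2 * rtr (X * y * X * (F * a * F + (1 - F) * a * (1 - F))) +
        rtr (X * X * (F * a * F * a * F + (1 - F) * a * (1 - F) * a * (1 - F))) := by
  have hXh : X.IsHermitian := by
    rw [← hX]
    unfold Matrix.IsHermitian
    rw [Matrix.conjTranspose_mul, hS.isHermitian.eq]
  set N := (S⁻¹ * Y1 * S⁻¹, S⁻¹ * Y0 * S⁻¹) with hN
  have hB : (bB N hN1 hN0 z).val = S * y * S - theta N (S * y * S) := by
    rw [bB_val, hz, theta_add, theta_smul, hT]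
    abel
  have hSyS : (S * y * S).IsHermitian := by
    unfold Matrix.IsHermitian
    rw [Matrix.conjTranspose_mul, Matrix.conjTranspose_mul, hy.eq, hS.isHermitian.eq,
      Matrix.mul_assoc]
  have hXz : rtr (X * (S * y * S - theta N (S * y * S))) = 0 := by
    rw [Matrix.mul_sub, rtr_sub, ← theta_symm, hT, sub_self]
  have h2 : inner ℝ z (bB N hN1 hN0 z) =
      rtr (S * y * S * (S * y * S)) - rtr (S * y * S * theta N (S * y * S)) := by
    rw [HM.inner_eq, hB, hz, Matrix.add_mul, rtr_add, Matrix.smul_mul, rtr_smul, hXz, mul_zero,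
      add_zero, Matrix.mul_sub, rtr_sub]
  have h3 : rtr (S * y * S * (S * y * S)) = rtr (X * y * X * y) := by
    have h4 : S * y * S * (S * y * S) = (S * y) * (X * y * S) := by
      rw [← hX]
      simp only [Matrix.mul_assoc]
    rw [h4, rtr_mul_comm]
    have h5 : X * y * S * (S * y) = X * y * X * y := by
      rw [← hX]
      simp only [Matrix.mul_assoc]
    rw [h5]
  have h4 := rtr_theta_conj (Y1 := Y1) (Y0 := Y0) (y := y) hS
  rw [← hN] at h4
  have h5 := J1 hXh h0 hY1 e1 hy ha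
  have h6 := J1 hXh h1 hY0 e0 hy ha
  rw [h2, h3, h4, Matrix.mul_add, Matrix.mul_add, rtr_add, rtr_add]
  linarith

end Pool.Agent.H54J
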