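import Pool.Agent.Lib.H25A.B1
import Pool.Agent.Lib.H25A.B1b

/-! # The polynomial two-effect inequality (helper5, helper9)

`a`, `b` Hermitian contractions, `X` Hermitian, `w_a = [a, X]`:
`2 (hf_b(a) + hf_a(b)) ≤ 3 (|w_a|^2 + |w_b|^2) + |[a,b]|_XX^2 + (2/3) tr X^2 (2 - a^2 - b^2)`. -/

namespace Pool.Agent.H54J

open Matrix Pool.Agent.H25A
open scoped ComplexOrder

variable {ι : Type*} [Fintype ι] [DecidableEq ι]

/-- `|W|^2 = tr W^* W`. -/
noncomputable def nsq (W : Matrix ι ι ℂ) : ℝ := rtr (Wᴴ * W)

/-- `|c|_XX^2 = tr c^* X c X`. -/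
noncomputable def xx (X c : Matrix ι ι ℂ) : ℝ := rtr (cᴴ * X * c * X)

/-- The polynomial test value `hf_b(a) = (1/4) tr X^2 ((ab+ba)^2 + a(1-b^2)a) - tr X a X b a b`. -/
noncomputable def hf (X b a : Matrix ι ι ℂ) : ℝ :=
  (1 / 4) * rtr (X * X * (a * a + a * b * a * b + b * a * b * a + b * a * a * b)) -
    rtr (X * a * X * b * a * b)

set_option linter.unusedSimpArgs false in
theorem hf_identity {a b X : Matrix ι ι ℂ} (ha : a.IsHermitian) (hb : b.IsHermitian)
    (hX : X.IsHermitian) :
    2 * (hf X b a + hf X a b) = xx X (a * b - b * a) + nsq (a * X - X * a) + nsq (b * X - X * b) +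
      (1 / 2) * rtr (X * X * ((1 - a * a) + (1 - b * b))) -
      rtr (a * (b * X - X * b) * ((a * X - X * a) * b)) -
      rtr (b * (a * X - X * a) * ((b * X - X * b) * a)) -
      rtr (a * (a * X - X * a) * (b * (b * X - X * b))) -
      rtr ((a * X - X * a) * a * ((b * X - X * b) * b)) -
      rtr (X * (1 - a * a) * X * (1 - b * b)) -
      rtr ((1 - a * a) * X * b * (b * X - X * b)) -
      rtr ((1 - b * b) * X * a * (a * X - X * a)) +
      (1 / 2) * rtr ((1 - a * a) * (b * X - X * b) * (b * X - X * b)) +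
      (1 / 2) * rtr ((1 - b * b) * (a * X - X * a) * (a * X - X * a)) := by
  have r1 : rtr (X * (X * (b * (a * (b * a))))) = rtr (X * (X * (a * (b * (a * b))))) := by
    have h1 := rtr_conjTranspose (X * (X * (b * (a * (b * a)))))
    simp only [Matrix.conjTranspose_mul, ha.eq, hb.eq, hX.eq, Matrix.mul_assoc, Matrix.neg_mul, Matrix.mul_neg, neg_neg, rtr_neg] at h1
    have h := rtr_mul_comm (a * b * a * b) (X * X)
    simp only [Matrix.mul_assoc] at h
    linarith
  have r2 : rtr (X * (a * (a * X))) = rtr (X * (X * (a * a))) := by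
    have h := rtr_mul_comm (X * a * a) (X)
    simpa only [Matrix.mul_assoc] using h
  have r3 : rtr (X * (b * (X * (a * (b * a))))) = rtr (X * (a * (b * (a * (X * b))))) := by
    have h := rtr_mul_comm (X * b) (X * a * b * a)
    simpa only [Matrix.mul_assoc] using h
  have r4 : rtr (X * (b * (b * X))) = rtr (X * (X * (b * b))) := by
    have h := rtr_mul_comm (X * b * b) (X)
    simpa only [Matrix.mul_assoc] using h
  have r5 : rtr (a * (X * (X * a))) = rtr (X * (X * (a * a))) := by
    have h := rtr_mul_comm (a) (X * X * a)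
    simpa only [Matrix.mul_assoc] using h
  have r6 : rtr (a * (X * (a * X))) = rtr (X * (a * (X * a))) := by
    have h := rtr_mul_comm (a) (X * a * X)
    simpa only [Matrix.mul_assoc] using h
  have r7 : rtr (a * (X * (a * (X * (b * b))))) = rtr (X * (a * (X * (a * (b * b))))) := by
    have h1 := rtr_conjTranspose (a * (X * (a * (X * (b * b)))))
    simp only [Matrix.conjTranspose_mul, ha.eq, hb.eq, hX.eq, Matrix.mul_assoc, Matrix.neg_mul, Matrix.mul_neg, neg_neg, rtr_neg] at h1
    have h := rtr_mul_comm (b * b) (X * a * X * a)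
    simp only [Matrix.mul_assoc] at h
    linarith
  have r8 : rtr (a * (X * (a * (b * (X * b))))) = rtr (X * (a * (b * (X * (b * a))))) := by
    have h := rtr_mul_comm (a) (X * a * b * X * b)
    simpa only [Matrix.mul_assoc] using h
  have r9 : rtr (a * (X * (a * (b * (b * X))))) = rtr (X * (a * (X * (a * (b * b))))) := by
    have h := rtr_mul_comm (a * X * a * b * b) (X)
    simpa only [Matrix.mul_assoc] using h
  have r10 : rtr (a * (X * (b * (X * (a * b))))) = rtr (X * (a * (b * (a * (X * b))))) := by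
    have h := rtr_mul_comm (a * X * b) (X * a * b)
    simpa only [Matrix.mul_assoc] using h
  have r11 : rtr (a * (X * (b * (a * (X * b))))) = rtr (X * (a * (b * (X * (a * b))))) := by
    have h1 := rtr_conjTranspose (a * (X * (b * (a * (X * b)))))
    simp only [Matrix.conjTranspose_mul, ha.eq, hb.eq, hX.eq, Matrix.mul_assoc, Matrix.neg_mul, Matrix.mul_neg, neg_neg, rtr_neg] at h1
    have h := rtr_mul_comm (b) (X * a * b * X * a)
    simp only [Matrix.mul_assoc] at h
    linarith
  have r12 : rtr (a * (a * (X * (b * (X * b))))) = rtr (X * (a * (a * (b * (X * b))))) := by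
    have h1 := rtr_conjTranspose (a * (a * (X * (b * (X * b)))))
    simp only [Matrix.conjTranspose_mul, ha.eq, hb.eq, hX.eq, Matrix.mul_assoc, Matrix.neg_mul, Matrix.mul_neg, neg_neg, rtr_neg] at h1
    have h := rtr_mul_comm (b * X * b) (X * a * a)
    simp only [Matrix.mul_assoc] at h
    linarith
  have r13 : rtr (a * (a * (X * (b * (b * X))))) = rtr (X * (a * (a * (X * (b * b))))) := by
    have h := rtr_mul_comm (a * a * X * b * b) (X)
    simpa only [Matrix.mul_assoc] using h
  have r14 : rtr (a * (a * (b * (X * (X * b))))) = rtr (X * (X * (b * (a * (a * b))))) := by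
    have h := rtr_mul_comm (a * a * b) (X * X * b)
    simpa only [Matrix.mul_assoc] using h
  have r15 : rtr (a * (a * (b * (X * (b * X))))) = rtr (X * (a * (a * (b * (X * b))))) := by
    have h := rtr_mul_comm (a * a * b * X * b) (X)
    simpa only [Matrix.mul_assoc] using h
  have r16 : rtr (a * (b * (X * (X * (a * b))))) = rtr (X * (X * (a * (b * (a * b))))) := by
    have h := rtr_mul_comm (a * b) (X * X * a * b)
    simpa only [Matrix.mul_assoc] using h
  have r17 : rtr (a * (b * (X * (a * (X * b))))) = rtr (X * (a * (X * (b * (a * b))))) := by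
    have h := rtr_mul_comm (a * b) (X * a * X * b)
    simpa only [Matrix.mul_assoc] using h
  have r18 : rtr (a * (b * (X * (a * (b * X))))) = rtr (X * (a * (b * (X * (a * b))))) := by
    have h := rtr_mul_comm (a * b) (X * a * b * X)
    simpa only [Matrix.mul_assoc] using h
  have r19 : rtr (a * (b * (X * (b * (a * X))))) = rtr (X * (a * (b * (X * (b * a))))) := by
    have h := rtr_mul_comm (a * b * X * b * a) (X)
    simpa only [Matrix.mul_assoc] using h
  have r20 : rtr (b * (X * (X * b))) = rtr (X * (X * (b * b))) := by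
    have h := rtr_mul_comm (b) (X * X * b)
    simpa only [Matrix.mul_assoc] using h
  have r21 : rtr (b * (X * (a * (X * (b * a))))) = rtr (X * (a * (X * (b * (a * b))))) := by
    have h := rtr_mul_comm (b) (X * a * X * b * a)
    simpa only [Matrix.mul_assoc] using h
  have r22 : rtr (b * (X * (a * (b * (X * a))))) = rtr (X * (a * (b * (X * (a * b))))) := by
    have h := rtr_mul_comm (b) (X * a * b * X * a)
    simpa only [Matrix.mul_assoc] using h
  have r23 : rtr (b * (X * (b * X))) = rtr (X * (b * (X * b))) := by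
    have h := rtr_mul_comm (b) (X * b * X)
    simpa only [Matrix.mul_assoc] using h
  have r24 : rtr (b * (a * (X * (X * (b * a))))) = rtr (X * (X * (a * (b * (a * b))))) := by
    have h1 := rtr_conjTranspose (b * (a * (X * (X * (b * a)))))
    simp only [Matrix.conjTranspose_mul, ha.eq, hb.eq, hX.eq, Matrix.mul_assoc, Matrix.neg_mul, Matrix.mul_neg, neg_neg, rtr_neg] at h1
    have h := rtr_mul_comm (a * b) (X * X * a * b)
    simp only [Matrix.mul_assoc] at h
    linarith
  have r25 : rtr (b * (a * (X * (a * (b * X))))) = rtr (X * (a * (b * (X * (b * a))))) := by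
    have h := rtr_mul_comm (b * a) (X * a * b * X)
    simpa only [Matrix.mul_assoc] using h
  have r26 : rtr (b * (a * (X * (b * (X * a))))) = rtr (X * (a * (b * (a * (X * b))))) := by
    have h := rtr_mul_comm (b * a * X * b) (X * a)
    simpa only [Matrix.mul_assoc] using h
  have r27 : rtr (b * (a * (X * (b * (a * X))))) = rtr (X * (a * (b * (X * (a * b))))) := by
    have h1 := rtr_conjTranspose (b * (a * (X * (b * (a * X)))))
    simp only [Matrix.conjTranspose_mul, ha.eq, hb.eq, hX.eq, Matrix.mul_assoc, Matrix.neg_mul, Matrix.mul_neg, neg_neg, rtr_neg] at h1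
    linarith
  have r28 : rtr (b * (b * (X * (a * (X * a))))) = rtr (X * (a * (X * (a * (b * b))))) := by
    have h := rtr_mul_comm (b * b) (X * a * X * a)
    simpa only [Matrix.mul_assoc] using h
  have r29 : rtr (b * (b * (X * (a * (a * X))))) = rtr (X * (a * (a * (X * (b * b))))) := by
    have h := rtr_mul_comm (b * b) (X * a * a * X)
    simpa only [Matrix.mul_assoc] using h
  have r30 : rtr (b * (b * (a * (X * (X * a))))) = rtr (X * (X * (a * (b * (b * a))))) := by
    have h := rtr_mul_comm (b * b * a) (X * X * a)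
    simpa only [Matrix.mul_assoc] using h
  have r31 : rtr (b * (b * (a * (X * (a * X))))) = rtr (X * (a * (X * (a * (b * b))))) := by
    have h1 := rtr_conjTranspose (b * (b * (a * (X * (a * X)))))
    simp only [Matrix.conjTranspose_mul, ha.eq, hb.eq, hX.eq, Matrix.mul_assoc, Matrix.neg_mul, Matrix.mul_neg, neg_neg, rtr_neg] at h1
    linarith
  unfold hf xx nsq
  simp only [Matrix.conjTranspose_mul, Matrix.conjTranspose_sub, ha.eq, hb.eq, hX.eq]
  simp only [Matrix.mul_add, Matrix.add_mul, Matrix.mul_sub, Matrix.sub_mul, Matrix.mul_one,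
    Matrix.one_mul, Matrix.mul_assoc, rtr_add, rtr_sub]
  simp only [r1, r2, r3, r4, r5, r6, r7, r8, r9, r10, r11, r12, r13, r14, r15, r16, r17, r18, r19, r20, r21, r22, r23, r24, r25, r26, r27, r28, r29, r30, r31]
  ring

theorem psd_quad {A P Q : Matrix ι ι ℂ} (hA : A.PosSemidef) (t : ℝ) :
    0 ≤ rtr (Pᴴ * A * P) + 2 * t * rtr (Pᴴ * A * Q) + t ^ 2 * rtr (Qᴴ * A * Q) := by
  have h1 := hA.conjTranspose_mul_mul_same (P + (t : ℂ) • Q)
  have h2 : 0 ≤ rtr ((P + (t : ℂ) • Q)ᴴ * A * (P + (t : ℂ) • Q)) :=
    (Complex.nonneg_iff.mp h1.trace_nonneg).1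
  have h3 : (P + (t : ℂ) • Q)ᴴ * A * (P + (t : ℂ) • Q) =
      Pᴴ * A * P + (t : ℂ) • (Pᴴ * A * Q) + (t : ℂ) • (Qᴴ * A * P) +
        (t : ℂ) • ((t : ℂ) • (Qᴴ * A * Q)) := by
    rw [Matrix.conjTranspose_add, Matrix.conjTranspose_smul]
    simp only [Matrix.add_mul, Matrix.mul_add, Matrix.smul_mul, Matrix.mul_smul, Complex.star_def,
      Complex.conj_ofReal, smul_add]
    abel
  have h4 : rtr (Qᴴ * A * P) = rtr (Pᴴ * A * Q) := by
    rw [← rtr_conjTranspose (Pᴴ * A * Q)]
    rw [Matrix.conjTranspose_mul, Matrix.conjTranspose_mul, Matrix.conjTranspose_conjTranspose,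
      hA.isHermitian.eq, Matrix.mul_assoc]
  rw [h3, rtr_add, rtr_add, rtr_add, rtr_smul, rtr_smul, rtr_smul, rtr_smul, h4] at h2
  linarith

set_option linter.unusedSimpArgs false in
theorem hf_cauchy {a b X u v : Matrix ι ι ℂ} (ha : a.IsHermitian) (hb : b.IsHermitian)
    (hX : X.IsHermitian) (hu : uᴴ = -u) (hv : vᴴ = -v) (hal : (1 - a * a).PosSemidef)
    (hbe : (1 - b * b).PosSemidef) :
    - rtr (a * v * (u * b)) - rtr (b * u * (v * a)) - rtr (a * u * (b * v)) -
      rtr (u * a * (v * b)) - rtr (X * (1 - a * a) * X * (1 - b * b)) -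
      rtr ((1 - a * a) * X * b * v) - rtr ((1 - b * b) * X * a * u) +
      (1 / 2) * rtr ((1 - a * a) * v * v) + (1 / 2) * rtr ((1 - b * b) * u * u) ≤
    2 * (nsq u + nsq v) + (1 / 6) * rtr (X * X * ((1 - a * a) + (1 - b * b))) := by
  have s1 : rtr (X * (a * (a * X))) = rtr (X * (X * (a * a))) := by
    have h := rtr_mul_comm (X * a * a) (X)
    simpa only [Matrix.mul_assoc] using h
  have s2 : rtr (X * (b * (b * X))) = rtr (X * (X * (b * b))) := by
    have h := rtr_mul_comm (X * b * b) (X)
    simpa only [Matrix.mul_assoc] using h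
  have s3 : rtr (X * (b * (b * (u * a)))) = -rtr (X * (a * (u * (b * b)))) := by
    have h1 := rtr_conjTranspose (X * (b * (b * (u * a))))
    simp only [Matrix.conjTranspose_mul, ha.eq, hb.eq, hX.eq, hu, hv, Matrix.mul_assoc, Matrix.neg_mul, Matrix.mul_neg, neg_neg, rtr_neg] at h1
    have h := rtr_mul_comm (a * u * b * b) (X)
    simp only [Matrix.mul_assoc] at h
    linarith
  have s4 : rtr (X * (u * a)) = -rtr (X * (a * u)) := by
    have h1 := rtr_conjTranspose (X * (u * a))
    simp only [Matrix.conjTranspose_mul, ha.eq, hb.eq, hX.eq, hu, hv, Matrix.mul_assoc, Matrix.neg_mul, Matrix.mul_neg, neg_neg, rtr_neg] at h1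
    have h := rtr_mul_comm (a * u) (X)
    simp only [Matrix.mul_assoc] at h
    linarith
  have s5 : rtr (X * (v * b)) = -rtr (X * (b * v)) := by
    have h1 := rtr_conjTranspose (X * (v * b))
    simp only [Matrix.conjTranspose_mul, ha.eq, hb.eq, hX.eq, hu, hv, Matrix.mul_assoc, Matrix.neg_mul, Matrix.mul_neg, neg_neg, rtr_neg] at h1
    have h := rtr_mul_comm (b * v) (X)
    simp only [Matrix.mul_assoc] at h
    linarith
  have s6 : rtr (a * (a * (X * (b * v)))) = -rtr (X * (a * (a * (v * b)))) := by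
    have h1 := rtr_conjTranspose (a * (a * (X * (b * v))))
    simp only [Matrix.conjTranspose_mul, ha.eq, hb.eq, hX.eq, hu, hv, Matrix.mul_assoc, Matrix.neg_mul, Matrix.mul_neg, neg_neg, rtr_neg] at h1
    have h := rtr_mul_comm (v * b) (X * a * a)
    simp only [Matrix.mul_assoc] at h
    linarith
  have s7 : rtr (a * (u * (b * (b * (u * a))))) = rtr (a * (a * (u * (b * (b * u))))) := by
    have h := rtr_mul_comm (a * u * b * b * u) (a)
    simpa only [Matrix.mul_assoc] using h
  have s8 : rtr (a * (u * (u * a))) = rtr (a * (a * (u * u))) := by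
    have h := rtr_mul_comm (a * u * u) (a)
    simpa only [Matrix.mul_assoc] using h
  have s9 : rtr (a * (v * (u * b))) = rtr (a * (b * (u * v))) := by
    have h1 := rtr_conjTranspose (a * (v * (u * b)))
    simp only [Matrix.conjTranspose_mul, ha.eq, hb.eq, hX.eq, hu, hv, Matrix.mul_assoc, Matrix.neg_mul, Matrix.mul_neg, neg_neg, rtr_neg] at h1
    have h := rtr_mul_comm (b * u * v) (a)
    simp only [Matrix.mul_assoc] at h
    linarith
  have s10 : rtr (a * (v * (v * a))) = rtr (a * (a * (v * v))) := by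
    have h := rtr_mul_comm (a * v * v) (a)
    simpa only [Matrix.mul_assoc] using h
  have s11 : rtr (b * (b * (X * (a * u)))) = rtr (X * (a * (u * (b * b)))) := by
    have h := rtr_mul_comm (b * b) (X * a * u)
    simpa only [Matrix.mul_assoc] using h
  have s12 : rtr (b * (u * (u * b))) = rtr (b * (b * (u * u))) := by
    have h := rtr_mul_comm (b * u * u) (b)
    simpa only [Matrix.mul_assoc] using h
  have s13 : rtr (b * (u * (v * a))) = rtr (a * (b * (u * v))) := by
    have h := rtr_mul_comm (b * u * v) (a)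
    simpa only [Matrix.mul_assoc] using h
  have s14 : rtr (b * (v * (a * (a * (v * b))))) = rtr (a * (a * (v * (b * (b * v))))) := by
    have h := rtr_mul_comm (b * v) (a * a * v * b)
    simpa only [Matrix.mul_assoc] using h
  have s15 : rtr (b * (v * (a * u))) = rtr (a * (u * (b * v))) := by
    have h := rtr_mul_comm (b * v) (a * u)
    simpa only [Matrix.mul_assoc] using h
  have s16 : rtr (b * (v * (v * b))) = rtr (b * (b * (v * v))) := by
    have h := rtr_mul_comm (b * v * v) (b)
    simpa only [Matrix.mul_assoc] using h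
  have s17 : rtr (u * (a * (a * u))) = rtr (a * (a * (u * u))) := by
    have h := rtr_mul_comm (u) (a * a * u)
    simpa only [Matrix.mul_assoc] using h
  have s18 : rtr (u * (a * (v * b))) = rtr (a * (u * (b * v))) := by
    have h1 := rtr_conjTranspose (u * (a * (v * b)))
    simp only [Matrix.conjTranspose_mul, ha.eq, hb.eq, hX.eq, hu, hv, Matrix.mul_assoc, Matrix.neg_mul, Matrix.mul_neg, neg_neg, rtr_neg] at h1
    have h := rtr_mul_comm (b * v) (a * u)
    simp only [Matrix.mul_assoc] at h
    linarith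
  have s19 : rtr (u * (b * (b * u))) = rtr (b * (b * (u * u))) := by
    have h := rtr_mul_comm (u) (b * b * u)
    simpa only [Matrix.mul_assoc] using h
  have s20 : rtr (u * (b * (b * (u * (a * a))))) = rtr (a * (a * (u * (b * (b * u))))) := by
    have h := rtr_mul_comm (u * b * b * u) (a * a)
    simpa only [Matrix.mul_assoc] using h
  have s21 : rtr (u * (u * (a * a))) = rtr (a * (a * (u * u))) := by
    have h := rtr_mul_comm (u * u) (a * a)
    simpa only [Matrix.mul_assoc] using h
  have s22 : rtr (v * (a * (a * v))) = rtr (a * (a * (v * v))) := by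
    have h := rtr_mul_comm (v) (a * a * v)
    simpa only [Matrix.mul_assoc] using h
  have s23 : rtr (v * (a * (a * (v * (b * b))))) = rtr (a * (a * (v * (b * (b * v))))) := by
    have h := rtr_mul_comm (v) (a * a * v * b * b)
    simpa only [Matrix.mul_assoc] using h
  have s24 : rtr (v * (b * (b * v))) = rtr (b * (b * (v * v))) := by
    have h := rtr_mul_comm (v) (b * b * v)
    simpa only [Matrix.mul_assoc] using h
  have s25 : rtr (v * (b * (u * a))) = rtr (a * (u * (b * v))) := by
    have h1 := rtr_conjTranspose (v * (b * (u * a)))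
    simp only [Matrix.conjTranspose_mul, ha.eq, hb.eq, hX.eq, hu, hv, Matrix.mul_assoc, Matrix.neg_mul, Matrix.mul_neg, neg_neg, rtr_neg] at h1
    linarith
  have s26 : rtr (v * (v * (b * b))) = rtr (b * (b * (v * v))) := by
    have h := rtr_mul_comm (v * v) (b * b)
    simpa only [Matrix.mul_assoc] using h
  have c1 := rtr_conjTranspose_mul_self_nonneg (u * b - v * a)
  have c2 := rtr_conjTranspose_mul_self_nonneg (v * a - u * b)
  have c3 := rtr_conjTranspose_mul_self_nonneg (b * v - u * a)
  have c4 := rtr_conjTranspose_mul_self_nonneg (v * b - a * u)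
  have c5 := psd_quad (P := X) (Q := -(v * b)) hal 3
  have c6 := psd_quad (P := X) (Q := -(u * a)) hbe 3
  have c7 := rtr_mul_nonneg (hal.mul_mul_conjTranspose_same v) hbe
  have c8 := rtr_mul_nonneg (hbe.mul_mul_conjTranspose_same u) hal
  have c9 := rtr_mul_nonneg hal (Matrix.posSemidef_conjTranspose_mul_self u)
  have c10 := rtr_mul_nonneg hbe (Matrix.posSemidef_conjTranspose_mul_self v)
  have c11 := rtr_mul_nonneg (hal.mul_mul_conjTranspose_same X) hbe
  unfold nsq
  simp only [Matrix.conjTranspose_mul, Matrix.conjTranspose_sub, Matrix.conjTranspose_neg,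
    ha.eq, hb.eq, hX.eq, hu, hv] at c1 c2 c3 c4 c5 c6 c7 c8 c9 c10 c11 ⊢
  simp only [Matrix.mul_add, Matrix.add_mul, Matrix.mul_sub, Matrix.sub_mul, Matrix.mul_one,
    Matrix.one_mul, Matrix.mul_assoc, Matrix.neg_mul, Matrix.mul_neg, neg_neg, rtr_add, rtr_sub,
    rtr_neg, sub_neg_eq_add] at c1 c2 c3 c4 c5 c6 c7 c8 c9 c10 c11 ⊢
  simp only [s1, s2, s3, s4, s5, s6, s7, s8, s9, s10, s11, s12, s13, s14, s15, s16, s17, s18, s19, s20, s21, s22, s23, s24, s25, s26] at c1 c2 c3 c4 c5 c6 c7 c8 c9 c10 c11 ⊢
  linarith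

/-- The polynomial two-effect inequality. -/
theorem hf_ineq {a b X : Matrix ι ι ℂ} (ha : a.IsHermitian) (hb : b.IsHermitian)
    (hX : X.IsHermitian) (hal : (1 - a * a).PosSemidef) (hbe : (1 - b * b).PosSemidef) :
    2 * (hf X b a + hf X a b) ≤ 3 * (nsq (a * X - X * a) + nsq (b * X - X * b)) +
      xx X (a * b - b * a) + (2 / 3) * rtr (X * X * ((1 - a * a) + (1 - b * b))) := by
  have hu : (a * X - X * a)ᴴ = -(a * X - X * a) := by
    rw [Matrix.conjTranspose_sub, Matrix.conjTranspose_mul, Matrix.conjTranspose_mul, ha.eq, hX.eq]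
    abel
  have hv : (b * X - X * b)ᴴ = -(b * X - X * b) := by
    rw [Matrix.conjTranspose_sub, Matrix.conjTranspose_mul, Matrix.conjTranspose_mul, hb.eq, hX.eq]
    abel
  have h1 := hf_identity ha hb hX
  have h2 := hf_cauchy ha hb hX hu hv hal hbe
  linarith

end Pool.Agent.H54J
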