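import Pool.Agent.Lib.H54J.J2
import Pool.Agent.Lib.H54J.J3
import Pool.Agent.Lib.H16T.C1

/-! # The pair inequality -/

namespace Pool.Agent.H54J

open Matrix Pool.Agent.H25A Pool.Agent.H16T
open scoped ComplexOrder

variable {ι : Type*} [Fintype ι] [DecidableEq ι]

set_option linter.unusedSimpArgs false in
theorem test_poly {a b s X : Matrix ι ι ℂ} (ha : a.IsHermitian) (hb : b.IsHermitian)
    (hs : s.IsHermitian) (hX : X.IsHermitian) (α : ℝ) {F F' y c : Matrix ι ι ℂ}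
    (hF : F = ((2⁻¹ : ℝ) : ℂ) • (1 + b)) (hF' : F' = ((2⁻¹ : ℝ) : ℂ) • (1 - b))
    (hy : y = ((2⁻¹ : ℝ) : ℂ) • a + (α : ℂ) • s) (hc : c = ((2⁻¹ : ℝ) : ℂ) • a) :
    rtr (X * y * X * y) - 2 * rtr (X * y * X * (F * c * F + F' * c * F')) +
        rtr (X * X * (F * c * F * c * F + F' * c * F' * c * F')) =
      (1 / 4) * hf X b a + (α / 2) * rtr (X * s * X * (a - b * a * b)) +
        α ^ 2 * rtr (X * s * X * s) := by
  have r1 : rtr (X * (X * (b * (a * a)))) = rtr (X * (X * (a * (a * b)))) := by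
    have h1 := rtr_conjTranspose (X * (X * (b * (a * a))))
    simp only [Matrix.conjTranspose_mul, ha.eq, hb.eq, hX.eq, hs.eq, Matrix.mul_assoc, Matrix.neg_mul, Matrix.mul_neg, neg_neg, rtr_neg] at h1
    have h := rtr_mul_comm (a * a * b) (X * X)
    simp only [Matrix.mul_assoc] at h
    linarith
  have r2 : rtr (X * (X * (b * (a * (b * a))))) = rtr (X * (X * (a * (b * (a * b))))) := by
    have h1 := rtr_conjTranspose (X * (X * (b * (a * (b * a)))))
    simp only [Matrix.conjTranspose_mul, ha.eq, hb.eq, hX.eq, hs.eq, Matrix.mul_assoc, Matrix.neg_mul, Matrix.mul_neg, neg_neg, rtr_neg] at h1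
    have h := rtr_mul_comm (a * b * a * b) (X * X)
    simp only [Matrix.mul_assoc] at h
    linarith
  have r3 : rtr (X * (a * (X * (b * a)))) = rtr (X * (a * (X * (a * b)))) := by
    have h1 := rtr_conjTranspose (X * (a * (X * (b * a))))
    simp only [Matrix.conjTranspose_mul, ha.eq, hb.eq, hX.eq, hs.eq, Matrix.mul_assoc, Matrix.neg_mul, Matrix.mul_neg, neg_neg, rtr_neg] at h1
    have h := rtr_mul_comm (a * b) (X * a * X)
    simp only [Matrix.mul_assoc] at h
    linarith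
  have r4 : rtr (X * (s * (X * a))) = rtr (X * (a * (X * s))) := by
    have h := rtr_mul_comm (X * s) (X * a)
    simpa only [Matrix.mul_assoc] using h
  have r5 : rtr (X * (s * (X * (a * b)))) = rtr (X * (a * (b * (X * s)))) := by
    have h := rtr_mul_comm (X * s) (X * a * b)
    simpa only [Matrix.mul_assoc] using h
  have r6 : rtr (X * (s * (X * (b * a)))) = rtr (X * (a * (b * (X * s)))) := by
    have h1 := rtr_conjTranspose (X * (s * (X * (b * a))))
    simp only [Matrix.conjTranspose_mul, ha.eq, hb.eq, hX.eq, hs.eq, Matrix.mul_assoc, Matrix.neg_mul, Matrix.mul_neg, neg_neg, rtr_neg] at h1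
    have h := rtr_mul_comm (a * b * X * s) (X)
    simp only [Matrix.mul_assoc] at h
    linarith
  have r7 : rtr (X * (s * (X * (b * (a * b))))) = rtr (X * (b * (a * (b * (X * s))))) := by
    have h := rtr_mul_comm (X * s) (X * b * a * b)
    simpa only [Matrix.mul_assoc] using h
  subst hF hF' hy hc
  unfold hf
  simp only [Matrix.mul_add, Matrix.add_mul, Matrix.mul_sub, Matrix.sub_mul, Matrix.mul_one,
    Matrix.one_mul, Matrix.mul_assoc, Matrix.smul_mul, Matrix.mul_smul, smul_add, smul_sub,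
    rtr_add, rtr_sub, rtr_smul]
  simp only [r1, r2, r3, r4, r5, r6, r7]
  ring

/-- Canonical instrument of the effect `E` (for `X = S S`). -/
def CanInst (X S E : Matrix ι ι ℂ) (N : Matrix ι ι ℂ × Matrix ι ι ℂ) : Prop :=
  ∃ Y1 Y0 : Matrix ι ι ℂ, Y1.PosSemidef ∧ Y0.PosSemidef ∧ Y1 * Y1 = X * E * X ∧
    Y0 * Y0 = X * (1 - E) * X ∧ N = (S⁻¹ * Y1 * S⁻¹, S⁻¹ * Y0 * S⁻¹)

/-- The polynomial `8 u = a + b - a b a - b a b`, `a = 2E - 1`, `b = 2F - 1`. -/
def u8 (a b : Matrix ι ι ℂ) : Matrix ι ι ℂ := a + b - a * b * a - b * a * b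

omit [Fintype ι] [DecidableEq ι] in
theorem half_add (F : Matrix ι ι ℂ) : ((2⁻¹ : ℝ) : ℂ) • (F + F) = F := by
  rw [← two_smul ℂ F, smul_smul]
  norm_num

theorem one_dir {X S E F σ : Matrix ι ι ℂ} (hS : S.PosDef) (hX : S * S = X)
    (hE : E.IsHermitian) (h0 : F.PosSemidef) (h1 : (1 - F).PosSemidef)
    {N : Matrix ι ι ℂ × Matrix ι ι ℂ} (hN : CanInst X S F N) (hI : IsInst X N) (α : ℝ)
    (hσ : σ.IsHermitian) (z : HM ι) (hz : z.val = S * E * S + (α : ℂ) • (S * σ * S)) :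
    inner ℝ z (bB N hI.1 hI.2.1 z) ≤
      (1 / 4) * hf X (F + F - 1) (E + E - 1) +
        (α / 2) * rtr (X * σ * X * ((E + E - 1) - (F + F - 1) * (E + E - 1) * (F + F - 1))) +
        α ^ 2 * rtr (X * σ * X * σ) := by
  obtain ⟨Y1, Y0, hY1, hY0, e1, e0, rfl⟩ := hN
  have hXh : X.IsHermitian := by
    rw [← hX]
    unfold Matrix.IsHermitian
    rw [Matrix.conjTranspose_mul, hS.isHermitian.eq]
  have ha : (E + E - 1 : Matrix ι ι ℂ).IsHermitian :=
    (hE.add hE).sub Matrix.isHermitian_one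
  have hb : (F + F - 1 : Matrix ι ι ℂ).IsHermitian :=
    (h0.isHermitian.add h0.isHermitian).sub Matrix.isHermitian_one
  have hr : ∀ (r : ℝ) {A : Matrix ι ι ℂ}, A.IsHermitian → ((r : ℂ) • A).IsHermitian := by
    intro r A hA
    unfold Matrix.IsHermitian
    rw [Matrix.conjTranspose_smul, hA.eq, Complex.star_def, Complex.conj_ofReal]
  have hF : F = ((2⁻¹ : ℝ) : ℂ) • (1 + (F + F - 1)) := by
    rw [add_sub_cancel, half_add]
  have hF' : 1 - F = ((2⁻¹ : ℝ) : ℂ) • (1 - (F + F - 1)) := by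
    have h3 : (1 : Matrix ι ι ℂ) - (F + F - 1) = (1 - F) + (1 - F) := by abel
    rw [h3, half_add]
  have key := test_poly ha hb hσ hXh α hF hF' (y := ((2⁻¹ : ℝ) : ℂ) • (E + E - 1) + (α : ℂ) • σ)
    (c := ((2⁻¹ : ℝ) : ℂ) • (E + E - 1)) rfl rfl
  rw [← key]
  refine test_ineq hS hX h0 h1 hY1 hY0 e1 e0 ?_ ?_ (2⁻¹ : ℝ) hI.1 hI.2.1 hI.2.2 z ?_
  · exact (hr _ ha).add (hr _ hσ)
  · exact hr _ ha
  · have h4 : ((2⁻¹ : ℝ) : ℂ) • (E + E - 1) = E - ((2⁻¹ : ℝ) : ℂ) • 1 := by
      rw [smul_sub, half_add]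
    rw [hz, h4, ← hX]
    simp only [Matrix.mul_add, Matrix.add_mul, Matrix.mul_sub, Matrix.sub_mul, Matrix.mul_smul,
      Matrix.smul_mul, Matrix.mul_one]
    abel

theorem effect_psd {E : Matrix ι ι ℂ} (h0 : E.PosSemidef) (h1 : (1 - E).PosSemidef) :
    (1 - (E + E - 1) * (E + E - 1)).PosSemidef := by
  obtain ⟨C, hC, hCC, -⟩ := exists_sqrt h0
  have h2 := h1.conjTranspose_mul_mul_same C
  have h3 : Cᴴ * (1 - E) * C = E - E * E := by
    rw [hC.isHermitian.eq, Matrix.mul_sub, Matrix.sub_mul, Matrix.mul_one, hCC, ← hCC]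
    simp only [Matrix.mul_assoc]
  rw [h3] at h2
  have h4 : (1 - (E + E - 1) * (E + E - 1)) = (E - E * E) + (E - E * E) + (E - E * E) +
      (E - E * E) := by
    noncomm_ring
  rw [h4]
  exact ((h2.add h2).add h2).add h2

theorem rtr_conj_sq {X S : Matrix ι ι ℂ} (hX : S * S = X) (y z : Matrix ι ι ℂ) :
    rtr (S * y * S * (S * z * S)) = rtr (X * y * X * z) := by
  have h4 : S * y * S * (S * z * S) = (S * y) * (X * z * S) := by
    rw [← hX]
    simp only [Matrix.mul_assoc]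
  rw [h4, rtr_mul_comm]
  have h5 : X * z * S * (S * y) = (X * z) * (X * y) := by
    rw [← hX]
    simp only [Matrix.mul_assoc]
  rw [h5, rtr_mul_comm]
  simp only [Matrix.mul_assoc]

theorem nsq_smul (r : ℝ) (W : Matrix ι ι ℂ) : nsq (r • W) = r ^ 2 * nsq W := by
  have h : r • W = (r : ℂ) • W := by
    ext i j
    simp [Matrix.smul_apply]
  unfold nsq
  rw [h, Matrix.conjTranspose_smul, Complex.star_def, Complex.conj_ofReal, Matrix.smul_mul,
    Matrix.mul_smul, rtr_smul, rtr_smul]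
  ring

theorem xx_smul (r : ℝ) (X c : Matrix ι ι ℂ) : xx X (r • c) = r ^ 2 * xx X c := by
  have h : r • c = (r : ℂ) • c := by
    ext i j
    simp [Matrix.smul_apply]
  unfold xx
  rw [h, Matrix.conjTranspose_smul, Complex.star_def, Complex.conj_ofReal]
  simp only [Matrix.smul_mul, Matrix.mul_smul, rtr_smul]
  ring

theorem psd_xx {X σ w : Matrix ι ι ℂ} (hX : X.PosSemidef) (hσ : σ.IsHermitian)
    (hw : w.IsHermitian) (t : ℝ) :
    0 ≤ rtr (X * σ * X * σ) - 2 * t * rtr (X * σ * X * w) + t ^ 2 * xx X w := by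
  have h1 := hX.mul_mul_conjTranspose_same (σ - (t : ℂ) • w)
  have h2 := rtr_mul_nonneg h1 hX
  have h3 : (σ - (t : ℂ) • w)ᴴ = σ - (t : ℂ) • w := by
    rw [Matrix.conjTranspose_sub, Matrix.conjTranspose_smul, hσ.eq, hw.eq, Complex.star_def,
      Complex.conj_ofReal]
  rw [h3] at h2
  simp only [Matrix.sub_mul, Matrix.mul_sub, Matrix.smul_mul, Matrix.mul_smul, smul_sub, rtr_sub,
    rtr_smul] at h2
  have e1 : rtr (σ * X * σ * X) = rtr (X * σ * X * σ) := by
    rw [Matrix.mul_assoc (σ * X), rtr_mul_comm, Matrix.mul_assoc, Matrix.mul_assoc,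
      Matrix.mul_assoc, rtr_mul_comm]
    simp only [Matrix.mul_assoc]
  have e2 : rtr (w * X * σ * X) = rtr (X * σ * X * w) := by
    rw [Matrix.mul_assoc (w * X), Matrix.mul_assoc w, rtr_mul_comm]
    simp only [Matrix.mul_assoc]
  have e3 : rtr (σ * X * w * X) = rtr (X * σ * X * w) := by
    rw [rtr_mul_comm]
    simp only [Matrix.mul_assoc]
  have e4 : rtr (w * X * w * X) = xx X w := by
    unfold xx
    rw [hw.eq]
  rw [e1, e2, e3, e4] at h2
  linarith

/-- The pair inequality. -/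
theorem pair_ineq {X S E F : Matrix ι ι ℂ} (hS : S.PosDef) (hX : S * S = X)
    (hE0 : E.PosSemidef) (hE1 : (1 - E).PosSemidef) (hF0 : F.PosSemidef)
    (hF1 : (1 - F).PosSemidef) {N M : Matrix ι ι ℂ × Matrix ι ι ℂ} (hN : CanInst X S E N)
    (hIN : IsInst X N) (hM : CanInst X S F M) (hIM : IsInst X M) (G H s : HM ι)
    (hG : G.val = S * E * S) (hH : H.val = S * F * S)
    (hs : s = (2 : ℝ)⁻¹ • (bB N hIN.1 hIN.2.1 H + bB M hIM.1 hIM.2.1 G)) :
    (1 / 2) * (inner ℝ G (bB M hIM.1 hIM.2.1 G) + inner ℝ H (bB N hIN.1 hIN.2.1 H)) +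
      (1 / 2) * inner ℝ s s +
      (1 / 4) * (inner ℝ s (bB N hIN.1 hIN.2.1 s) + inner ℝ s (bB M hIM.1 hIM.2.1 s)) ≤
    xx X (E * F - F * E) + (5 / 256) * xx X (u8 (E + E - 1) (F + F - 1)) +
      (3 / 4) * (nsq (E * X - X * E) + nsq (F * X - X * F)) +
      (1 / 6) * rtr (X * X * ((E - E * E) + (F - F * F))) := by
  have hXp : X.PosDef := by
    rw [← hX]
    have hdet : IsUnit S.det := (Matrix.isUnit_iff_isUnit_det S).1 hS.isUnit
    have h1 : (S * S).PosSemidef := by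
      have := Matrix.posSemidef_conjTranspose_mul_self S
      rwa [hS.isHermitian.eq] at this
    rw [h1.posDef_iff_isUnit, Matrix.isUnit_iff_isUnit_det, Matrix.det_mul]
    exact hdet.mul hdet
  have hXh : X.IsHermitian := hXp.isHermitian
  have hdet : IsUnit S.det := (Matrix.isUnit_iff_isUnit_det S).1 hS.isUnit
  have hS1 : S⁻¹ * S = 1 := Matrix.nonsing_inv_mul S hdet
  have hS2 : S * S⁻¹ = 1 := Matrix.mul_nonsing_inv S hdet
  have hSh : (S⁻¹)ᴴ = S⁻¹ := by
    rw [Matrix.conjTranspose_nonsing_inv, hS.isHermitian.eq]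
  obtain ⟨σ, hσ⟩ : ∃ σ, σ = S⁻¹ * s.val * S⁻¹ := ⟨_, rfl⟩
  have hσh : σ.IsHermitian := by
    unfold Matrix.IsHermitian
    rw [hσ, Matrix.conjTranspose_mul, Matrix.conjTranspose_mul, hSh, s.herm.eq, Matrix.mul_assoc]
  have hsσ : s.val = S * σ * S := by
    rw [hσ]
    calc s.val = (S * S⁻¹) * s.val * (S⁻¹ * S) := by rw [hS1, hS2, Matrix.one_mul, Matrix.mul_one]
      _ = S * (S⁻¹ * s.val * S⁻¹) * S := by simp only [Matrix.mul_assoc]
  obtain ⟨α, hα⟩ : ∃ α : ℝ, α = 5 / 7 := ⟨_, rfl⟩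
  have d1 := one_dir hS hX hE0.isHermitian hF0 hF1 hM hIM α hσh (G + α • s) (by
    rw [HM.val_add, HM.val_smul, hG, hsσ])
  have d2 := one_dir hS hX hF0.isHermitian hE0 hE1 hN hIN α hσh (H + α • s) (by
    rw [HM.val_add, HM.val_smul, hH, hsσ])
  -- symmetry
  have symN : ∀ x y : HM ι, inner ℝ (bB N hIN.1 hIN.2.1 x) y =
      inner ℝ x (bB N hIN.1 hIN.2.1 y) := by
    intro x y
    simp only [HM.inner_eq, bB_val, Matrix.sub_mul, Matrix.mul_sub, rtr_sub, theta_symm]
  have symM : ∀ x y : HM ι, inner ℝ (bB M hIM.1 hIM.2.1 x) y =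
      inner ℝ x (bB M hIM.1 hIM.2.1 y) := by
    intro x y
    simp only [HM.inner_eq, bB_val, Matrix.sub_mul, Matrix.mul_sub, rtr_sub, theta_symm]
  have posN : 0 ≤ inner ℝ s (bB N hIN.1 hIN.2.1 s) := by
    simp only [HM.inner_eq, bB_val, Matrix.mul_sub, rtr_sub]
    have := theta_le hXp hIN s.herm
    linarith
  have posM : 0 ≤ inner ℝ s (bB M hIM.1 hIM.2.1 s) := by
    simp only [HM.inner_eq, bB_val, Matrix.mul_sub, rtr_sub]
    have := theta_le hXp hIM s.herm
    linarith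
  have hss : inner ℝ s (bB N hIN.1 hIN.2.1 H) + inner ℝ s (bB M hIM.1 hIM.2.1 G) =
      2 * inner ℝ s s := by
    have h1 : bB N hIN.1 hIN.2.1 H + bB M hIM.1 hIM.2.1 G = (2 : ℝ) • s := by
      rw [hs, smul_smul]
      norm_num
    rw [← inner_add_right, h1, inner_smul_right]
  have q1 : inner ℝ (G + α • s) (bB M hIM.1 hIM.2.1 (G + α • s)) =
      inner ℝ G (bB M hIM.1 hIM.2.1 G) + 2 * α * inner ℝ s (bB M hIM.1 hIM.2.1 G) +
        α ^ 2 * inner ℝ s (bB M hIM.1 hIM.2.1 s) := by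
    have h1 : inner ℝ G (bB M hIM.1 hIM.2.1 s) = inner ℝ s (bB M hIM.1 hIM.2.1 G) := by
      rw [← symM, real_inner_comm]
    rw [map_add, map_smul, inner_add_left, inner_add_right, inner_add_right, inner_smul_left,
      inner_smul_left, inner_smul_right, inner_smul_right, h1]
    simp only [conj_trivial]
    ring
  have q2 : inner ℝ (H + α • s) (bB N hIN.1 hIN.2.1 (H + α • s)) =
      inner ℝ H (bB N hIN.1 hIN.2.1 H) + 2 * α * inner ℝ s (bB N hIN.1 hIN.2.1 H) +
        α ^ 2 * inner ℝ s (bB N hIN.1 hIN.2.1 s) := by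
    have h1 : inner ℝ H (bB N hIN.1 hIN.2.1 s) = inner ℝ s (bB N hIN.1 hIN.2.1 H) := by
      rw [← symN, real_inner_comm]
    rw [map_add, map_smul, inner_add_left, inner_add_right, inner_add_right, inner_smul_left,
      inner_smul_left, inner_smul_right, inner_smul_right, h1]
    simp only [conj_trivial]
    ring
  rw [q1] at d1
  rw [q2] at d2
  obtain ⟨a, ha'⟩ : ∃ a, a = E + E - 1 := ⟨_, rfl⟩
  obtain ⟨b, hb'⟩ : ∃ b, b = F + F - 1 := ⟨_, rfl⟩
  have ha : a.IsHermitian := by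
    rw [ha']
    exact (hE0.isHermitian.add hE0.isHermitian).sub Matrix.isHermitian_one
  have hb : b.IsHermitian := by
    rw [hb']
    exact (hF0.isHermitian.add hF0.isHermitian).sub Matrix.isHermitian_one
  have h5 := hf_ineq ha hb hXh (by rw [ha']; exact effect_psd hE0 hE1)
    (by rw [hb']; exact effect_psd hF0 hF1)
  have hsn : inner ℝ s s = rtr (X * σ * X * σ) := by
    rw [HM.inner_eq, hsσ]
    exact rtr_conj_sq hX σ σ
  -- arithmetic-geometric mean
  have hU : (u8 a b).IsHermitian := by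
    unfold u8 Matrix.IsHermitian
    simp only [Matrix.conjTranspose_sub, Matrix.conjTranspose_add, Matrix.conjTranspose_mul,
      ha.eq, hb.eq, Matrix.mul_assoc]
  have h6 := psd_xx hXp.posSemidef hσh hU (7 / 32)
  have h7 : rtr (X * σ * X * (a - b * a * b)) + rtr (X * σ * X * (b - a * b * a)) =
      rtr (X * σ * X * u8 a b) := by
    rw [← rtr_add, ← Matrix.mul_add]
    congr 2
    unfold u8
    abel
  rw [← ha', ← hb'] at d1 d2
  rw [← ha', ← hb']
  -- conversions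
  have c1 : nsq (a * X - X * a) = 4 * nsq (E * X - X * E) := by
    have h : a * X - X * a = (2 : ℝ) • (E * X - X * E) := by
      rw [ha', two_smul]
      noncomm_ring
    rw [h, nsq_smul]
    norm_num
  have c2 : nsq (b * X - X * b) = 4 * nsq (F * X - X * F) := by
    have h : b * X - X * b = (2 : ℝ) • (F * X - X * F) := by
      rw [hb', two_smul]
      noncomm_ring
    rw [h, nsq_smul]
    norm_num
  have c3 : xx X (a * b - b * a) = 16 * xx X (E * F - F * E) := by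
    have h : a * b - b * a = (4 : ℝ) • (E * F - F * E) := by
      have h4 : (4 : ℝ) = 2 * 2 := by norm_num
      rw [ha', hb', h4, mul_smul, two_smul, two_smul]
      noncomm_ring
    rw [h, xx_smul]
    norm_num
  have c4 : rtr (X * X * ((1 - a * a) + (1 - b * b))) =
      4 * rtr (X * X * ((E - E * E) + (F - F * F))) := by
    have h : (1 - a * a) + (1 - b * b) = ((4 : ℝ) : ℂ) • ((E - E * E) + (F - F * F)) := by
      have h4 : ((4 : ℝ) : ℂ) = 2 * 2 := by norm_num
      rw [ha', hb', h4, mul_smul, two_smul, two_smul]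
      noncomm_ring
    rw [h, Matrix.mul_smul, rtr_smul]
  rw [c1, c2, c3, c4] at h5
  have h8 : 0 ≤ inner ℝ s s := real_inner_self_nonneg
  subst hα
  linarith [h5, h6, h7, d1, d2, posN, posM, hss, hsn, h8]

end Pool.Agent.H54J
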