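import Pool.Agent.Lib.H54J.J4

/-! # The sum over pairs: `W + S/2` -/

namespace Pool.Agent.H54J

open Matrix Pool.Agent.H25A Pool.Agent.H16T
open scoped ComplexOrder

variable {ι : Type*} [Fintype ι] [DecidableEq ι] {n : ℕ}

section abs

variable {κ K : Type*} [Fintype κ] [DecidableEq κ] [NormedAddCommGroup K] [InnerProductSpace ℝ K]

/-- The pair functional. -/
noncomputable def LL (B : κ → K →ₗ[ℝ] K) (G : κ → K) (l i : κ) : ℝ :=
  (1 / 2) * (inner ℝ (G l) (B i (G l)) + inner ℝ (G i) (B l (G i))) +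
    (1 / 2) * inner ℝ (H54I.ss B G l i) (H54I.ss B G l i) +
    (1 / 4) * (inner ℝ (H54I.ss B G l i) (B l (H54I.ss B G l i)) +
      inner ℝ (H54I.ss B G l i) (B i (H54I.ss B G l i)))

omit [Fintype κ] in
theorem ss_symm (B : κ → K →ₗ[ℝ] K) (G : κ → K) (l i : κ) :
    H54I.ss B G l i = H54I.ss B G i l := by
  unfold H54I.ss
  by_cases h : l = i
  · simp [h]
  · rw [if_neg h, if_neg (Ne.symm h), add_comm]

theorem sum_offdiag_swap (f : κ → κ → ℝ) :
    ∑ l, ∑ i ∈ Finset.univ.erase l, f l i = ∑ l, ∑ i ∈ Finset.univ.erase l, f i l := by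
  have key : ∀ g : κ → κ → ℝ, ∑ l, ∑ i ∈ Finset.univ.erase l, g l i =
      ∑ l, ∑ i, if l = i then 0 else g l i := by
    intro g
    refine Finset.sum_congr rfl fun l _ => ?_
    rw [← Finset.add_sum_erase Finset.univ _ (Finset.mem_univ l), if_pos rfl, zero_add]
    refine Finset.sum_congr rfl fun i hi => ?_
    rw [if_neg (Finset.ne_of_mem_erase hi).symm]
  rw [key f, key (fun l i => f i l), Finset.sum_comm]
  refine Finset.sum_congr rfl fun l _ => Finset.sum_congr rfl fun i _ => ?_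
  by_cases h : l = i
  · simp [h]
  · rw [if_neg h, if_neg (Ne.symm h)]

theorem WW_SS_eq (B : κ → K →ₗ[ℝ] K) (G : κ → K) :
    H54I.WW B G + (1 / 2) * H54I.SS B G = ∑ l, ∑ i ∈ Finset.univ.erase l, LL B G l i := by
  have h1 : ∑ l, ∑ i ∈ Finset.univ.erase l, inner ℝ (G l) (B i (G l)) = H54I.WW B G := by
    unfold H54I.WW
    rw [sum_offdiag_swap]
  have h2 : ∑ l, ∑ i ∈ Finset.univ.erase l,
      inner ℝ (H54I.ss B G l i) (B i (H54I.ss B G l i)) =
      ∑ l, ∑ i ∈ Finset.univ.erase l, inner ℝ (H54I.ss B G l i) (B l (H54I.ss B G l i)) := by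
    rw [sum_offdiag_swap]
    refine Finset.sum_congr rfl fun l _ => Finset.sum_congr rfl fun i _ => ?_
    rw [ss_symm B G i l]
  unfold LL
  simp only [Finset.sum_add_distrib, ← Finset.mul_sum]
  rw [h1, h2]
  unfold H54I.SS
  simp only [inner_add_right, Finset.sum_add_distrib]
  have h3 : H54I.WW B G = ∑ l, ∑ i ∈ Finset.univ.erase l, inner ℝ (G i) (B l (G i)) := rfl
  rw [← h3]
  ring

theorem WW_SS_le (B : κ → K →ₗ[ℝ] K) (G : κ → K) (R : κ → κ → ℝ)
    (h : ∀ l i, l ≠ i → LL B G l i ≤ R l i) :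
    H54I.WW B G + (1 / 2) * H54I.SS B G ≤ ∑ l, ∑ i ∈ Finset.univ.erase l, R l i := by
  rw [WW_SS_eq]
  exact Finset.sum_le_sum fun l _ => Finset.sum_le_sum fun i hi =>
    h l i (Finset.ne_of_mem_erase hi).symm

theorem sum_offdiag_add (f : κ → ℝ) :
    ∑ l, ∑ i ∈ Finset.univ.erase l, (f l + f i) =
      2 * ((Fintype.card κ : ℝ) - 1) * ∑ l, f l := by
  have h1 : ∑ l, ∑ i ∈ Finset.univ.erase l, f i = ∑ l, ∑ i ∈ Finset.univ.erase l, f l :=
    sum_offdiag_swap (fun _ i => f i)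
  simp only [Finset.sum_add_distrib]
  rw [h1]
  simp only [Finset.sum_const, Finset.card_erase_of_mem (Finset.mem_univ _), Finset.card_univ,
    nsmul_eq_mul]
  rw [← Finset.mul_sum]
  rcases Nat.eq_zero_or_pos (Fintype.card κ) with h0 | h0
  · have : IsEmpty κ := Fintype.card_eq_zero_iff.mp h0
    simp
  · rw [Nat.cast_sub (by omega)]
    push_cast
    ring

end abs

theorem canInst_gG {X S E : Matrix ι ι ℂ} (hS : S.PosDef) (hX : S * S = X)
    {N : Matrix ι ι ℂ × Matrix ι ι ℂ} (hN : CanInst X S E N) : gG X N = S * E * S := by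
  obtain ⟨Y1, Y0, -, -, e1, -, rfl⟩ := hN
  have hdet : IsUnit S.det := (Matrix.isUnit_iff_isUnit_det S).1 hS.isUnit
  have h1 : S⁻¹ * S = 1 := Matrix.nonsing_inv_mul S hdet
  have h2 : S * S⁻¹ = 1 := Matrix.mul_nonsing_inv S hdet
  show (S⁻¹ * Y1 * S⁻¹) * X * (S⁻¹ * Y1 * S⁻¹) = S * E * S
  calc (S⁻¹ * Y1 * S⁻¹) * X * (S⁻¹ * Y1 * S⁻¹)
      = S⁻¹ * Y1 * (S⁻¹ * S) * (S * S⁻¹) * Y1 * S⁻¹ := by
        rw [← hX]
        simp only [Matrix.mul_assoc]
    _ = S⁻¹ * (Y1 * Y1) * S⁻¹ := by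
        rw [h1, h2, Matrix.mul_one, Matrix.mul_one]
        simp only [Matrix.mul_assoc]
    _ = (S⁻¹ * S) * S * E * S * (S * S⁻¹) := by
        rw [e1, ← hX]
        simp only [Matrix.mul_assoc]
    _ = S * E * S := by
        rw [h1, h2, Matrix.mul_one, Matrix.one_mul]

/-- The pair functional for the canonical instruments. -/
theorem LL_le {X S : Matrix ι ι ℂ} (hS : S.PosDef) (hX : S * S = X) (hXh : X.IsHermitian)
    (E : Fin n → Matrix ι ι ℂ) (hE0 : ∀ l, (E l).PosSemidef) (hE1 : ∀ l, (1 - E l).PosSemidef)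
    (N : Fin n → Matrix ι ι ℂ × Matrix ι ι ℂ) (hN : ∀ l, CanInst X S (E l) (N l))
    (hI : ∀ l, IsInst X (N l)) (l i : Fin n) (hli : l ≠ i) :
    LL (bb N hI) (gg hXh N hI) l i ≤
      (xx X (E l * E i - E i * E l) +
        (5 / 256) * xx X (u8 (E l + E l - 1) (E i + E i - 1))) +
      (((3 / 4) * nsq (E l * X - X * E l) + (1 / 6) * rtr (X * X * (E l - E l * E l))) +
        ((3 / 4) * nsq (E i * X - X * E i) + (1 / 6) * rtr (X * X * (E i - E i * E i)))) := by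
  have hg : ∀ j, (gg hXh N hI j).val = S * E j * S := fun j => canInst_gG hS hX (hN j)
  have h := pair_ineq hS hX (hE0 l) (hE1 l) (hE0 i) (hE1 i) (hN l) (hI l) (hN i) (hI i)
    (gg hXh N hI l) (gg hXh N hI i) (H54I.ss (bb N hI) (gg hXh N hI) l i) (hg l) (hg i)
    (by
      unfold H54I.ss
      rw [if_neg hli]
      rfl)
  have h2 : rtr (X * X * ((E l - E l * E l) + (E i - E i * E i))) =
      rtr (X * X * (E l - E l * E l)) + rtr (X * X * (E i - E i * E i)) := by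
    rw [Matrix.mul_add, rtr_add]
  rw [h2] at h
  have h' : LL (bb N hI) (gg hXh N hI) l i ≤ _ := h
  linarith

/-- `W + S/2` for the canonical instruments. -/
theorem WS_le {X S : Matrix ι ι ℂ} (hS : S.PosDef) (hX : S * S = X) (hXh : X.IsHermitian)
    (E : Fin n → Matrix ι ι ℂ) (hE0 : ∀ l, (E l).PosSemidef) (hE1 : ∀ l, (1 - E l).PosSemidef)
    (N : Fin n → Matrix ι ι ℂ × Matrix ι ι ℂ) (hN : ∀ l, CanInst X S (E l) (N l))
    (hI : ∀ l, IsInst X (N l)) :
    H54I.WW (bb N hI) (gg hXh N hI) + (1 / 2) * H54I.SS (bb N hI) (gg hXh N hI) ≤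
      (∑ l, ∑ i ∈ Finset.univ.erase l, (xx X (E l * E i - E i * E l) +
        (5 / 256) * xx X (u8 (E l + E l - 1) (E i + E i - 1)))) +
      2 * ((n : ℝ) - 1) * ∑ l, ((3 / 4) * nsq (E l * X - X * E l) +
        (1 / 6) * rtr (X * X * (E l - E l * E l))) := by
  have h1 := WW_SS_le (bb N hI) (gg hXh N hI) _ (LL_le hS hX hXh E hE0 hE1 N hN hI)
  have h2 := sum_offdiag_add (fun l : Fin n => (3 / 4) * nsq (E l * X - X * E l) +
        (1 / 6) * rtr (X * X * (E l - E l * E l)))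
  rw [Fintype.card_fin] at h2
  rw [← h2]
  refine h1.trans (le_of_eq ?_)
  rw [← Finset.sum_add_distrib]
  refine Finset.sum_congr rfl fun l _ => ?_
  rw [← Finset.sum_add_distrib]

end Pool.Agent.H54J
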