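import Pool.Agent.Lib.H54J.J1
import Pool.Agent.Lib.H54J.J3

/-! # The one-effect inequality with the gain term

`F = R R`, `R ≥ 0`, `Y ≥ 0`, `Y Y = X F X`.  With `N = R X = V Y`, `S = V Y V^*` one has
`S S = R X X R`, `S + R Y R ≥ 2 R X R` and, for Hermitian `y`, `a`,
`2 tr X y X F a F - tr X X F a F a F + (1/2) |[R a R, S]|^2 ≤ tr y Y y Y`. -/

namespace Pool.Agent.H54J

open Matrix Pool.Agent.H25A
open scoped ComplexOrder

variable {ι : Type*} [Fintype ι] [DecidableEq ι]

theorem polar_data {X F R Y : Matrix ι ι ℂ} (hX : X.IsHermitian) (hR : R.PosSemidef)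
    (hRR : R * R = F) (hY : Y.PosSemidef) (hYY : Y * Y = X * F * X) :
    ∃ S : Matrix ι ι ℂ, S.PosSemidef ∧ S * S = R * X * X * R ∧
      (S - R * X * R - R * X * R + R * Y * R).PosSemidef ∧
      ∀ y a : Matrix ι ι ℂ, y.IsHermitian → a.IsHermitian →
        2 * rtr (X * y * X * (F * a * F)) - rtr (X * X * (F * a * F * a * F)) +
          (1 / 2) * nsq (R * a * R * S - S * (R * a * R)) ≤ rtr (y * Y * y * Y) := by
  obtain ⟨Z, hZ, hc, hYZY, hZYZ⟩ := exists_pinv hY.isHermitian
  have hXh : Xᴴ = X := hX.eq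
  have hRh : Rᴴ = R := hR.isHermitian.eq
  have hZh : Zᴴ = Z := hZ.eq
  have hYh : Yᴴ = Y := hY.isHermitian.eq
  obtain ⟨P, hP⟩ : ∃ P, P = Y * Z := ⟨_, rfl⟩
  have hPh : Pᴴ = P := by
    rw [hP, Matrix.conjTranspose_mul, hZh, hYh, ← hc]
  have hYP : Y * P = Y := by
    rw [hP, hc, ← Matrix.mul_assoc]
    exact hYZY
  have hPY : P * Y = Y := by
    rw [hP]
    exact hYZY
  -- `R X P = R X`
  have hRX : R * X * P = R * X := by
    have h1 : (R * X * (1 - P))ᴴ * (R * X * (1 - P)) = 0 := by
      have h2 : (R * X * (1 - P))ᴴ * (R * X * (1 - P)) = (1 - P) * (X * (R * R) * X) * (1 - P) := by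
        rw [Matrix.conjTranspose_mul, Matrix.conjTranspose_mul, Matrix.conjTranspose_sub,
          Matrix.conjTranspose_one, hPh, hXh, hRh]
        simp only [Matrix.mul_assoc]
      rw [h2, hRR, ← hYY]
      have h3 : Y * (1 - P) = 0 := by
        rw [Matrix.mul_sub, Matrix.mul_one, hYP, sub_self]
      rw [Matrix.mul_assoc (1 - P), Matrix.mul_assoc Y Y, h3, Matrix.mul_zero, Matrix.mul_zero]
    have h5 := eq_zero_of_conj_mul h1
    rw [Matrix.mul_sub, Matrix.mul_one, sub_eq_zero] at h5
    exact h5.symm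
  obtain ⟨V, hV⟩ : ∃ V, V = R * X * Z := ⟨_, rfl⟩
  have hVY : V * Y = R * X := by
    rw [hV, Matrix.mul_assoc, ← hc, ← hP, hRX]
  have hYV : Y * Vᴴ = X * R := by
    have h := congrArg Matrix.conjTranspose hVY
    rwa [Matrix.conjTranspose_mul, Matrix.conjTranspose_mul, hYh, hXh, hRh] at h
  have hVV : Vᴴ * V = P := by
    rw [hV, Matrix.conjTranspose_mul, Matrix.conjTranspose_mul, hXh, hZh, hRh]
    calc Z * (X * R) * (R * X * Z) = Z * (X * (R * R) * X) * Z := by
          simp only [Matrix.mul_assoc]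
      _ = Z * Y * (Y * Z) := by
          rw [hRR, ← hYY]
          simp only [Matrix.mul_assoc]
      _ = P := by
          rw [← hc, ← hP]
          rw [hP, ← Matrix.mul_assoc, hYZY]
  obtain ⟨S, hS⟩ : ∃ S, S = V * Y * Vᴴ := ⟨_, rfl⟩
  have hSp : S.PosSemidef := by
    rw [hS]
    exact hY.mul_mul_conjTranspose_same V
  have hSS : S * S = R * X * X * R := by
    rw [hS]
    calc V * Y * Vᴴ * (V * Y * Vᴴ) = V * (Y * (Vᴴ * V)) * Y * Vᴴ := by
          simp only [Matrix.mul_assoc]
      _ = (V * Y) * (Y * Vᴴ) := by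
          rw [hVV, hYP]
          simp only [Matrix.mul_assoc]
      _ = R * X * X * R := by
          rw [hVY, hYV]
          simp only [Matrix.mul_assoc]
  refine ⟨S, hSp, hSS, ?_, ?_⟩
  · have h1 : S - R * X * R - R * X * R + R * Y * R = (V - R) * Y * (V - R)ᴴ := by
      rw [Matrix.conjTranspose_sub, hRh, Matrix.sub_mul, Matrix.mul_sub, Matrix.sub_mul,
        Matrix.sub_mul, ← hS]
      have h2 : R * Y * Vᴴ = R * X * R := by
        rw [Matrix.mul_assoc, hYV, ← Matrix.mul_assoc]
      rw [h2, hVY]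
      abel
    rw [h1]
    exact hY.mul_mul_conjTranspose_same (V - R)
  · intro y a hy ha
    have hah : aᴴ = a := ha.eq
    obtain ⟨p, hp⟩ : ∃ p, p = R * a * R := ⟨_, rfl⟩
    have hph : pᴴ = p := by
      rw [hp, Matrix.conjTranspose_mul, Matrix.conjTranspose_mul, hRh, hah, Matrix.mul_assoc]
    obtain ⟨w, hw⟩ : ∃ w, w = Vᴴ * p * V := ⟨_, rfl⟩
    have hwh : wᴴ = w := by
      rw [hw, Matrix.conjTranspose_mul, Matrix.conjTranspose_mul, hph,
        Matrix.conjTranspose_conjTranspose, Matrix.mul_assoc]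
    obtain ⟨M, hM⟩ : ∃ M, M = X * F * a * F * X := ⟨_, rfl⟩
    have hYwY : Y * w * Y = M := by
      rw [hw, hp]
      calc Y * (Vᴴ * (R * a * R) * V) * Y = (Y * Vᴴ) * (R * a * R) * (V * Y) := by
            simp only [Matrix.mul_assoc]
        _ = X * (R * R) * a * (R * R) * X := by
            rw [hYV, hVY]
            simp only [Matrix.mul_assoc]
        _ = M := by rw [hRR, hM]
    have s1 : 0 ≤ rtr ((y - w) * Y * (y - w) * Y) := by
      have h := hY.mul_mul_conjTranspose_same (y - w)
      have h2 := rtr_mul_nonneg h hY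
      rw [Matrix.conjTranspose_sub, hy.eq, hwh] at h2
      exact h2
    have e1 : rtr ((y - w) * Y * (y - w) * Y) =
        rtr (y * Y * y * Y) - 2 * rtr (y * M) + rtr (w * Y * w * Y) := by
      have h1 : rtr (y * Y * w * Y) = rtr (y * M) := by
        rw [← hYwY]
        simp only [Matrix.mul_assoc]
      have h2 : rtr (w * Y * y * Y) = rtr (y * M) := by
        have h3 : w * Y * y * Y = (w * Y) * (y * Y) := by simp only [Matrix.mul_assoc]
        rw [h3, rtr_mul_comm, ← h1]
        simp only [Matrix.mul_assoc]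
      have h5 : (y - w) * Y * (y - w) * Y =
          y * Y * y * Y - y * Y * w * Y - w * Y * y * Y + w * Y * w * Y := by
        simp only [Matrix.sub_mul, Matrix.mul_sub]
        abel
      rw [h5, rtr_add, rtr_sub, rtr_sub, h1, h2]
      ring
    have e2 : rtr (w * Y * w * Y) = rtr (p * S * p * S) := by
      have h1 : w * Y * w * Y = Vᴴ * (p * (V * Y * Vᴴ) * p * (V * Y)) := by
        rw [hw]
        simp only [Matrix.mul_assoc]
      rw [h1, ← hS, rtr_mul_comm]
      have h2 : p * S * p * (V * Y) * Vᴴ = p * S * p * S := by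
        rw [hS]
        simp only [Matrix.mul_assoc]
      rw [h2]
    have e3 : nsq (p * S - S * p) = 2 * rtr (p * p * (S * S)) - 2 * rtr (p * S * p * S) := by
      unfold nsq
      have hSh : Sᴴ = S := hSp.isHermitian.eq
      rw [Matrix.conjTranspose_sub, Matrix.conjTranspose_mul, Matrix.conjTranspose_mul, hSh, hph]
      have h1 : (S * p - p * S) * (p * S - S * p) =
          S * (p * p * S) - S * (p * S * p) - p * S * p * S + p * (S * S * p) := by
        simp only [Matrix.sub_mul, Matrix.mul_sub, Matrix.mul_assoc]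
        abel
      rw [h1, rtr_add, rtr_sub, rtr_sub, rtr_mul_comm S (p * p * S), rtr_mul_comm S (p * S * p),
        rtr_mul_comm p (S * S * p)]
      have h2 : S * S * p * p = (S * S) * (p * p) := by simp only [Matrix.mul_assoc]
      have h3 : p * p * S * S = p * p * (S * S) := by simp only [Matrix.mul_assoc]
      rw [h2, h3, rtr_mul_comm (S * S)]
      ring
    have e4 : rtr (p * p * (S * S)) = rtr (X * X * (F * a * F * a * F)) := by
      rw [hSS, hp]
      have h1 : R * a * R * (R * a * R) * (R * X * X * R) =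
          R * (a * (R * R) * a * (R * R) * X * X * R) := by simp only [Matrix.mul_assoc]
      rw [h1, rtr_mul_comm]
      have h2 : a * (R * R) * a * (R * R) * X * X * R * R =
          (a * F * a * F) * (X * X * F) := by
        rw [← hRR]
        simp only [Matrix.mul_assoc]
      rw [h2, rtr_mul_comm]
      simp only [Matrix.mul_assoc]
    have e5 : rtr (X * y * X * (F * a * F)) = rtr (y * M) := by
      have h1 : X * y * X * (F * a * F) = X * (y * X * (F * a * F)) := by
        simp only [Matrix.mul_assoc]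
      rw [h1, rtr_mul_comm, hM]
      simp only [Matrix.mul_assoc]
    rw [← hp, e5]
    linarith

/-- The square root is monotone: if `D, S ≥ 0` and `S S - D D ≥ 0` then `S - D ≥ 0`. -/
theorem sqrt_mono {S D : Matrix ι ι ℂ} (hS : S.PosSemidef) (hD : D.PosSemidef)
    (h : (S * S - D * D).PosSemidef) : (S - D).PosSemidef := by
  have hH : (S - D).IsHermitian := hS.isHermitian.sub hD.isHermitian
  rw [hH.posSemidef_iff_eigenvalues_nonneg]
  intro i
  by_contra hneg
  simp only [Pi.zero_apply, not_le] at hneg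
  set lam := hH.eigenvalues i with hlam
  set v : ι → ℂ := ⇑(hH.eigenvectorBasis i) with hv
  have hev : (S - D) *ᵥ v = lam • v := hH.mulVec_eigenvectorBasis i
  have hv0 : v ≠ 0 := by
    intro h0
    have h1 : ‖hH.eigenvectorBasis i‖ = 1 := hH.eigenvectorBasis.orthonormal.1 i
    have h2 : hH.eigenvectorBasis i = 0 := by
      ext j
      exact congrFun h0 j
    rw [h2, norm_zero] at h1
    exact zero_ne_one h1
  have hW : (Matrix.vecMulVec v (star v)).PosSemidef := Matrix.posSemidef_vecMulVec_self_star v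
  obtain ⟨W, hWd⟩ : ∃ W, W = Matrix.vecMulVec v (star v) := ⟨_, rfl⟩
  rw [← hWd] at hW
  have h2 : (S - D) * W = (lam : ℂ) • W := by
    rw [hWd, Matrix.mul_vecMulVec, hev]
    ext i j
    simp [Matrix.vecMulVec_apply, mul_assoc]
  have h3 : 0 < rtr W := by
    have h4 : 0 ≤ rtr W := (Complex.nonneg_iff.mp hW.trace_nonneg).1
    rcases h4.eq_or_lt with h5 | h5
    · exfalso
      apply hv0
      have h6 : W.trace = 0 := by
        apply Complex.ext
        · exact h5.symm
        · exact (Complex.nonneg_iff.mp hW.trace_nonneg).2.symm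
      rw [hWd, Matrix.trace_vecMulVec, dotProduct_comm] at h6
      exact dotProduct_star_self_eq_zero.mp h6
    · exact h5
  have hs : 0 ≤ rtr (S * W) := rtr_mul_nonneg hS hW
  have hd : 0 ≤ rtr (D * W) := rtr_mul_nonneg hD hW
  have h5 : rtr (S * W) - rtr (D * W) = lam * rtr W := by
    rw [← rtr_sub, ← Matrix.sub_mul, h2, rtr_smul]
  have h6 : 0 ≤ rtr ((S * S - D * D) * W) := rtr_mul_nonneg h hW
  have hSW : S * W = D * W + (lam : ℂ) • W := by
    rw [← h2, Matrix.sub_mul]
    abel
  have hDW : D * W = S * W - (lam : ℂ) • W := by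
    rw [← h2, Matrix.sub_mul]
    abel
  have h7 : (S * S - D * D) * W = S * (D * W) + (lam : ℂ) • (S * W) - D * (S * W) +
      (lam : ℂ) • (D * W) := by
    calc (S * S - D * D) * W = S * (S * W) - D * (D * W) := by
          simp only [Matrix.sub_mul, Matrix.mul_assoc]
      _ = S * (D * W + (lam : ℂ) • W) - D * (S * W - (lam : ℂ) • W) := by
          rw [← hSW, ← hDW]
      _ = _ := by
          simp only [Matrix.mul_add, Matrix.mul_sub, Matrix.mul_smul]
          abel
  have h8 : rtr (S * (D * W)) = rtr (D * (S * W)) := by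
    have h9 := rtr_conjTranspose (S * (D * W))
    rw [Matrix.conjTranspose_mul, Matrix.conjTranspose_mul, hS.isHermitian.eq,
      hD.isHermitian.eq, hW.isHermitian.eq] at h9
    rw [← h9, Matrix.mul_assoc, rtr_mul_comm, Matrix.mul_assoc]
  rw [h7, rtr_add, rtr_sub, rtr_add, rtr_smul, rtr_smul, h8] at h6
  nlinarith [mul_pos_of_neg_of_neg hneg hneg, h3, hs, hd, h5, h6]

end Pool.Agent.H54J
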