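import Pool.Agent.Lib.H54J.J3

/-! # The polynomial identity for the version with the gain term (helper93) -/

namespace Pool.Agent.H54J

open Matrix Pool.Agent.H25A
open scoped ComplexOrder

variable {ι : Type*} [Fintype ι] [DecidableEq ι]

/-- `|[R a R, R X R]|^2 = tr z^* F z F`, `z = a F X - X F a`, `F = R R`. -/
noncomputable def zz (X F a : Matrix ι ι ℂ) : ℝ :=
  rtr ((a * F * X - X * F * a)ᴴ * F * (a * F * X - X * F * a) * F)

set_option linter.unusedSimpArgs false in
theorem hf_identity2 {a b X : Matrix ι ι ℂ} (ha : a.IsHermitian) (hb : b.IsHermitian)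
    (hX : X.IsHermitian) :
    2 * (hf X b a + hf X a b) = xx X (a * b - b * a) + nsq (a * X - X * a) + nsq (b * X - X * b) +
      (1 / 2) * rtr (X * X * ((1 - a * a) + (1 - b * b))) +
      (1 / 2) * (-rtr ((a * X - X * a) * b * (a * b * X - X * b * a)) -
        rtr ((a * X - X * a) * (a * b * X - X * b * a) * b) +
        rtr ((a * X - X * a) * (a * X - X * a)) +
        rtr ((a * X - X * a) * b * (a * X - X * a) * b)) +
      (1 / 2) * (-rtr ((b * X - X * b) * a * (b * a * X - X * a * b)) -
        rtr ((b * X - X * b) * (b * a * X - X * a * b) * a) +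
        rtr ((b * X - X * b) * (b * X - X * b)) +
        rtr ((b * X - X * b) * a * (b * X - X * b) * a)) +
      (1 / 2) * rtr ((1 - b * b) * (a * X - X * a) * (a * X - X * a)) +
      (1 / 2) * rtr ((1 - a * a) * (b * X - X * b) * (b * X - X * b)) -
      rtr ((1 - a * a) * X * (1 - b * b) * X) := by
  have r1 : rtr (X * (X * (b * (a * (b * a))))) = rtr (X * (X * (a * (b * (a * b))))) := by
    have h1 := rtr_conjTranspose (X * (X * (b * (a * (b * a)))))
    simp only [Matrix.conjTranspose_mul, ha.eq, hb.eq, hX.eq, Matrix.mul_assoc, Matrix.neg_mul, Matrix.mul_neg, neg_neg, rtr_neg] at h1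
    have h := rtr_mul_comm (a * b * a * b) (X * X)
    simp only [Matrix.mul_assoc] at h
    linarith
  have r2 : rtr (X * (a * (a * X))) = rtr (X * (X * (a * a))) := by
    have h := rtr_mul_comm (X * a * a) (X)
    simpa only [Matrix.mul_assoc] using h
  have r3 : rtr (X * (a * (b * (a * (b * X))))) = rtr (X * (X * (a * (b * (a * b))))) := by
    have h := rtr_mul_comm (X * a * b * a * b) (X)
    simpa only [Matrix.mul_assoc] using h
  have r4 : rtr (X * (b * (X * (a * (b * a))))) = rtr (X * (a * (b * (a * (X * b))))) := by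
    have h := rtr_mul_comm (X * b) (X * a * b * a)
    simpa only [Matrix.mul_assoc] using h
  have r5 : rtr (X * (b * (a * (X * (a * b))))) = rtr (X * (a * (b * (X * (b * a))))) := by
    have h := rtr_mul_comm (X * b * a) (X * a * b)
    simpa only [Matrix.mul_assoc] using h
  have r6 : rtr (X * (b * (a * (X * (b * a))))) = rtr (X * (a * (b * (X * (a * b))))) := by
    have h1 := rtr_conjTranspose (X * (b * (a * (X * (b * a)))))
    simp only [Matrix.conjTranspose_mul, ha.eq, hb.eq, hX.eq, Matrix.mul_assoc, Matrix.neg_mul, Matrix.mul_neg, neg_neg, rtr_neg] at h1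
    have h := rtr_mul_comm (a * b) (X * a * b * X)
    simp only [Matrix.mul_assoc] at h
    linarith
  have r7 : rtr (X * (b * (a * (b * (X * a))))) = rtr (X * (a * (X * (b * (a * b))))) := by
    have h := rtr_mul_comm (X * b * a * b) (X * a)
    simpa only [Matrix.mul_assoc] using h
  have r8 : rtr (X * (b * (a * (b * (a * X))))) = rtr (X * (X * (a * (b * (a * b))))) := by
    have h1 := rtr_conjTranspose (X * (b * (a * (b * (a * X)))))
    simp only [Matrix.conjTranspose_mul, ha.eq, hb.eq, hX.eq, Matrix.mul_assoc, Matrix.neg_mul, Matrix.mul_neg, neg_neg, rtr_neg] at h1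
    have h := rtr_mul_comm (X * a * b * a * b) (X)
    simp only [Matrix.mul_assoc] at h
    linarith
  have r9 : rtr (X * (b * (b * X))) = rtr (X * (X * (b * b))) := by
    have h := rtr_mul_comm (X * b * b) (X)
    simpa only [Matrix.mul_assoc] using h
  have r10 : rtr (X * (b * (b * (a * (X * a))))) = rtr (X * (a * (X * (a * (b * b))))) := by
    have h1 := rtr_conjTranspose (X * (b * (b * (a * (X * a)))))
    simp only [Matrix.conjTranspose_mul, ha.eq, hb.eq, hX.eq, Matrix.mul_assoc, Matrix.neg_mul, Matrix.mul_neg, neg_neg, rtr_neg] at h1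
    have h := rtr_mul_comm (a * X * a * b * b) (X)
    simp only [Matrix.mul_assoc] at h
    linarith
  have r11 : rtr (a * (X * (X * a))) = rtr (X * (X * (a * a))) := by
    have h := rtr_mul_comm (a) (X * X * a)
    simpa only [Matrix.mul_assoc] using h
  have r12 : rtr (a * (X * (X * (b * (a * b))))) = rtr (X * (X * (a * (b * (a * b))))) := by
    have h1 := rtr_conjTranspose (a * (X * (X * (b * (a * b)))))
    simp only [Matrix.conjTranspose_mul, ha.eq, hb.eq, hX.eq, Matrix.mul_assoc, Matrix.neg_mul, Matrix.mul_neg, neg_neg, rtr_neg] at h1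
    have h := rtr_mul_comm (b * a * b) (X * X * a)
    simp only [Matrix.mul_assoc] at h
    linarith
  have r13 : rtr (a * (X * (a * X))) = rtr (X * (a * (X * a))) := by
    have h := rtr_mul_comm (a) (X * a * X)
    simpa only [Matrix.mul_assoc] using h
  have r14 : rtr (a * (X * (a * (b * (X * b))))) = rtr (X * (a * (b * (X * (b * a))))) := by
    have h := rtr_mul_comm (a) (X * a * b * X * b)
    simpa only [Matrix.mul_assoc] using h
  have r15 : rtr (a * (X * (b * (X * (a * b))))) = rtr (X * (a * (b * (a * (X * b))))) := by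
    have h := rtr_mul_comm (a * X * b) (X * a * b)
    simpa only [Matrix.mul_assoc] using h
  have r16 : rtr (a * (X * (b * (X * (b * a))))) = rtr (X * (a * (a * (b * (X * b))))) := by
    have h1 := rtr_conjTranspose (a * (X * (b * (X * (b * a)))))
    simp only [Matrix.conjTranspose_mul, ha.eq, hb.eq, hX.eq, Matrix.mul_assoc, Matrix.neg_mul, Matrix.mul_neg, neg_neg, rtr_neg] at h1
    have h := rtr_mul_comm (a * b * X * b) (X * a)
    simp only [Matrix.mul_assoc] at h
    linarith
  have r17 : rtr (a * (X * (b * (a * (X * b))))) = rtr (X * (a * (b * (X * (a * b))))) := by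
    have h1 := rtr_conjTranspose (a * (X * (b * (a * (X * b)))))
    simp only [Matrix.conjTranspose_mul, ha.eq, hb.eq, hX.eq, Matrix.mul_assoc, Matrix.neg_mul, Matrix.mul_neg, neg_neg, rtr_neg] at h1
    have h := rtr_mul_comm (b) (X * a * b * X * a)
    simp only [Matrix.mul_assoc] at h
    linarith
  have r18 : rtr (a * (X * (b * (a * (b * X))))) = rtr (X * (a * (X * (b * (a * b))))) := by
    have h := rtr_mul_comm (a * X * b * a * b) (X)
    simpa only [Matrix.mul_assoc] using h
  have r19 : rtr (a * (a * (X * X))) = rtr (X * (X * (a * a))) := by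
    have h := rtr_mul_comm (a * a) (X * X)
    simpa only [Matrix.mul_assoc] using h
  have r20 : rtr (a * (a * (X * (b * (X * b))))) = rtr (X * (a * (a * (b * (X * b))))) := by
    have h1 := rtr_conjTranspose (a * (a * (X * (b * (X * b)))))
    simp only [Matrix.conjTranspose_mul, ha.eq, hb.eq, hX.eq, Matrix.mul_assoc, Matrix.neg_mul, Matrix.mul_neg, neg_neg, rtr_neg] at h1
    have h := rtr_mul_comm (b * X * b) (X * a * a)
    simp only [Matrix.mul_assoc] at h
    linarith
  have r21 : rtr (a * (a * (X * (b * (b * X))))) = rtr (X * (a * (a * (X * (b * b))))) := by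
    have h := rtr_mul_comm (a * a * X * b * b) (X)
    simpa only [Matrix.mul_assoc] using h
  have r22 : rtr (a * (a * (b * (X * (X * b))))) = rtr (X * (X * (b * (a * (a * b))))) := by
    have h := rtr_mul_comm (a * a * b) (X * X * b)
    simpa only [Matrix.mul_assoc] using h
  have r23 : rtr (a * (a * (b * (X * (b * X))))) = rtr (X * (a * (a * (b * (X * b))))) := by
    have h := rtr_mul_comm (a * a * b * X * b) (X)
    simpa only [Matrix.mul_assoc] using h
  have r24 : rtr (a * (b * (X * (a * (b * X))))) = rtr (X * (a * (b * (X * (a * b))))) := by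
    have h := rtr_mul_comm (a * b) (X * a * b * X)
    simpa only [Matrix.mul_assoc] using h
  have r25 : rtr (a * (b * (X * (b * (a * X))))) = rtr (X * (a * (b * (X * (b * a))))) := by
    have h := rtr_mul_comm (a * b * X * b * a) (X)
    simpa only [Matrix.mul_assoc] using h
  have r26 : rtr (b * (X * (X * (a * (b * a))))) = rtr (X * (X * (a * (b * (a * b))))) := by
    have h := rtr_mul_comm (b) (X * X * a * b * a)
    simpa only [Matrix.mul_assoc] using h
  have r27 : rtr (b * (X * (X * b))) = rtr (X * (X * (b * b))) := by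
    have h := rtr_mul_comm (b) (X * X * b)
    simpa only [Matrix.mul_assoc] using h
  have r28 : rtr (b * (X * (a * (X * (a * b))))) = rtr (X * (a * (X * (a * (b * b))))) := by
    have h := rtr_mul_comm (b) (X * a * X * a * b)
    simpa only [Matrix.mul_assoc] using h
  have r29 : rtr (b * (X * (a * (X * (b * a))))) = rtr (X * (a * (X * (b * (a * b))))) := by
    have h := rtr_mul_comm (b) (X * a * X * b * a)
    simpa only [Matrix.mul_assoc] using h
  have r30 : rtr (b * (X * (a * (b * (X * a))))) = rtr (X * (a * (b * (X * (a * b))))) := by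
    have h := rtr_mul_comm (b) (X * a * b * X * a)
    simpa only [Matrix.mul_assoc] using h
  have r31 : rtr (b * (X * (a * (b * (a * X))))) = rtr (X * (a * (b * (a * (X * b))))) := by
    have h := rtr_mul_comm (b) (X * a * b * a * X)
    simpa only [Matrix.mul_assoc] using h
  have r32 : rtr (b * (X * (b * X))) = rtr (X * (b * (X * b))) := by
    have h := rtr_mul_comm (b) (X * b * X)
    simpa only [Matrix.mul_assoc] using h
  have r33 : rtr (b * (X * (b * (a * (X * a))))) = rtr (X * (a * (b * (X * (b * a))))) := by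
    have h := rtr_mul_comm (b * X * b * a) (X * a)
    simpa only [Matrix.mul_assoc] using h
  have r34 : rtr (b * (a * (X * (a * (b * X))))) = rtr (X * (a * (b * (X * (b * a))))) := by
    have h := rtr_mul_comm (b * a) (X * a * b * X)
    simpa only [Matrix.mul_assoc] using h
  have r35 : rtr (b * (a * (X * (b * (a * X))))) = rtr (X * (a * (b * (X * (a * b))))) := by
    have h1 := rtr_conjTranspose (b * (a * (X * (b * (a * X)))))
    simp only [Matrix.conjTranspose_mul, ha.eq, hb.eq, hX.eq, Matrix.mul_assoc, Matrix.neg_mul, Matrix.mul_neg, neg_neg, rtr_neg] at h1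
    linarith
  have r36 : rtr (b * (b * (X * (a * (X * a))))) = rtr (X * (a * (X * (a * (b * b))))) := by
    have h := rtr_mul_comm (b * b) (X * a * X * a)
    simpa only [Matrix.mul_assoc] using h
  have r37 : rtr (b * (b * (X * (a * (a * X))))) = rtr (X * (a * (a * (X * (b * b))))) := by
    have h := rtr_mul_comm (b * b) (X * a * a * X)
    simpa only [Matrix.mul_assoc] using h
  have r38 : rtr (b * (b * (a * (X * (X * a))))) = rtr (X * (X * (a * (b * (b * a))))) := by
    have h := rtr_mul_comm (b * b * a) (X * X * a)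
    simpa only [Matrix.mul_assoc] using h
  have r39 : rtr (b * (b * (a * (X * (a * X))))) = rtr (X * (a * (X * (a * (b * b))))) := by
    have h1 := rtr_conjTranspose (b * (b * (a * (X * (a * X)))))
    simp only [Matrix.conjTranspose_mul, ha.eq, hb.eq, hX.eq, Matrix.mul_assoc, Matrix.neg_mul, Matrix.mul_neg, neg_neg, rtr_neg] at h1
    linarith
  unfold hf xx nsq
  simp only [Matrix.conjTranspose_mul, Matrix.conjTranspose_sub, ha.eq, hb.eq, hX.eq]
  simp only [Matrix.mul_add, Matrix.add_mul, Matrix.mul_sub, Matrix.sub_mul, Matrix.mul_one,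
    Matrix.one_mul, Matrix.mul_assoc, rtr_add, rtr_sub]
  simp only [r1, r2, r3, r4, r5, r6, r7, r8, r9, r10, r11, r12, r13, r14, r15, r16, r17, r18, r19, r20, r21, r22, r23, r24, r25, r26, r27, r28, r29, r30, r31, r32, r33, r34, r35, r36, r37, r38, r39]
  ring

set_option linter.unusedSimpArgs false in
theorem zz_aux {b w z F F' : Matrix ι ι ℂ} (hb : b.IsHermitian) (hw : wᴴ = -w) (hz : zᴴ = -z)
    (hF : F = ((2⁻¹ : ℝ) : ℂ) • (1 + b)) (hF' : F' = ((2⁻¹ : ℝ) : ℂ) • (1 - b))
    (h1 : F.PosSemidef) (h0 : F'.PosSemidef) :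
    -rtr (w * b * z) - rtr (w * z * b) + rtr (w * w) + rtr (w * b * w * b) ≤
      rtr ((((2⁻¹ : ℝ) : ℂ) • (w + z))ᴴ * F * (((2⁻¹ : ℝ) : ℂ) • (w + z)) * F) +
      rtr ((((2⁻¹ : ℝ) : ℂ) • (w - z))ᴴ * F' * (((2⁻¹ : ℝ) : ℂ) • (w - z)) * F') := by
  have s1 : rtr (w * (b * w)) = rtr (b * (w * w)) := by
    have h := rtr_mul_comm (w) (b * w)
    simpa only [Matrix.mul_assoc] using h
  have s2 : rtr (w * (b * (w * b))) = rtr (b * (w * (b * w))) := by
    have h := rtr_mul_comm (w) (b * w * b)
    simpa only [Matrix.mul_assoc] using h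
  have s3 : rtr (w * (b * z)) = rtr (b * (w * z)) := by
    have h1 := rtr_conjTranspose (w * (b * z))
    simp only [Matrix.conjTranspose_mul, hb.eq, hw, hz, Matrix.mul_assoc, Matrix.neg_mul, Matrix.mul_neg, neg_neg, rtr_neg] at h1
    have h := rtr_mul_comm (z) (b * w)
    simp only [Matrix.mul_assoc] at h
    linarith
  have s4 : rtr (w * (b * (z * b))) = rtr (b * (w * (b * z))) := by
    have h := rtr_mul_comm (w * b * z) (b)
    simpa only [Matrix.mul_assoc] using h
  have s5 : rtr (w * (w * b)) = rtr (b * (w * w)) := by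
    have h := rtr_mul_comm (w * w) (b)
    simpa only [Matrix.mul_assoc] using h
  have s6 : rtr (w * (z * b)) = rtr (b * (w * z)) := by
    have h := rtr_mul_comm (w * z) (b)
    simpa only [Matrix.mul_assoc] using h
  have s7 : rtr (z * (b * w)) = rtr (b * (w * z)) := by
    have h := rtr_mul_comm (z) (b * w)
    simpa only [Matrix.mul_assoc] using h
  have s8 : rtr (z * (b * (w * b))) = rtr (b * (w * (b * z))) := by
    have h := rtr_mul_comm (z) (b * w * b)
    simpa only [Matrix.mul_assoc] using h
  have s9 : rtr (z * (b * z)) = rtr (b * (z * z)) := by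
    have h := rtr_mul_comm (z) (b * z)
    simpa only [Matrix.mul_assoc] using h
  have s10 : rtr (z * (b * (z * b))) = rtr (b * (z * (b * z))) := by
    have h := rtr_mul_comm (z) (b * z * b)
    simpa only [Matrix.mul_assoc] using h
  have s11 : rtr (z * w) = rtr (w * z) := by
    have h := rtr_mul_comm (z) (w)
    simpa only [Matrix.mul_assoc] using h
  have s12 : rtr (z * (w * b)) = rtr (b * (w * z)) := by
    have h1 := rtr_conjTranspose (z * (w * b))
    simp only [Matrix.conjTranspose_mul, hb.eq, hw, hz, Matrix.mul_assoc, Matrix.neg_mul, Matrix.mul_neg, neg_neg, rtr_neg] at h1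
    linarith
  have s13 : rtr (z * (z * b)) = rtr (b * (z * z)) := by
    have h := rtr_mul_comm (z * z) (b)
    simpa only [Matrix.mul_assoc] using h
  have c1 := rtr_mul_nonneg (h1.conjTranspose_mul_mul_same (((3 : ℝ) : ℂ) • w - z)) h1
  have c2 := rtr_mul_nonneg (h0.conjTranspose_mul_mul_same (((3 : ℝ) : ℂ) • w + z)) h0
  subst hF hF'
  simp only [Matrix.conjTranspose_add, Matrix.conjTranspose_sub, Matrix.conjTranspose_smul, hw, hz,
    Complex.star_def, Complex.conj_ofReal] at c1 c2 ⊢
  simp only [Matrix.mul_add, Matrix.add_mul, Matrix.mul_sub, Matrix.sub_mul, Matrix.mul_one,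
    Matrix.one_mul, Matrix.mul_assoc, Matrix.neg_mul, Matrix.mul_neg, Matrix.smul_mul,
    Matrix.mul_smul, smul_add, smul_sub, smul_neg, neg_neg, rtr_add, rtr_sub, rtr_neg, rtr_smul,
    sub_neg_eq_add] at c1 c2 ⊢
  simp only [s1, s2, s3, s4, s5, s6, s7, s8, s9, s10, s11, s12, s13] at c1 c2 ⊢
  nlinarith [c1, c2]

end Pool.Agent.H54J
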