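import Pool.Agent.Lib.H54J.J5
import Pool.Agent.Lib.H54J.J6
import Pool.Agent.Lib.H54J.J7

/-! # The pair inequality with the gain term: constants `(kappa_w, kappa_r) = (5/4, 1/2)` -/

namespace Pool.Agent.H54J

open Matrix Pool.Agent.H25A Pool.Agent.H16T
open scoped ComplexOrder

variable {ι : Type*} [Fintype ι] [DecidableEq ι] {n : ℕ}

theorem nsq_comm_eq {p e : Matrix ι ι ℂ} (hp : p.IsHermitian) (he : e.IsHermitian) :
    nsq (p * e - e * p) = 2 * rtr (p * p * (e * e)) - 2 * rtr (p * e * p * e) := by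
  unfold nsq
  rw [Matrix.conjTranspose_sub, Matrix.conjTranspose_mul, Matrix.conjTranspose_mul, he.eq, hp.eq]
  have h1 : (e * p - p * e) * (p * e - e * p) =
      e * (p * p * e) - e * (p * e * p) - p * e * p * e + p * (e * e * p) := by
    simp only [Matrix.sub_mul, Matrix.mul_sub, Matrix.mul_assoc]
    abel
  rw [h1, rtr_add, rtr_sub, rtr_sub, rtr_mul_comm e (p * p * e), rtr_mul_comm e (p * e * p),
    rtr_mul_comm p (e * e * p)]
  have h2 : e * e * p * p = (e * e) * (p * p) := by simp only [Matrix.mul_assoc]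
  have h3 : p * p * e * e = p * p * (e * e) := by simp only [Matrix.mul_assoc]
  rw [h2, h3, rtr_mul_comm (e * e)]
  ring

theorem nsq_sub_le (u v : Matrix ι ι ℂ) : nsq (u - v) ≤ 2 * nsq u + 2 * nsq v := by
  have h := rtr_conjTranspose_mul_self_nonneg (u + v)
  unfold nsq
  rw [Matrix.conjTranspose_add] at h
  rw [Matrix.conjTranspose_sub]
  simp only [Matrix.add_mul, Matrix.mul_add, Matrix.sub_mul, Matrix.mul_sub, rtr_add, rtr_sub] at h ⊢
  linarith

/-- Gain of one outcome. -/
theorem gain_outcome {X F R a S : Matrix ι ι ℂ} (hX : X.PosSemidef) (hR : R.PosSemidef)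
    (hRR : R * R = F) (hF1 : (1 - F).PosSemidef) (ha : a.IsHermitian)
    (ha1 : (1 - a * a).PosSemidef) (hS : S.PosSemidef) (hSS : S * S = R * X * X * R) :
    (1 / 2) * zz X F a - nsq (R * a * R * S - S * (R * a * R)) ≤
      2 * rtr ((S - R * X * R) * (S - R * X * R)) := by
  have hRh : Rᴴ = R := hR.isHermitian.eq
  have hXh : Xᴴ = X := hX.isHermitian.eq
  obtain ⟨D, hD⟩ : ∃ D, D = R * X * R := ⟨_, rfl⟩
  obtain ⟨p, hp⟩ : ∃ p, p = R * a * R := ⟨_, rfl⟩
  obtain ⟨e, he⟩ : ∃ e, e = S - D := ⟨_, rfl⟩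
  have hDp : D.PosSemidef := by
    have h := hX.mul_mul_conjTranspose_same R
    rw [hRh] at h
    rw [hD]
    exact h
  have hph : p.IsHermitian := by
    unfold Matrix.IsHermitian
    rw [hp, Matrix.conjTranspose_mul, Matrix.conjTranspose_mul, hRh, ha.eq, Matrix.mul_assoc]
  have hep : e.PosSemidef := by
    rw [he]
    refine sqrt_mono hS hDp ?_
    have h := hF1.mul_mul_conjTranspose_same (R * X)
    have h2 : R * X * (1 - F) * (R * X)ᴴ = S * S - D * D := by
      rw [Matrix.conjTranspose_mul, hRh, hXh, hSS, hD, ← hRR]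
      simp only [Matrix.mul_sub, Matrix.sub_mul, Matrix.mul_one, Matrix.mul_assoc]
    rw [h2] at h
    exact h
  -- `zz = |[p, D]|^2`
  have h1 : zz X F a = nsq (p * D - D * p) := by
    have h2 : p * D - D * p = R * (a * F * X - X * F * a) * R := by
      rw [hp, hD, ← hRR]
      simp only [Matrix.mul_sub, Matrix.sub_mul, Matrix.mul_assoc]
    unfold zz nsq
    rw [h2, Matrix.conjTranspose_mul, Matrix.conjTranspose_mul, hRh]
    have h3 : R * ((a * F * X - X * F * a)ᴴ * R) * (R * (a * F * X - X * F * a) * R) =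
        R * ((a * F * X - X * F * a)ᴴ * (R * R) * (a * F * X - X * F * a) * R) := by
      simp only [Matrix.mul_assoc]
    rw [h3, rtr_mul_comm R, hRR]
    have h4 : (a * F * X - X * F * a)ᴴ * F * (a * F * X - X * F * a) * R * R =
        (a * F * X - X * F * a)ᴴ * F * (a * F * X - X * F * a) * F := by
      rw [Matrix.mul_assoc _ R R, hRR]
    rw [h4]
  have h2 : p * D - D * p = (p * S - S * p) - (p * e - e * p) := by
    rw [he]
    simp only [Matrix.mul_sub, Matrix.sub_mul]
    abel
  have h3 := nsq_sub_le (p * S - S * p) (p * e - e * p)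
  rw [← h2, ← h1] at h3
  have h4 := nsq_comm_eq hph hep.isHermitian
  have h5 : 0 ≤ rtr (p * e * p * e) := by
    have h6 := hep.mul_mul_conjTranspose_same p
    rw [hph.eq] at h6
    have h7 := rtr_mul_nonneg h6 hep
    exact h7
  -- `p p ≤ 1`
  have h6 : (1 - p * p).PosSemidef := by
    have h7 : (1 - p * p) = (1 - F) + (R * (1 - a * a) * R + R * a * (1 - F) * (R * a)ᴴ) := by
      rw [Matrix.conjTranspose_mul, hRh, ha.eq, hp]
      have h8 : R * a * R * (R * a * R) = R * a * F * a * R := by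
        rw [← hRR]
        simp only [Matrix.mul_assoc]
      have h9 : R * (1 - a * a) * R = F - R * a * a * R := by
        rw [← hRR]
        simp only [Matrix.mul_sub, Matrix.sub_mul, Matrix.mul_one, Matrix.mul_assoc]
      have h10 : R * a * (1 - F) * (a * R) = R * a * a * R - R * a * F * a * R := by
        simp only [Matrix.mul_sub, Matrix.sub_mul, Matrix.mul_one, Matrix.mul_assoc]
      rw [h8, h9, h10]
      abel
    rw [h7]
    have h8 := ha1.mul_mul_conjTranspose_same R
    rw [hRh] at h8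
    exact hF1.add (h8.add (hF1.mul_mul_conjTranspose_same (R * a)))
  have h7 : 0 ≤ rtr ((1 - p * p) * (e * e)) := by
    have h8 : (e * e).PosSemidef := by
      have h9 := Matrix.posSemidef_conjTranspose_mul_self e
      rwa [hep.isHermitian.eq] at h9
    exact rtr_mul_nonneg h6 h8
  rw [Matrix.sub_mul, Matrix.one_mul, rtr_sub] at h7
  rw [← hp, ← hD, ← he]
  linarith

/-- `|e|^2` of one outcome. -/
theorem e_outcome {X F R S Y : Matrix ι ι ℂ} (hX : X.PosSemidef) (hR : R.PosSemidef)
    (hRR : R * R = F) (hY : Y.PosSemidef) (hSS : S * S = R * X * X * R)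
    (hB : (S - R * X * R - R * X * R + R * Y * R).PosSemidef) :
    rtr ((S - R * X * R) * (S - R * X * R)) ≤
      rtr (X * X * F) - 2 * rtr (X * F * X * F) + rtr (Y * F * Y * F) := by
  have hRh : Rᴴ = R := hR.isHermitian.eq
  obtain ⟨D, hD⟩ : ∃ D, D = R * X * R := ⟨_, rfl⟩
  obtain ⟨q, hq⟩ : ∃ q, q = R * Y * R := ⟨_, rfl⟩
  have hDp : D.PosSemidef := by
    have h := hX.mul_mul_conjTranspose_same R
    rw [hRh] at h
    rw [hD]
    exact h
  have hqp : q.PosSemidef := by
    have h := hY.mul_mul_conjTranspose_same R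
    rw [hRh] at h
    rw [hq]
    exact h
  rw [← hD, ← hq] at hB
  rw [← hD]
  have h1 := rtr_mul_nonneg hB hDp
  have h2 : (S - D - D + q) * D = S * D - D * D - D * D + q * D := by
    simp only [Matrix.sub_mul, Matrix.add_mul]
  rw [h2, rtr_add, rtr_sub, rtr_sub] at h1
  have h3 : rtr (S * S) = rtr (X * X * F) := by
    rw [hSS]
    have h4 : R * X * X * R = R * (X * X * R) := by simp only [Matrix.mul_assoc]
    rw [h4, rtr_mul_comm, Matrix.mul_assoc (X * X), hRR]
  have conj : ∀ Z : Matrix ι ι ℂ, rtr ((R * Z * R) * (R * Z * R)) = rtr (Z * F * Z * F) := by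
    intro Z
    have h4 : (R * Z * R) * (R * Z * R) = R * (Z * (R * R) * Z * R) := by
      simp only [Matrix.mul_assoc]
    rw [h4, rtr_mul_comm, Matrix.mul_assoc _ R R, hRR]
  have h4 : rtr (D * D) = rtr (X * F * X * F) := by
    rw [hD]
    exact conj X
  have h5 : rtr (q * q) = rtr (Y * F * Y * F) := by
    rw [hq]
    exact conj Y
  have h6 : 0 ≤ rtr ((q - D) * (q - D)) := by
    have h7 := rtr_conjTranspose_mul_self_nonneg (q - D)
    rwa [(hqp.isHermitian.sub hDp.isHermitian).eq] at h7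
  have h7 : (q - D) * (q - D) = q * q - q * D - D * q + D * D := by
    simp only [Matrix.sub_mul, Matrix.mul_sub]
    abel
  rw [h7, rtr_add, rtr_sub, rtr_sub, rtr_mul_comm D q] at h6
  have h8 : (S - D) * (S - D) = S * S - S * D - D * S + D * D := by
    simp only [Matrix.sub_mul, Matrix.mul_sub]
    abel
  rw [h8, rtr_add, rtr_sub, rtr_sub, rtr_mul_comm D S]
  linarith

/-- The one-effect test inequality with gain: there is a number `g` (the gain) such that for all
`y` the test inequality holds with `- g / 8`, and `(1/2) (zz + zz') - g ≤ 2 tr X F X (1-F)`. -/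
theorem test_gain {X S F a : Matrix ι ι ℂ} (hS : S.PosDef) (hX : S * S = X)
    (h0 : F.PosSemidef) (h1 : (1 - F).PosSemidef) (ha : a.IsHermitian)
    (ha1 : (1 - a * a).PosSemidef) {N : Matrix ι ι ℂ × Matrix ι ι ℂ}
    (hN : CanInst X S F N) (hI : IsInst X N) :
    ∃ g : ℝ, (1 / 2) * (zz X F a + zz X (1 - F) a) - g ≤
        2 * (rtr (X * X * F) - rtr (X * F * X * F)) ∧
      ∀ (y c : Matrix ι ι ℂ) (t : ℝ) (z : HM ι), y.IsHermitian →
        c = ((2⁻¹ : ℝ) : ℂ) • a → z.val = S * y * S + (t : ℂ) • X →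
        inner ℝ z (bB N hI.1 hI.2.1 z) ≤
          rtr (X * y * X * y) - 2 * rtr (X * y * X * (F * c * F + (1 - F) * c * (1 - F))) +
            rtr (X * X * (F * c * F * c * F + (1 - F) * c * (1 - F) * c * (1 - F))) -
            (1 / 8) * g := by
  have hXp : X.PosDef := by
    rw [← hX]
    have hdet : IsUnit S.det := (Matrix.isUnit_iff_isUnit_det S).1 hS.isUnit
    have h1 : (S * S).PosSemidef := by
      have := Matrix.posSemidef_conjTranspose_mul_self S
      rwa [hS.isHermitian.eq] at this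
    rw [h1.posDef_iff_isUnit, Matrix.isUnit_iff_isUnit_det, Matrix.det_mul]
    exact hdet.mul hdet
  have hXh : X.IsHermitian := hXp.isHermitian
  obtain ⟨Y1, Y0, hY1, hY0, e1, e0, rfl⟩ := hN
  obtain ⟨R1, hR1, hRR1, -⟩ := exists_sqrt h0
  obtain ⟨R0, hR0, hRR0, -⟩ := exists_sqrt h1
  obtain ⟨S1, hS1, hSS1, hB1, t1⟩ := polar_data hXh hR1 hRR1 hY1 e1
  obtain ⟨S0, hS0, hSS0, hB0, t0⟩ := polar_data hXh hR0 hRR0 hY0 e0
  have hF1' : (1 - (1 - F)).PosSemidef := by
    rw [sub_sub_cancel]
    exact h0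
  refine ⟨nsq (R1 * a * R1 * S1 - S1 * (R1 * a * R1)) +
    nsq (R0 * a * R0 * S0 - S0 * (R0 * a * R0)), ?_, ?_⟩
  · have g1 := gain_outcome hXp.posSemidef hR1 hRR1 h1 ha ha1 hS1 hSS1
    have g0 := gain_outcome hXp.posSemidef hR0 hRR0 hF1' ha ha1 hS0 hSS0
    have u1 := e_outcome hXp.posSemidef hR1 hRR1 hY1 hSS1 hB1
    have u0 := e_outcome hXp.posSemidef hR0 hRR0 hY0 hSS0 hB0
    -- `dist_F(F) ≥ 0`
    have hSFS : (S * F * S).IsHermitian := by
      unfold Matrix.IsHermitian
      rw [Matrix.conjTranspose_mul, Matrix.conjTranspose_mul, h0.isHermitian.eq,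
        hS.isHermitian.eq, Matrix.mul_assoc]
    have v1 := theta_le hXp hI hSFS
    rw [rtr_theta_conj hS, rtr_conj_sq hX F F] at v1
    have sw : ∀ A B : Matrix ι ι ℂ, rtr (A * B * A * B) = rtr (B * A * B * A) := by
      intro A B
      have h2 : A * B * A * B = A * (B * A * B) := by simp only [Matrix.mul_assoc]
      rw [h2, rtr_mul_comm]
    rw [sw F Y1, sw F Y0] at v1
    -- expansions for `1 - F`
    have w0 : rtr (Y0 * (1 - F) * Y0 * (1 - F)) =
        rtr (X * X * (1 - F)) - 2 * rtr (X * (1 - F) * X * F) + rtr (Y0 * F * Y0 * F) := by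
      have h2 : Y0 * (1 - F) * Y0 * (1 - F) =
          Y0 * Y0 - Y0 * Y0 * F - Y0 * F * Y0 + Y0 * F * Y0 * F := by
        simp only [Matrix.mul_sub, Matrix.sub_mul, Matrix.mul_one]
        abel
      have h3 : rtr (Y0 * F * Y0) = rtr (Y0 * Y0 * F) := by
        rw [Matrix.mul_assoc, rtr_mul_comm, Matrix.mul_assoc, rtr_mul_comm]
      have h4 : rtr (X * (1 - F) * X) = rtr (X * X * (1 - F)) := by
        rw [Matrix.mul_assoc, rtr_mul_comm, Matrix.mul_assoc, rtr_mul_comm]
      rw [h2, rtr_add, rtr_sub, rtr_sub, h3, e0, h4]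
      ring
    have w1 : rtr (X * (1 - F) * X * F) = rtr (X * X * F) - rtr (X * F * X * F) := by
      rw [← rtr_sub]
      congr 1
      simp only [Matrix.mul_sub, Matrix.sub_mul, Matrix.mul_one]
    have w2 : rtr (X * X * (1 - F)) = rtr (X * X) - rtr (X * X * F) := by
      rw [← rtr_sub, Matrix.mul_sub, Matrix.mul_one]
    have w3 : rtr (X * (1 - F) * X * (1 - F)) =
        rtr (X * X) - 2 * rtr (X * X * F) + rtr (X * F * X * F) := by
      have h2 : X * (1 - F) * X * (1 - F) = X * X - X * X * F - X * F * X + X * F * X * F := by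
        simp only [Matrix.mul_sub, Matrix.sub_mul, Matrix.mul_one]
        abel
      have h3 : rtr (X * F * X) = rtr (X * X * F) := by
        rw [Matrix.mul_assoc, rtr_mul_comm, Matrix.mul_assoc, rtr_mul_comm]
      rw [h2, rtr_add, rtr_sub, rtr_sub, h3]
      ring
    linarith
  · intro y c t z hy hc hz
    have hch : c.IsHermitian := by
      unfold Matrix.IsHermitian
      rw [hc, Matrix.conjTranspose_smul, ha.eq, Complex.star_def, Complex.conj_ofReal]
    have hNS : ∀ (R T : Matrix ι ι ℂ), nsq (R * c * R * T - T * (R * c * R)) =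
        (1 / 4) * nsq (R * a * R * T - T * (R * a * R)) := by
      intro R T
      have h2 : R * c * R * T - T * (R * c * R) =
          (2⁻¹ : ℝ) • (R * a * R * T - T * (R * a * R)) := by
        have h3 : ∀ A : Matrix ι ι ℂ, (2⁻¹ : ℝ) • A = ((2⁻¹ : ℝ) : ℂ) • A := by
          intro A
          ext i j
          simp [Matrix.smul_apply]
        rw [hc, h3]
        simp only [Matrix.mul_smul, Matrix.smul_mul, smul_sub]
      rw [h2, nsq_smul]
      norm_num
    have k1 := t1 y c hy hch
    have k0 := t0 y c hy hch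
    rw [hNS] at k1 k0
    set N := (S⁻¹ * Y1 * S⁻¹, S⁻¹ * Y0 * S⁻¹) with hN
    have hB : (bB N hI.1 hI.2.1 z).val = S * y * S - theta N (S * y * S) := by
      rw [bB_val, hz, theta_add, theta_smul, hI.2.2]
      abel
    have hXz : rtr (X * (S * y * S - theta N (S * y * S))) = 0 := by
      rw [Matrix.mul_sub, rtr_sub, ← theta_symm, hI.2.2, sub_self]
    have h2 : inner ℝ z (bB N hI.1 hI.2.1 z) =
        rtr (S * y * S * (S * y * S)) - rtr (S * y * S * theta N (S * y * S)) := by
      rw [HM.inner_eq, hB, hz, Matrix.add_mul, rtr_add, Matrix.smul_mul, rtr_smul, hXz, mul_zero,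
        add_zero, Matrix.mul_sub, rtr_sub]
    have h4 := rtr_theta_conj (Y1 := Y1) (Y0 := Y0) (y := y) hS
    rw [← hN] at h4
    rw [h2, rtr_conj_sq hX y y, h4, Matrix.mul_add, Matrix.mul_add, rtr_add, rtr_add]
    linarith

end Pool.Agent.H54J
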