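import Pool.Agent.Lib.H16T.TA

/-! # `⟨Q, (1+B)^{-1} Q⟩ ≤ (n/(n+1)) Π` and THEOREM A with the gain `- Π/(n+1)` -/

namespace Pool.Agent.H54J

open Matrix Pool.Agent.H25A Pool.Agent.H16T
open scoped ComplexOrder

theorem K1 {κ K : Type*} [Fintype κ] [DecidableEq κ] [NormedAddCommGroup K]
    [InnerProductSpace ℝ K]
    (B : κ → K →ₗ[ℝ] K) (hsym : ∀ l x y, inner ℝ (B l x) y = inner ℝ x (B l y))
    (hpos : ∀ l x, 0 ≤ inner ℝ x (B l x)) (hle : ∀ l x, ‖B l x‖ ^ 2 ≤ inner ℝ x (B l x)) (G : κ → K)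
    (w : K) (hw : w + ∑ l, B l w = H54I.QQ B G) :
    ((Fintype.card κ : ℝ) + 1) * inner ℝ (H54I.QQ B G) w ≤ (Fintype.card κ : ℝ) * H54I.PP B G := by
  have hB1 : ∀ l x, inner ℝ x (B l x) ≤ ‖x‖ ^ 2 := by
    intro l x
    have h1 : inner ℝ x (B l x) ≤ ‖x‖ * ‖B l x‖ := real_inner_le_norm x (B l x)
    have h2 := hle l x
    have h3 : (0 : ℝ) ≤ (‖x‖ - ‖B l x‖) ^ 2 := sq_nonneg _
    nlinarith [hpos l x, norm_nonneg x, norm_nonneg (B l x)]
  rcases Nat.eq_zero_or_pos (Fintype.card κ) with h0 | h0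
  · have : IsEmpty κ := Fintype.card_eq_zero_iff.mp h0
    have hQ : H54I.QQ B G = 0 := by
      unfold H54I.QQ
      simp
    have hP : H54I.PP B G = 0 := by
      unfold H54I.PP
      simp
    rw [hQ, hP, inner_zero_left]
    simp
  have hn : (0 : ℝ) < (Fintype.card κ : ℝ) := by exact_mod_cast h0
  obtain ⟨n, hnd⟩ : ∃ n : ℝ, n = (Fintype.card κ : ℝ) := ⟨_, rfl⟩
  rw [← hnd] at hn ⊢
  obtain ⟨b, hb⟩ : ∃ b : ℝ, b = ∑ l, inner ℝ (B l w) w := ⟨_, rfl⟩
  have h8 : b = inner ℝ (H54I.QQ B G) w - ‖w‖ ^ 2 := by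
    rw [hb, ← sum_inner, ← hw, inner_add_left, real_inner_self_eq_norm_sq]
    ring
  have hbn : b ≤ n * ‖w‖ ^ 2 := by
    rw [hb, hnd]
    have : ∑ l : κ, inner ℝ (B l w) w ≤ ∑ _l : κ, ‖w‖ ^ 2 :=
      Finset.sum_le_sum fun l _ => by
        rw [hsym]
        exact hB1 l w
    rw [Finset.sum_const, Finset.card_univ, nsmul_eq_mul] at this
    exact this
  -- quadratic inequality
  obtain ⟨lam, hlam⟩ : ∃ lam : ℝ, lam = (n + 1) / n := ⟨_, rfl⟩
  have h1 : ∀ l, 0 ≤ inner ℝ (H54I.vv G l) (B l (H54I.vv G l)) -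
      2 * lam * inner ℝ (B l (H54I.vv G l)) w + lam ^ 2 * inner ℝ (B l w) w := by
    intro l
    have h2 := hpos l (H54I.vv G l - lam • w)
    rw [map_sub, map_smul, inner_sub_left, inner_sub_right, inner_sub_right, inner_smul_left,
      inner_smul_right, inner_smul_left, inner_smul_right] at h2
    have h3 : inner ℝ (H54I.vv G l) (B l w) = inner ℝ (B l (H54I.vv G l)) w := (hsym l _ _).symm
    have h4 : inner ℝ w (B l (H54I.vv G l)) = inner ℝ (B l (H54I.vv G l)) w := real_inner_comm _ _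
    have h5 : inner ℝ w (B l w) = inner ℝ (B l w) w := real_inner_comm _ _
    rw [h3, h4, h5] at h2
    simp only [conj_trivial] at h2
    linarith
  have h6 : 0 ≤ ∑ l, (inner ℝ (H54I.vv G l) (B l (H54I.vv G l)) -
      2 * lam * inner ℝ (B l (H54I.vv G l)) w + lam ^ 2 * inner ℝ (B l w) w) :=
    Finset.sum_nonneg fun l _ => h1 l
  rw [Finset.sum_add_distrib, Finset.sum_sub_distrib, ← Finset.mul_sum, ← Finset.mul_sum] at h6
  have h7 : ∑ l, inner ℝ (B l (H54I.vv G l)) w = inner ℝ (H54I.QQ B G) w := by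
    rw [← sum_inner]
    rfl
  have h9 : ∑ l, inner ℝ (H54I.vv G l) (B l (H54I.vv G l)) = H54I.PP B G := rfl
  rw [h7, h9, ← hb] at h6
  have hlamn : lam * n = n + 1 := by
    rw [hlam]
    field_simp
  have hlam0 : 0 < lam := by
    rw [hlam]
    positivity
  -- `lam * b ≤ q`
  have h10 : lam * b ≤ inner ℝ (H54I.QQ B G) w := by
    have h11 : (lam - 1) * b ≤ ‖w‖ ^ 2 := by
      have h12 : (lam - 1) * n = 1 := by linarith
      have h13 : 0 < lam - 1 := by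
        by_contra hcon
        have : (lam - 1) * n ≤ 0 := mul_nonpos_of_nonpos_of_nonneg (by linarith) hn.le
        linarith
      calc (lam - 1) * b ≤ (lam - 1) * (n * ‖w‖ ^ 2) := mul_le_mul_of_nonneg_left hbn h13.le
        _ = ‖w‖ ^ 2 := by rw [← mul_assoc, h12, one_mul]
    linarith
  have h11 : lam * (lam * b) ≤ lam * inner ℝ (H54I.QQ B G) w :=
    mul_le_mul_of_nonneg_left h10 hlam0.le
  have h12 : lam * inner ℝ (H54I.QQ B G) w ≤ H54I.PP B G := by nlinarith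
  have h13 : n * (lam * inner ℝ (H54I.QQ B G) w) ≤ n * H54I.PP B G :=
    mul_le_mul_of_nonneg_left h12 hn.le
  calc (n + 1) * inner ℝ (H54I.QQ B G) w = n * (lam * inner ℝ (H54I.QQ B G) w) := by
        rw [← hlamn]
        ring
    _ ≤ n * H54I.PP B G := h13

variable {ι : Type*} [Fintype ι] [DecidableEq ι] {n : ℕ}

/-- THEOREM A with the gain `- Π/(n+1)`. -/
theorem thmA_pi {X : Matrix ι ι ℂ} (hX : X.PosDef) (k : ℤ)
    (N : Fin n → Matrix ι ι ℂ × Matrix ι ι ℂ) (hN : ∀ l, IsInst X (N l)) :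
    (2 * k + 1) * rtr (X * ∑ l, gG X (N l)) - rtr ((∑ l, gG X (N l)) * ∑ l, gG X (N l)) -
        (k : ℝ) * (k + 1) * rtr (X * X) ≤
      (∑ l, (rtr (X * gG X (N l)) - rtr (gG X (N l) * gG X (N l)))) +
        (1 / 3) * (H54I.WW (bb N hN) (gg hX.isHermitian N hN) +
          (1 / 2) * H54I.SS (bb N hN) (gg hX.isHermitian N hN) -
          H54I.PP (bb N hN) (gg hX.isHermitian N hN) / ((n : ℝ) + 1)) := by
  obtain ⟨w, hw, h⟩ := thmA_sharp hX k N hN
  have h1 := K1 (bb N hN) (bb_symm N hN) (bb_nonneg hX N hN) (bb_sq_le hX N hN)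
    (gg hX.isHermitian N hN) w hw
  rw [Fintype.card_fin] at h1
  have hn : (0 : ℝ) < (n : ℝ) + 1 := by positivity
  have h2 : inner ℝ (H54I.QQ (bb N hN) (gg hX.isHermitian N hN)) w ≤
      H54I.PP (bb N hN) (gg hX.isHermitian N hN) -
        H54I.PP (bb N hN) (gg hX.isHermitian N hN) / ((n : ℝ) + 1) := by
    have h3 : H54I.PP (bb N hN) (gg hX.isHermitian N hN) -
        H54I.PP (bb N hN) (gg hX.isHermitian N hN) / ((n : ℝ) + 1) =
        ((n : ℝ) * H54I.PP (bb N hN) (gg hX.isHermitian N hN)) / ((n : ℝ) + 1) := by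
      field_simp
      ring
    rw [h3, le_div_iff₀ hn]
    linarith
  linarith

end Pool.Agent.H54J
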